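import Pool.Agent.Helper92.Ch.Steinberg

/-!
Column subgroups of a Steinberg system.
-/

set_option autoImplicit false
set_option linter.unusedSectionVars false

universe u v w

namespace Pool.Agent.Helper92.Ch

namespace StSys

variable {ι : Type u} {K : Type v} [Fintype ι] [DecidableEq ι] [Field K] {G : Type w} [Group G]
variable (S : StSys ι K G)

/-- The homomorphism `a ↦ x i k a`. -/
def xHom (i k : ι) : Multiplicative K →* G :=
  if h : i ≠ k then
    { toFun := fun a => S.x i k a.toAdd
      map_one' := S.zero h
      map_mul' := fun _ _ => S.add h _ _ }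
  else 1

lemma xHom_apply {i k : ι} (h : i ≠ k) (a : Multiplicative K) : S.xHom i k a = S.x i k a.toAdd := by
  unfold xHom; rw [dif_pos h]; rfl

lemma xHom_self (k : ι) (a : Multiplicative K) : S.xHom k k a = 1 := by
  unfold xHom; rw [dif_neg (by simp)]; rfl

lemma xHom_commute (k : ι) : Pairwise fun i j => ∀ (x y : Multiplicative K),
    Commute (S.xHom i k x) (S.xHom j k y) := by
  intro i j _ x y
  by_cases hi : i = k
  · subst hi; rw [xHom_self]; exact Commute.one_left _
  · by_cases hj : j = k
    · subst hj; rw [xHom_self]; exact Commute.one_right _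
    · rw [xHom_apply S hi, xHom_apply S hj]
      exact S.comm hi hj (Ne.symm hj) hi _ _

/-- Products of the elements `x i k (c i)`, `i ≠ k`. -/
def col (k : ι) (c : ι → K) : G :=
  MonoidHom.noncommPiCoprod (fun i => S.xHom i k) (S.xHom_commute k)
    (fun i => Multiplicative.ofAdd (c i))

lemma col_add (k : ι) (c d : ι → K) : S.col k (c + d) = S.col k c * S.col k d := by
  unfold col
  rw [← map_mul]; rfl

lemma col_zero (k : ι) : S.col k 0 = 1 := by
  unfold col
  exact map_one (MonoidHom.noncommPiCoprod (fun i => S.xHom i k) (S.xHom_commute k))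

lemma col_single {i k : ι} (h : i ≠ k) (a : K) : S.col k (Pi.single i a) = S.x i k a := by
  have := MonoidHom.noncommPiCoprod_mulSingle (fun i => S.xHom i k) (hcomm := S.xHom_commute k) i
    (Multiplicative.ofAdd a)
  rw [xHom_apply S h] at this
  refine Eq.trans ?_ this
  unfold col
  refine congrArg _ ?_
  funext m
  by_cases hm : m = i
  · subst hm; simp
  · rw [Pi.single_eq_of_ne hm, Pi.mulSingle_eq_of_ne hm]; rfl

lemma col_single_self (k : ι) (a : K) : S.col k (Pi.single k a) = 1 := by
  have := MonoidHom.noncommPiCoprod_mulSingle (fun i => S.xHom i k) (hcomm := S.xHom_commute k) k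
    (Multiplicative.ofAdd a)
  rw [xHom_self S k] at this
  refine Eq.trans ?_ this
  unfold col
  refine congrArg _ ?_
  funext m
  by_cases hm : m = k
  · subst hm; simp
  · rw [Pi.single_eq_of_ne hm, Pi.mulSingle_eq_of_ne hm]; rfl

/-- Additive induction over vectors. -/
lemma vec_induction {p : (ι → K) → Prop} (h0 : p 0) (hadd : ∀ c d, p c → p d → p (c + d))
    (c : ι → K) (hs : ∀ i, c i ≠ 0 → p (Pi.single i (c i))) : p c := by
  have : c = ∑ i, Pi.single i (c i) := (Finset.univ_sum_single c).symm
  rw [this]
  apply Finset.sum_induction _ p hadd h0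
  intro i _
  by_cases hi : c i = 0
  · rw [hi, Pi.single_zero]; exact h0
  · exact hs i hi

lemma x_col {i j k : ι} (hik : i ≠ k) (hjk : j ≠ k) (hij : i ≠ j) (a : K) (c : ι → K) :
    S.x i j a * S.col k c = S.col k (c + (Pi.single i (a * c j) : ι → K)) * S.x i j a := by
  refine vec_induction (p := fun c : ι → K => S.x i j a * S.col k c =
    S.col k (c + (Pi.single i (a * c j) : ι → K)) * S.x i j a) ?_ ?_ c ?_
  · simp only [Pi.zero_apply, mul_zero, Pi.single_zero, add_zero, col_zero, one_mul, mul_one]
  · intro c d hc hd
    have e1 : c + d + (Pi.single i (a * (c + d) j) : ι → K) =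
        (c + (Pi.single i (a * c j) : ι → K)) + (d + (Pi.single i (a * d j) : ι → K)) := by
      rw [Pi.add_apply, mul_add, Pi.single_add]; abel
    rw [e1, col_add, col_add S k (c + _), ← mul_assoc, hc, mul_assoc, hd, ← mul_assoc]
  · intro m _
    generalize c m = b
    by_cases hmk : m = k
    · have e1 : (Pi.single m b : ι → K) j = 0 := Pi.single_eq_of_ne (fun h => hjk (h.trans hmk)) _
      simp only [e1, mul_zero, Pi.single_zero, add_zero]
      rw [hmk, col_single_self, one_mul, mul_one]
    · by_cases hmj : m = j
      · subst hmj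
        have e1 : (Pi.single m b : ι → K) m = b := Pi.single_eq_same _ _
        simp only [e1]
        rw [col_add, col_single S hmk, col_single S hik, S.comm' hij hjk hik,
          S.comm hik hjk (Ne.symm hjk) hik]
      · have e1 : (Pi.single m b : ι → K) j = 0 := Pi.single_eq_of_ne (Ne.symm hmj) _
        simp only [e1, mul_zero, Pi.single_zero, add_zero]
        rw [col_single S hmk, S.comm hij hmk (Ne.symm hmj) hik]

end StSys

end Pool.Agent.Helper92.Ch
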