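import Pool.Agent.Helper92.Ch.Steinberg

/-!
The Steinberg system of elementary matrices.
-/

set_option autoImplicit false

universe u v w

namespace Pool.Agent.Helper92.Ch

open Matrix

variable {ι : Type u} {K : Type v} [Fintype ι] [DecidableEq ι] [Field K]

/-- The underlying matrix. -/
def toM (g : SpecialLinearGroup ι K) : Matrix ι ι K := g.1

lemma toM_mul (g h : SpecialLinearGroup ι K) : toM (g * h) = toM g * toM h := rfl
lemma toM_one : toM (1 : SpecialLinearGroup ι K) = 1 := rfl
lemma toM_inj {g h : SpecialLinearGroup ι K} (H : toM g = toM h) : g = h := Subtype.ext H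

/-- Elementary matrices as elements of the special linear group. -/
def El (i j : ι) (a : K) : SpecialLinearGroup ι K :=
  if h : i ≠ j then SpecialLinearGroup.transvection h a else 1

lemma El_coe {i j : ι} (h : i ≠ j) (a : K) : toM (El i j a) = 1 + single i j a := by
  have : El i j a = SpecialLinearGroup.transvection h a := dif_pos h
  rw [this]; rfl

lemma smul0 {i j k l : ι} (h : j ≠ k) (a b : K) : single i j a * single k l b = 0 := by
  rw [single_mul_single_of_ne _ _ _ _ h]

/-- The Steinberg system of elementary matrices. -/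
def MS (ι : Type u) (K : Type v) [Fintype ι] [DecidableEq ι] [Field K] :
    StSys ι K (SpecialLinearGroup ι K) where
  x := El
  add := by
    intro i j h a b
    apply toM_inj
    rw [toM_mul, El_coe h, El_coe h, El_coe h]
    simp only [mul_add, add_mul, one_mul, mul_one, smul0 (Ne.symm h),
      add_zero, single_add]
    abel
  comm := by
    intro i j k l h1 h2 h3 h4 a b
    apply toM_inj
    rw [toM_mul, toM_mul, El_coe h1, El_coe h2]
    simp only [mul_add, add_mul, one_mul, mul_one, smul0 h3,
      smul0 (Ne.symm h4), add_zero]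
    abel
  comm' := by
    intro i j l h1 h2 h3 a b
    apply toM_inj
    rw [toM_mul, toM_mul, toM_mul, El_coe h1, El_coe h2, El_coe h3]
    simp only [mul_add, add_mul, one_mul, mul_one, single_mul_single_same,
      smul0 (Ne.symm h3), smul0 (Ne.symm h2),
      add_zero]
    abel

/-- The action on vectors. -/
def act (g : SpecialLinearGroup ι K) (v : ι → K) : ι → K := toM g *ᵥ v

lemma act_mul (g h : SpecialLinearGroup ι K) (v : ι → K) : act (g * h) v = act g (act h v) := by
  unfold act
  rw [toM_mul, mulVec_mulVec]

lemma act_one (v : ι → K) : act (1 : SpecialLinearGroup ι K) v = v := by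
  unfold act
  rw [toM_one, one_mulVec]

lemma act_El {i j : ι} (h : i ≠ j) (a : K) (v : ι → K) (m : ι) :
    act (El i j a) v m = v m + if m = i then a * v j else 0 := by
  unfold act
  rw [El_coe h]
  rw [add_mulVec, one_mulVec, Pi.add_apply, single_mulVec]
  by_cases hm : m = i
  · subst hm; simp
  · simp [hm]

lemma ext_act {g h : SpecialLinearGroup ι K} (H : ∀ v, act g v = act h v) : g = h := by
  apply toM_inj
  apply Matrix.mulVec_injective
  funext v
  exact H v

lemma act_inv_act (g : SpecialLinearGroup ι K) (v : ι → K) : act g⁻¹ (act g v) = v := by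
  rw [← act_mul, inv_mul_cancel, act_one]

lemma act_wl {i j : ι} (h : i ≠ j) {u : K} (hu : u ≠ 0) (v : ι → K) (m : ι) :
    act ((MS ι K).wl i j u) v m = if m = i then u * v j else if m = j then -(u⁻¹ * v i) else v m := by
  unfold StSys.wl
  show act (El i j u * El j i (-u⁻¹) * El i j u) v m = _
  rw [act_mul, act_mul, act_El h, act_El h.symm, act_El h, act_El h.symm, act_El h, act_El h]
  by_cases hi : m = i
  · subst hi
    simp [h, Ne.symm h]
    field_simp
    ring
  · by_cases hj : m = j
    · subst hj
      simp [h, Ne.symm h]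
      field_simp
      ring
    · simp [hi, hj]

lemma act_hl {i j : ι} (h : i ≠ j) {u : K} (hu : u ≠ 0) (v : ι → K) (m : ι) :
    act ((MS ι K).hl i j u) v m = if m = i then u * v i else if m = j then u⁻¹ * v j else v m := by
  unfold StSys.hl
  rw [act_mul, act_wl h hu, act_wl h (neg_ne_zero.mpr one_ne_zero),
    act_wl h (neg_ne_zero.mpr one_ne_zero), act_wl h (neg_ne_zero.mpr one_ne_zero)]
  by_cases hi : m = i
  · subst hi
    simp [h, Ne.symm h]
  · by_cases hj : m = j
    · subst hj
      simp [h, Ne.symm h]
    · simp [hi, hj]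

lemma MS_sym {i j : ι} (h : i ≠ j) {u v : K} (hu : u ≠ 0) (hv : v ≠ 0) :
    (MS ι K).sym i j u v = 1 := by
  have key : (MS ι K).hl i j (u * v) = (MS ι K).hl i j v * (MS ι K).hl i j u := by
    apply ext_act
    intro z
    funext m
    rw [act_mul, act_hl h (mul_ne_zero hu hv), act_hl h hv, act_hl h hu, act_hl h hu, act_hl h hu]
    by_cases hi : m = i
    · subst hi
      simp; ring
    · by_cases hj : m = j
      · subst hj
        simp [Ne.symm h]; ring
      · simp [hi, hj]
  unfold StSys.sym
  rw [key]; group

/-- Product of Steinberg systems. -/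
def StSys.prod {G : Type w} {G' : Type w} [Group G] [Group G'] (S : StSys ι K G)
    (S' : StSys ι K G') : StSys ι K (G × G') where
  x i j a := (S.x i j a, S'.x i j a)
  add h a b := Prod.ext (S.add h a b) (S'.add h a b)
  comm h1 h2 h3 h4 a b := Prod.ext (S.comm h1 h2 h3 h4 a b) (S'.comm h1 h2 h3 h4 a b)
  comm' h1 h2 h3 a b := Prod.ext (S.comm' h1 h2 h3 a b) (S'.comm' h1 h2 h3 a b)

end Pool.Agent.Helper92.Ch
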