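import Pool.Agent.Helper92.Ch.Col
import Pool.Agent.Helper92.Ch.Mat

/-!
The orbit of a point fixed by a maximal parabolic subgroup of a Steinberg system is parametrised
by nonzero vectors.
-/

set_option autoImplicit false
set_option linter.unusedSectionVars false

universe u v w z

namespace Pool.Agent.Helper92.Ch

open StSys

section
variable {ι : Type u} {K : Type v} [Fintype ι] [DecidableEq ι] [Field K] {G : Type w} [Group G]
variable (S : StSys ι K G) (J : Finset ι) {X : Type z} [MulAction G X]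

/-- `p` is fixed by all `x i j a` with `i, j ∈ J`, `j ≠ k`. -/
def Fix (k : ι) (p : X) : Prop :=
  ∀ ⦃i j : ι⦄, i ∈ J → j ∈ J → i ≠ j → j ≠ k → ∀ a : K, S.x i j a • p = p

variable (hJ : ∀ i ∈ J, ∀ j ∈ J, ∃ m ∈ J, m ≠ i ∧ m ≠ j)
include hJ

lemma fix_wl {k l : ι} (hk : k ∈ J) (hl : l ∈ J) (hkl : k ≠ l) {p : X} (hp : Fix S J k p) {s : K}
    (hs : s ≠ 0) : Fix S J l (S.wl l k s • p) := by
  obtain ⟨m, hm, hmk, hml⟩ := hJ k hk l hl
  intro i j hi hj hij hjl a
  have hs' : -s ≠ 0 := neg_ne_zero.mpr hs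
  have key : ∀ i' j' b, i' ∈ J → j' ∈ J → i' ≠ j' → j' ≠ k →
      cj (S.wl l k (-s)) (S.x i j a) = S.x i' j' b → S.x i j a • S.wl l k s • p = S.wl l k s • p := by
    intro i' j' b hi' hj' hij' hjk' h
    have e1 : S.x i j a * S.wl l k s = S.wl l k s * S.x i' j' b := by
      rw [← h, ← S.wl_inv hkl.symm]
      unfold cj; group
    rw [← mul_smul, e1, mul_smul, hp hi' hj' hij' hjk' b]
  by_cases hjk : j = k
  · subst hjk
    by_cases hil : i = l
    · subst hil
      exact key _ _ _ hj hi hij.symm hjl.symm (S.cj_wl_ij hij hmk.symm hml.symm hs' a)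
    · exact key _ _ _ hi hl hil hkl.symm (S.cj_wl_kj hkl.symm hij.symm (Ne.symm hil) hs' a)
  · by_cases hil : i = l
    · subst hil
      exact key _ _ _ hk hj (Ne.symm hjk) hjk (S.cj_wl_ik hkl.symm (Ne.symm hjk) hij hs' a)
    · by_cases hik : i = k
      · subst hik
        exact key _ _ _ hl hj (Ne.symm hjl) hjk (S.cj_wl_jk hkl.symm hij (Ne.symm hjl) hs' a)
      · exact key _ _ _ hi hj hij hjk
          (S.cj_wl_kl hkl.symm (Ne.symm hil) (Ne.symm hik) (Ne.symm hjl) (Ne.symm hjk) hij a)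

omit hJ in
lemma wl_fix {k l m : ι} (hl : l ∈ J) (hm : m ∈ J) (hlm : l ≠ m) (hlk : l ≠ k)
    (hmk : m ≠ k) {p : X} (hp : Fix S J k p) (s : K) : S.wl m l s • p = p := by
  unfold wl
  rw [mul_smul, mul_smul, hp hm hl hlm.symm hlk, hp hl hm hlm hmk, hp hm hl hlm.symm hlk]

omit hJ in
lemma wl_comp {k l m : ι} (hl : l ∈ J) (hm : m ∈ J) (hlm : l ≠ m) (hlk : l ≠ k)
    (hmk : m ≠ k) {p : X} (hp : Fix S J k p) {s s' : K} (hs' : s' ≠ 0) :
    S.wl m l s' • S.wl l k s • p = S.wl m k (s' * s) • p := by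
  have e1 := cj_eq' (S.cj_wl_wl_jk hlm.symm hlk hmk hs' s)
  rw [← mul_smul, e1, mul_smul, wl_fix S J hl hm hlm hlk hmk hp]

lemma wl_cancel {k l : ι} (hk : k ∈ J) (hl : l ∈ J) (hkl : k ≠ l) {s : K} (hs : s ≠ 0) (p : X) :
    S.wl k l s⁻¹ • S.wl l k s • p = p := by
  obtain ⟨m, _, hmk, hml⟩ := hJ k hk l hl
  rw [S.wl_symm hkl.symm hmk.symm hml.symm hs, ← mul_smul, ← S.wl_inv hkl, mul_inv_cancel, one_smul]

variable {o : ι} (ho : o ∈ J) (p0 : X) (hp0 : Fix S J o p0)

/-- An index different from `o`. -/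
noncomputable def l0 : ι := (hJ o ho o ho).choose

lemma l0_mem : l0 J hJ ho ∈ J := (hJ o ho o ho).choose_spec.1
lemma l0_ne : l0 J hJ ho ≠ o := (hJ o ho o ho).choose_spec.2.1

/-- The point representing `t e_k`. -/
noncomputable def pt (k : ι) (t : K) : X :=
  if k = o then S.wl o (l0 J hJ ho) t • S.wl (l0 J hJ ho) o 1 • p0 else S.wl k o t • p0

lemma pt_ne {k : ι} (hk : k ≠ o) (t : K) : pt S J hJ ho p0 k t = S.wl k o t • p0 := if_neg hk

lemma pt_self (t : K) :
    pt S J hJ ho p0 o t = S.wl o (l0 J hJ ho) t • S.wl (l0 J hJ ho) o 1 • p0 := if_pos rfl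

lemma pt_one : pt S J hJ ho p0 o 1 = p0 := by
  rw [pt_self]
  have := wl_cancel S J hJ ho (l0_mem J hJ ho) (l0_ne J hJ ho).symm one_ne_zero p0
  rwa [inv_one] at this

include hp0

lemma pt_fix {k : ι} (hk : k ∈ J) {t : K} (ht : t ≠ 0) : Fix S J k (pt S J hJ ho p0 k t) := by
  by_cases hko : k = o
  · subst hko
    rw [pt_self]
    exact fix_wl S J hJ (l0_mem J hJ ho) hk (l0_ne J hJ ho)
      (fix_wl S J hJ hk (l0_mem J hJ ho) (l0_ne J hJ ho).symm hp0 one_ne_zero) ht
  · rw [pt_ne S J hJ ho p0 hko]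
    exact fix_wl S J hJ ho hk (Ne.symm hko) hp0 ht

lemma pt_move_o {k : ι} (hk : k ∈ J) (hko : k ≠ o) {s t : K} (hs : s ≠ 0) (ht : t ≠ 0) :
    S.wl o k s • pt S J hJ ho p0 k t = pt S J hJ ho p0 o (s * t) := by
  have hl := l0_mem J hJ ho
  have hlo := l0_ne J hJ ho
  have hfix : ∀ m ∈ J, m ≠ o → ∀ r : K, r ≠ 0 → Fix S J m (S.wl m o r • p0) :=
    fun m hm hmo r hr => fix_wl S J hJ ho hm (Ne.symm hmo) hp0 hr
  have case1 : ∀ m ∈ J, m ≠ o → m ≠ l0 J hJ ho → ∀ s t : K, s ≠ 0 → t ≠ 0 →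
      S.wl o m s • pt S J hJ ho p0 m t = pt S J hJ ho p0 o (s * t) := by
    intro m hm hmo hml s t hs ht
    rw [pt_self, pt_ne S J hJ ho p0 hmo]
    have e1 := wl_comp S J (k := l0 J hJ ho) (l := o) (m := m) ho hm (Ne.symm hmo) hlo.symm
      hml (hfix _ hl hlo 1 one_ne_zero) (s := 1) (s' := t) ht
    -- wl m o t • wl o l0 1 • q = wl m l0 (t * 1) • q
    have e2 : S.wl o (l0 J hJ ho) 1 • S.wl (l0 J hJ ho) o 1 • p0 = p0 := by
      have := wl_cancel S J hJ ho (l0_mem J hJ ho) (l0_ne J hJ ho).symm one_ne_zero p0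
      rwa [inv_one] at this
    rw [e2, mul_one] at e1
    rw [e1]
    exact wl_comp S J hm ho hmo hml hlo.symm (hfix _ hl hlo 1 one_ne_zero) hs
  by_cases hkl : k = l0 J hJ ho
  · obtain ⟨m, hm, hmo, hml⟩ := hJ o ho (l0 J hJ ho) hl
    have e1 : pt S J hJ ho p0 k t = S.wl k m t • pt S J hJ ho p0 m 1 := by
      rw [pt_ne S J hJ ho p0 hko, pt_ne S J hJ ho p0 hmo]
      have hkm : k ≠ m := fun h => hml (h ▸ hkl)
      have := wl_comp S J (k := o) (l := m) (m := k) hm hk hkm.symm hmo hko hp0 (s := 1) (s' := t) ht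
      rw [mul_one] at this
      exact this.symm
    have hkm : k ≠ m := fun h => hml (h ▸ hkl)
    rw [e1, wl_comp S J hk ho hko hkm hmo.symm (pt_fix S J hJ ho p0 hp0 hm one_ne_zero) hs,
      case1 m hm hmo hml _ _ (mul_ne_zero hs ht) one_ne_zero, mul_one]
  · exact case1 k hk hko hkl s t hs ht

/-- Moving the points by Weyl elements. -/
lemma pt_move {k l : ι} (hk : k ∈ J) (hl : l ∈ J) (hkl : k ≠ l) {s t : K} (hs : s ≠ 0)
    (ht : t ≠ 0) : S.wl l k s • pt S J hJ ho p0 k t = pt S J hJ ho p0 l (s * t) := by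
  by_cases hlo : l = o
  · subst hlo
    exact pt_move_o S J hJ ho p0 hp0 hk hkl hs ht
  · by_cases hko : k = o
    · subst hko
      have e1 := pt_move_o S J hJ ho p0 hp0 hl hlo (inv_ne_zero hs) (mul_ne_zero hs ht)
      rw [inv_mul_cancel_left₀ hs] at e1
      rw [← e1]
      have := wl_cancel S J hJ hl hk hkl.symm (inv_ne_zero hs) (pt S J hJ ho p0 l (s * t))
      rwa [inv_inv] at this
    · rw [pt_ne S J hJ ho p0 hlo, pt_ne S J hJ ho p0 hko]
      exact wl_comp S J hk hl hkl hko hlo hp0 hs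

omit hJ hp0 in
/-- Products of elements fixing a point. -/
lemma col_fix {k l : ι} (hl : l ∈ J) (hlk : l ≠ k) {p : X} (hp : Fix S J k p) (d : ι → K)
    (hd : ∀ i, d i ≠ 0 → i ∈ J ∧ i ≠ l) : S.col l d • p = p := by
  refine vec_induction (p := fun d : ι → K => S.col l d • p = p) ?_ ?_ d ?_
  · show S.col l 0 • p = p
    rw [col_zero, one_smul]
  · intro c d hc hd
    show S.col l (c + d) • p = p
    rw [col_add, mul_smul, hd, hc]
  · intro i hi
    show S.col l (Pi.single i (d i)) • p = p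
    rw [col_single S (hd i hi).2]
    exact hp (hd i hi).1 hl (hd i hi).2 hlk _

omit hJ hp0 in
/-- Comparison of two columns on the point `x l k s • p`. -/
lemma col_compare {k l : ι} (hl : l ∈ J) (hkl : k ≠ l) {p : X} (hp : Fix S J k p)
    (s : K) (d : ι → K) (hd : ∀ i, d i ≠ 0 → i ∈ J ∧ i ≠ l ∧ i ≠ k) :
    S.col l d • S.x l k s • p = S.col k (fun i => d i * s) • S.x l k s • p := by
  have key : d l = 0 ∧ ∀ c : ι → K, c l = 0 →
      S.col l d • S.col k c • S.x l k s • p = S.col k (c + fun i => d i * s) • S.x l k s • p := by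
    refine vec_induction (p := fun d : ι → K => d l = 0 ∧ ∀ c : ι → K, c l = 0 →
      S.col l d • S.col k c • S.x l k s • p = S.col k (c + fun i => d i * s) • S.x l k s • p)
      ?_ ?_ d ?_
    · refine ⟨rfl, fun c _ => ?_⟩
      have e1 : (c + fun i => (0 : ι → K) i * s) = c := by funext i; simp
      rw [col_zero, one_smul, e1]
    · rintro d d' ⟨h0, h1⟩ ⟨h0', h2⟩
      refine ⟨by rw [Pi.add_apply, h0, h0', add_zero], fun c hc => ?_⟩
      have e1 : (c + fun i => (d + d') i * s) = ((c + fun i => d' i * s) + fun i => d i * s) := by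
        funext i; simp only [Pi.add_apply]; ring
      rw [col_add, mul_smul, h2 c hc, h1 _ (by simp [hc, h0']), e1]
    · intro i hi
      obtain ⟨hiJ, hil, hik⟩ := hd i hi
      generalize d i = b
      refine ⟨Pi.single_eq_of_ne (Ne.symm hil) _, fun c hc => ?_⟩
      rw [col_single S hil, ← mul_smul, x_col S hik hkl.symm hil, hc, mul_zero, Pi.single_zero,
        add_zero, mul_smul]
      have e1 : S.x i l b • S.x l k s • p = S.x i k (b * s) • S.x l k s • p := by
        rw [← mul_smul, S.comm' hil hkl.symm hik, mul_smul, mul_smul, hp hiJ hl hil hkl.symm]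
      have e2 : (fun m => (Pi.single i b : ι → K) m * s) = Pi.single i (b * s) := by
        funext m
        by_cases hm : m = i
        · subst hm; simp
        · simp [Pi.single_eq_of_ne hm]
      rw [e1, e2, col_add, col_single S hik, mul_smul]
  have := key.2 0 rfl
  rwa [col_zero, one_smul, zero_add] at this

/-- Overlap of charts. -/
lemma overlap {k l : ι} (hk : k ∈ J) (hl : l ∈ J) (hkl : k ≠ l) (v : ι → K)
    (hv : ∀ i, v i ≠ 0 → i ∈ J) (hvk : v k ≠ 0) (hvl : v l ≠ 0) :
    S.col k (fun i => v i / v k) • pt S J hJ ho p0 k (v k) =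
      S.col l (fun i => v i / v l) • pt S J hJ ho p0 l (v l) := by
  have hpk := pt_fix S J hJ ho p0 hp0 hk hvk
  set p : X := pt S J hJ ho p0 k (v k) with hp
  set s : K := v l / v k with hs
  have hs0 : s ≠ 0 := div_ne_zero hvl hvk
  have hsv : s * v k = v l := by rw [hs]; field_simp
  have hq : pt S J hJ ho p0 l (v l) = S.wl l k s • p := by
    rw [hp, pt_move S J hJ ho p0 hp0 hk hl hkl hs0 hvk, hsv]
  -- the basic relation
  have hb : S.x k l s⁻¹ • S.wl l k s • p = S.x l k s • p := by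
    obtain ⟨m, _, hmk, hml⟩ := hJ k hk l hl
    rw [S.wl_symm hkl.symm hmk.symm hml.symm hs0]
    unfold wl
    rw [mul_smul, mul_smul, hpk hk hl hkl hkl.symm, ← mul_smul, ← S.add hkl, add_neg_cancel,
      S.zero hkl, one_smul, inv_neg, inv_inv, neg_neg]
  set d : ι → K := fun i => if i = k ∨ i = l then 0 else v i / v l with hd
  have hdd : ∀ i, d i ≠ 0 → i ∈ J ∧ i ≠ l ∧ i ≠ k := by
    intro i hi
    simp only [hd] at hi
    by_cases h : i = k ∨ i = l
    · rw [if_pos h] at hi; exact absurd rfl hi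
    · rw [if_neg h] at hi
      push Not at h
      refine ⟨hv i ?_, h.2, h.1⟩
      intro h0; rw [h0, zero_div] at hi; exact hi rfl
  have h1 := col_compare S J hl hkl hpk s d hdd
  have e1 : (fun i => v i / v l) = d + (Pi.single k s⁻¹ : ι → K) + (Pi.single l 1 : ι → K) := by
    funext i
    simp only [Pi.add_apply, hd]
    by_cases hik : i = k
    · subst hik
      rw [if_pos (Or.inl rfl), Pi.single_eq_same, Pi.single_eq_of_ne hkl, hs]
      field_simp; ring
    · by_cases hil : i = l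
      · subst hil
        rw [if_pos (Or.inr rfl), Pi.single_eq_same, Pi.single_eq_of_ne hik]
        field_simp; ring
      · rw [if_neg (by push Not; exact ⟨hik, hil⟩), Pi.single_eq_of_ne hik,
          Pi.single_eq_of_ne hil, add_zero, add_zero]
  have e2 : (fun i => v i / v k) = (fun i => d i * s) + (Pi.single l s : ι → K) +
      (Pi.single k 1 : ι → K) := by
    funext i
    simp only [Pi.add_apply, hd]
    by_cases hik : i = k
    · subst hik
      rw [if_pos (Or.inl rfl), Pi.single_eq_same, Pi.single_eq_of_ne hkl]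
      field_simp; ring
    · by_cases hil : i = l
      · subst hil
        rw [if_pos (Or.inr rfl), Pi.single_eq_same, Pi.single_eq_of_ne hik, hs]
        ring
      · rw [if_neg (by push Not; exact ⟨hik, hil⟩), Pi.single_eq_of_ne hik,
          Pi.single_eq_of_ne hil, add_zero, add_zero, hs]
        field_simp
  rw [e1, e2, col_add, col_add, col_single_self, mul_one, col_single S hkl.symm, mul_smul, ← h1,
    col_add, col_add, col_single_self, mul_one, col_single S hkl, mul_smul, hq, hb]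

open Classical in
/-- The point of `X` represented by a vector. -/
noncomputable def ptv (v : ι → K) : X :=
  if h : ∃ k, v k ≠ 0 then
    S.col h.choose (fun i => v i / v h.choose) • pt S J hJ ho p0 h.choose (v h.choose)
  else p0

lemma ptv_eq {k : ι} (v : ι → K) (hv : ∀ i, v i ≠ 0 → i ∈ J) (hvk : v k ≠ 0) :
    ptv S J hJ ho p0 v = S.col k (fun i => v i / v k) • pt S J hJ ho p0 k (v k) := by
  have h : ∃ k, v k ≠ 0 := ⟨k, hvk⟩
  unfold ptv
  rw [dif_pos h]
  by_cases hk : h.choose = k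
  · rw [hk]
  · exact overlap S J hJ ho p0 hp0 (hv _ h.choose_spec) (hv _ hvk) hk v hv h.choose_spec hvk

lemma ptv_base : ptv S J hJ ho p0 (Pi.single o 1) = p0 := by
  rw [ptv_eq S J hJ ho p0 hp0 (k := o)]
  · have e1 : (fun i => (Pi.single o (1 : K) : ι → K) i / (Pi.single o (1 : K) : ι → K) o) =
        Pi.single o 1 := by
      funext i; rw [Pi.single_eq_same, div_one]
    rw [e1, col_single_self, one_smul, Pi.single_eq_same, pt_one]
  · intro i hi
    by_cases h : i = o
    · rw [h]; exact ho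
    · rw [Pi.single_eq_of_ne h] at hi; exact absurd rfl hi
  · rw [Pi.single_eq_same]; exact one_ne_zero

/-- Equivariance. -/
lemma x_ptv {i j : ι} (hi : i ∈ J) (hj : j ∈ J) (hij : i ≠ j) (a : K) (v : ι → K)
    (hv : ∀ i, v i ≠ 0 → i ∈ J) (hv0 : ∃ k, v k ≠ 0) :
    S.x i j a • ptv S J hJ ho p0 v = ptv S J hJ ho p0 (v + Pi.single i (a * v j)) := by
  have hv' : ∀ m, (v + (Pi.single i (a * v j) : ι → K)) m ≠ 0 → m ∈ J := by
    intro m hm
    by_cases hmi : m = i
    · rw [hmi]; exact hi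
    · rw [Pi.add_apply, Pi.single_eq_of_ne hmi, add_zero] at hm
      exact hv m hm
  by_cases hex : ∃ k, k ≠ i ∧ v k ≠ 0
  · obtain ⟨k, hki, hvk⟩ := hex
    have hk := hv k hvk
    have hvk' : (v + (Pi.single i (a * v j) : ι → K)) k = v k := by
      rw [Pi.add_apply, Pi.single_eq_of_ne hki, add_zero]
    rw [ptv_eq S J hJ ho p0 hp0 v hv hvk, ptv_eq S J hJ ho p0 hp0 (k := k) _ hv' (by rwa [hvk']),
      hvk']
    have e1 : (fun m => (v + (Pi.single i (a * v j) : ι → K)) m / v k) =
        (fun m => v m / v k) + (Pi.single i (a * (v j / v k)) : ι → K) := by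
      funext m
      by_cases hmi : m = i
      · subst hmi
        simp only [Pi.add_apply, Pi.single_eq_same]; ring
      · simp only [Pi.add_apply, Pi.single_eq_of_ne hmi, add_zero]
    rw [e1]
    by_cases hjk : j = k
    · subst hjk
      rw [div_self hvk, mul_one, add_comm, col_add, col_single S hij, mul_smul]
    · rw [← mul_smul, x_col S (Ne.symm hki) hjk hij, mul_smul,
        pt_fix S J hJ ho p0 hp0 hk hvk hi hj hij hjk]
  · push Not at hex
    obtain ⟨k, hk⟩ := hv0
    have hki : k = i := by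
      by_contra h; exact hk (hex k h)
    subst hki
    have hvj : v j = 0 := hex j hij.symm
    rw [hvj, mul_zero, Pi.single_zero, add_zero, ptv_eq S J hJ ho p0 hp0 v hv hk]
    have e1 : (fun m => v m / v k) = (Pi.single k 1 : ι → K) := by
      funext m
      by_cases hm : m = k
      · subst hm; rw [div_self hk, Pi.single_eq_same]
      · rw [hex m hm, zero_div, Pi.single_eq_of_ne hm]
    rw [e1, col_single_self, one_smul, pt_fix S J hJ ho p0 hp0 hi hk hi hj hij hij.symm]

end

end Pool.Agent.Helper92.Ch
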