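import Mathlib

/-!
Number of points where two permutations differ.
-/

set_option autoImplicit false

universe u v w

namespace Pool.Agent.Helper92.Ch

section

variable {X : Type u} [Fintype X]

open Classical in
/-- The number of points where two permutations differ. -/
noncomputable def dc (σ τ : Equiv.Perm X) : ℕ := (Finset.univ.filter (fun x => σ x ≠ τ x)).card

lemma dc_congr {Y : Type v} [Fintype Y] {σ τ : Equiv.Perm X} {σ' τ' : Equiv.Perm Y} (e : X ≃ Y)
    (h : ∀ x, σ x ≠ τ x ↔ σ' (e x) ≠ τ' (e x)) : dc σ τ = dc σ' τ' := by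
  classical
  unfold dc
  apply Finset.card_bij (fun x _ => e x)
  · intro x hx
    rw [Finset.mem_filter] at hx ⊢
    exact ⟨Finset.mem_univ _, (h x).mp hx.2⟩
  · intro x _ y _ h; exact e.injective h
  · intro y hy
    rw [Finset.mem_filter] at hy
    refine ⟨e.symm y, ?_, by simp⟩
    rw [Finset.mem_filter]
    refine ⟨Finset.mem_univ _, (h _).mpr ?_⟩
    rw [e.apply_symm_apply]; exact hy.2

lemma dc_self (σ : Equiv.Perm X) : dc σ σ = 0 := by
  unfold dc; simp

lemma dc_comm (σ τ : Equiv.Perm X) : dc σ τ = dc τ σ := by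
  exact dc_congr (Equiv.refl X) (fun x => ne_comm)

lemma dc_triangle (σ τ ρ : Equiv.Perm X) : dc σ ρ ≤ dc σ τ + dc τ ρ := by
  classical
  unfold dc
  refine le_trans (Finset.card_le_card ?_) (Finset.card_union_le _ _)
  intro x hx
  simp only [Finset.mem_filter, Finset.mem_univ, true_and, Finset.mem_union] at hx ⊢
  by_contra hcon
  push Not at hcon
  exact hx (hcon.1.trans hcon.2)

lemma dc_mul_left (ρ σ τ : Equiv.Perm X) : dc (ρ * σ) (ρ * τ) = dc σ τ := by
  exact dc_congr (Equiv.refl X) (fun x => by simp)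

lemma dc_mul_right (ρ σ τ : Equiv.Perm X) : dc (σ * ρ) (τ * ρ) = dc σ τ :=
  dc_congr ρ (fun x => by simp)

lemma dc_mul (σ τ σ' τ' : Equiv.Perm X) : dc (σ * σ') (τ * τ') ≤ dc σ τ + dc σ' τ' := by
  have h := dc_triangle (σ * σ') (τ * σ') (τ * τ')
  rwa [dc_mul_right, dc_mul_left] at h

lemma dc_inv (σ τ : Equiv.Perm X) : dc σ⁻¹ τ⁻¹ = dc σ τ := by
  have h := dc_mul_left σ σ⁻¹ τ⁻¹
  have h2 := dc_mul_right τ (σ * σ⁻¹) (σ * τ⁻¹)
  rw [mul_inv_cancel, one_mul, inv_mul_cancel_right] at h2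
  rw [← h, mul_inv_cancel, ← h2, dc_comm]

lemma dc_eq_one (σ τ : Equiv.Perm X) : dc (σ * τ⁻¹) 1 = dc σ τ := by
  have h := dc_mul_right τ⁻¹ σ τ
  rwa [mul_inv_cancel] at h

lemma dc_conj (ρ σ τ : Equiv.Perm X) : dc (ρ * σ * ρ⁻¹) (ρ * τ * ρ⁻¹) = dc σ τ := by
  rw [dc_mul_right, dc_mul_left]

lemma dc_le_card (σ τ : Equiv.Perm X) : dc σ τ ≤ Fintype.card X := by
  unfold dc; exact Finset.card_le_univ _

lemma eq_of_dc {σ τ : Equiv.Perm X} (h : dc σ τ = 0) : σ = τ := by
  classical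
  unfold dc at h
  rw [Finset.card_eq_zero, Finset.filter_eq_empty_iff] at h
  ext x
  have := h (Finset.mem_univ x)
  push Not at this
  exact this

end

end Pool.Agent.Helper92.Ch
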