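import Mathlib

/-!
Cocycle Cheeger constants of finite presentations (dimension one, permutation coefficients) and
the Steinberg presentation of `SL_n(F_p)`.
-/

set_option autoImplicit false

namespace Pool.Agent.Helper92.Ch

/-- Normalized Hamming distance with errors of `σ ∈ Sym(m)` and `τ ∈ Sym(M)`: one minus the
number of common points on which they agree, divided by the larger degree. -/
noncomputable def hdist {m M : ℕ} (σ : Equiv.Perm (Fin m)) (τ : Equiv.Perm (Fin M)) : ℝ :=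
  1 - ((Finset.univ.filter (fun i : Fin m =>
    ∃ h : i.1 < M, (σ i : ℕ) = (τ ⟨i.1, h⟩ : ℕ))).card : ℝ) / (max m M : ℕ)

section presentation

variable {S R : Type} [Fintype S] [Fintype R]

/-- `‖δα‖` for a cochain `α` and the presentation with generators `S` and relators `rel r`,
`r ∈ R` (uniform measures). -/
noncomputable def defect (rel : R → FreeGroup S) {m : ℕ} (α : S → Equiv.Perm (Fin m)) : ℝ :=
  (∑ r : R, hdist (FreeGroup.lift α (rel r)) (1 : Equiv.Perm (Fin m))) / Fintype.card R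

/-- The distance of two cochains, possibly of different degrees. -/
noncomputable def cdist {m M : ℕ} (α : S → Equiv.Perm (Fin m)) (φ : S → Equiv.Perm (Fin M)) : ℝ :=
  (∑ s : S, hdist (α s) (φ s)) / Fintype.card S

/-- `φ` is a cocycle: it satisfies all relators. -/
def IsCocycle (rel : R → FreeGroup S) {M : ℕ} (φ : S → Equiv.Perm (Fin M)) : Prop :=
  ∀ r : R, FreeGroup.lift φ (rel r) = 1

/-- The distance of a cochain to the set of cocycles of all degrees `M ≥ 2`. -/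
noncomputable def distZ (rel : R → FreeGroup S) {m : ℕ} (α : S → Equiv.Perm (Fin m)) : ℝ :=
  sInf {x : ℝ | ∃ (M : ℕ) (φ : S → Equiv.Perm (Fin M)), 2 ≤ M ∧ IsCocycle rel φ ∧ x = cdist α φ}

/-- The cocycle Cheeger constant (dimension one, permutation coefficients). -/
noncomputable def cheeger (rel : R → FreeGroup S) : ℝ :=
  sInf {x : ℝ | ∃ (m : ℕ) (α : S → Equiv.Perm (Fin m)), 2 ≤ m ∧ defect rel α ≠ 0 ∧
    x = defect rel α / distZ rel α}

end presentation

/-- Ordered pairs of distinct indices. -/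
abbrev Pairs (n : ℕ) : Type := {q : Fin n × Fin n // q.1 ≠ q.2}

/-- Pairs of pairs `((i, j), (k, l))` with `i ≠ j`, `k ≠ l` and `i ≠ l`. -/
abbrev Quads (n : ℕ) : Type :=
  {q : (Fin n × Fin n) × (Fin n × Fin n) // q.1.1 ≠ q.1.2 ∧ q.2.1 ≠ q.2.2 ∧ q.1.1 ≠ q.2.2}

/-- The generators `U_{ij}(a)` of the Steinberg presentation. -/
abbrev Gens (n p : ℕ) : Type := Pairs n × ZMod p

/-- Index set of the relators of the Steinberg presentation. -/
abbrev Rels (n p : ℕ) : Type := (Pairs n × ZMod p × ZMod p) ⊕ (Quads n × ZMod p × ZMod p)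

/-- The generator `U_{ij}(a)` as an element of the free group. -/
def U {n p : ℕ} (q : Pairs n) (a : ZMod p) : FreeGroup (Gens n p) := FreeGroup.of (q, a)

/-- The relators of the Steinberg presentation: `U_{ij}(a) U_{ij}(b) U_{ij}(a+b)⁻¹`, and
`U_{ij}(a) U_{kl}(b) U_{ij}(a)⁻¹ U_{kl}(b)⁻¹ U_{il}(ab)⁻¹` if `j = k`,
`U_{ij}(a) U_{kl}(b) U_{ij}(a)⁻¹ U_{kl}(b)⁻¹` if `j ≠ k`. -/
def steinberg (n p : ℕ) : Rels n p → FreeGroup (Gens n p)
  | Sum.inl (q, a, b) => U q a * U q b * (U q (a + b))⁻¹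
  | Sum.inr (q, a, b) =>
    if q.1.1.2 = q.1.2.1 then
      U ⟨q.1.1, q.2.1⟩ a * U ⟨q.1.2, q.2.2.1⟩ b * (U ⟨q.1.1, q.2.1⟩ a)⁻¹ *
        (U ⟨q.1.2, q.2.2.1⟩ b)⁻¹ * (U ⟨(q.1.1.1, q.1.2.2), q.2.2.2⟩ (a * b))⁻¹
    else
      U ⟨q.1.1, q.2.1⟩ a * U ⟨q.1.2, q.2.2.1⟩ b * (U ⟨q.1.1, q.2.1⟩ a)⁻¹ *
        (U ⟨q.1.2, q.2.2.1⟩ b)⁻¹

end Pool.Agent.Helper92.Ch
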