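import Pool.Agent.Helper92.Ch.Quot
import Pool.Agent.Helper92.Ch.Defs

/-!
Extending permutations along embeddings, and the Hamming distance with errors.
-/

set_option autoImplicit false
set_option linter.unusedSectionVars false

namespace Pool.Agent.Helper92.Ch

open Equiv.Perm

/-- Extending the standard embedding. -/
lemma exists_embed {m M : ℕ} (hmM : m ≤ M) {Y : Type} [Fintype Y] (j : Fin m ↪ Y)
    (hY : Fintype.card Y ≤ M) : ∃ i : Y ↪ Fin M, ∀ x, i (j x) = Fin.castLE hmM x := by
  classical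
  set f : Y → Fin M := fun y => if h : ∃ x, j x = y then Fin.castLE hmM h.choose else
    ⟨0, by
      have : 0 < Fintype.card Y := Fintype.card_pos_iff.mpr ⟨y⟩
      omega⟩ with hf
  have hfj : ∀ x, f (j x) = Fin.castLE hmM x := by
    intro x
    have h : ∃ x', j x' = j x := ⟨x, rfl⟩
    simp only [hf]
    rw [dif_pos h]
    congr 1
    exact j.injective h.choose_spec
  set s : Finset Y := Finset.univ.map j with hs
  have hcard : (s.image f).card ≤ Fintype.card Y := le_trans Finset.card_image_le (Finset.card_le_univ s)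
  obtain ⟨t, ht1, ht2⟩ := Finset.exists_superset_card_eq hcard (by rwa [Fintype.card_fin])
  obtain ⟨g, hg⟩ := Finset.exists_equiv_extend_of_card_eq (α := Y) (t := t) ht2.symm
    (s := s) (f := f) ht1 (by
      intro y hy y' hy' h
      rw [hs, Finset.mem_coe, Finset.mem_map] at hy hy'
      obtain ⟨x, _, rfl⟩ := hy
      obtain ⟨x', _, rfl⟩ := hy'
      rw [hfj, hfj] at h
      rw [Fin.castLE_injective hmM h])
  refine ⟨⟨fun y => (g y : Fin M), fun y y' h => g.injective (Subtype.ext h)⟩, fun x => ?_⟩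
  show (g (j x) : Fin M) = _
  rw [hg (j x) (by rw [hs]; exact Finset.mem_map_of_mem j (Finset.mem_univ x)), hfj]

section

variable {X Y Z : Type} [Fintype X] [Fintype Y] [Fintype Z]

lemma dc_via_le (c : X ↪ Z) (σ τ : Equiv.Perm X) :
    dc (viaEmbeddingHom c σ) (viaEmbeddingHom c τ) ≤ dc σ τ := by
  classical
  unfold dc
  have : (Finset.univ.filter (fun z : Z => viaEmbeddingHom c σ z ≠ viaEmbeddingHom c τ z)) ⊆
      (Finset.univ.filter (fun x : X => σ x ≠ τ x)).map c := by
    intro z hz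
    rw [Finset.mem_filter] at hz
    rw [Finset.mem_map]
    by_cases h : z ∈ Set.range c
    · obtain ⟨x, rfl⟩ := h
      refine ⟨x, Finset.mem_filter.mpr ⟨Finset.mem_univ _, fun h => hz.2 ?_⟩, rfl⟩
      rw [viaEmbeddingHom_apply, viaEmbeddingHom_apply, viaEmbedding_apply, viaEmbedding_apply, h]
    · exfalso
      apply hz.2
      rw [viaEmbeddingHom_apply, viaEmbeddingHom_apply, viaEmbedding_apply_of_notMem _ _ _ h,
        viaEmbedding_apply_of_notMem _ _ _ h]
  refine le_trans (Finset.card_le_card this) ?_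
  rw [Finset.card_map]

lemma dc_via (i : Y ↪ Z) (j : X ↪ Y) (c : X ↪ Z) (hc : ∀ x, i (j x) = c x) (τ : Equiv.Perm Y)
    (σ : Equiv.Perm X) : dc (viaEmbeddingHom i τ) (viaEmbeddingHom c σ) + Fintype.card X ≤
      ec j τ σ + Fintype.card Z := by
  classical
  have h1 : dc (viaEmbeddingHom i τ) (viaEmbeddingHom c σ) ≤ ec j τ σ +
      (Finset.univ.filter (fun z : Z => z ∉ Set.range c)).card := by
    unfold dc ec
    have : (Finset.univ.filter (fun z : Z => viaEmbeddingHom i τ z ≠ viaEmbeddingHom c σ z)) ⊆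
        ((Finset.univ.filter (fun x : X => τ (j x) ≠ j (σ x))).map c) ∪
        (Finset.univ.filter (fun z : Z => z ∉ Set.range c)) := by
      intro z hz
      rw [Finset.mem_filter] at hz
      rw [Finset.mem_union, Finset.mem_filter, Finset.mem_map]
      by_cases h : z ∈ Set.range c
      · left
        obtain ⟨x, rfl⟩ := h
        refine ⟨x, Finset.mem_filter.mpr ⟨Finset.mem_univ _, fun h => hz.2 ?_⟩, rfl⟩
        rw [viaEmbeddingHom_apply, viaEmbeddingHom_apply, viaEmbedding_apply, ← hc,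
          viaEmbedding_apply, h, hc]
      · right; exact ⟨Finset.mem_univ _, h⟩
    refine le_trans (Finset.card_le_card this) (le_trans (Finset.card_union_le _ _) ?_)
    rw [Finset.card_map]
  have h2 : (Finset.univ.filter (fun z : Z => z ∉ Set.range c)).card + Fintype.card X =
      Fintype.card Z := by
    have e1 : Fintype.card X = (Finset.univ.filter (fun z : Z => z ∈ Set.range c)).card := by
      rw [← Finset.card_univ, ← Finset.card_map c]
      congr 1
      ext y
      simp
    rw [e1, add_comm, Finset.card_filter_add_card_filter_not, Finset.card_univ]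
  omega

lemma ec_via (i : Y ↪ Z) (j : X ↪ Y) (c : X ↪ Z) (hc : ∀ x, i (j x) = c x) (τ : Equiv.Perm Y)
    (σ : Equiv.Perm X) : ec c (viaEmbeddingHom i τ) σ ≤ ec j τ σ := by
  classical
  unfold ec
  apply Finset.card_le_card
  intro x hx
  rw [Finset.mem_filter] at hx ⊢
  refine ⟨Finset.mem_univ _, fun h => hx.2 ?_⟩
  rw [viaEmbeddingHom_apply, ← hc, viaEmbedding_apply, h, hc]

lemma ec_le_dc (c : X ↪ Y) (τ : Equiv.Perm Y) (σ : Equiv.Perm X) :
    ec c τ σ ≤ dc τ (viaEmbeddingHom c σ) := by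
  classical
  unfold ec dc
  apply Finset.card_le_card_of_injOn c
  · intro x hx
    rw [Finset.mem_coe, Finset.mem_filter] at hx ⊢
    refine ⟨Finset.mem_univ _, ?_⟩
    rw [viaEmbeddingHom_apply, viaEmbedding_apply]
    exact hx.2
  · exact c.injective.injOn

lemma ec_comp (j : X ↪ Y) (i : Y ↪ Z) (ρ : Equiv.Perm Z) (τ : Equiv.Perm Y) (σ : Equiv.Perm X) :
    ec (j.trans i) ρ σ ≤ ec i ρ τ + ec j τ σ := by
  classical
  have h1 : (Finset.univ.filter (fun x : X => ρ (i (j x)) ≠ i (τ (j x)))).card ≤ ec i ρ τ := by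
    unfold ec
    apply Finset.card_le_card_of_injOn j
    · intro x hx
      rw [Finset.mem_coe, Finset.mem_filter] at hx ⊢
      exact ⟨Finset.mem_univ _, hx.2⟩
    · exact j.injective.injOn
  refine le_trans ?_ (Nat.add_le_add_right h1 _)
  unfold ec
  refine le_trans (Finset.card_le_card ?_) (Finset.card_union_le _ _)
  intro x hx
  rw [Finset.mem_filter] at hx
  rw [Finset.mem_union, Finset.mem_filter, Finset.mem_filter]
  by_contra hcon
  push Not at hcon
  have h2 := hcon.1 (Finset.mem_univ _)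
  have h3 := hcon.2 (Finset.mem_univ _)
  exact hx.2 (by
    show ρ (i (j x)) = i (j (σ x))
    rw [h2, h3])

end

/-- The standard embedding. -/
def cE {m M : ℕ} (h : m ≤ M) : Fin m ↪ Fin M := Fin.castLEEmb h

lemma hdist_eq {m M : ℕ} (h : m ≤ M) (hM : 0 < M) (σ : Equiv.Perm (Fin m))
    (τ : Equiv.Perm (Fin M)) : (M : ℝ) * hdist σ τ = ((M : ℝ) - m) + ec (cE h) τ σ := by
  classical
  have e1 : (Finset.univ.filter (fun i : Fin m =>
      ∃ h : i.1 < M, (σ i : ℕ) = (τ ⟨i.1, h⟩ : ℕ))).card + ec (cE h) τ σ = m := by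
    unfold ec
    have : ∀ i : Fin m, (∃ h : i.1 < M, (σ i : ℕ) = (τ ⟨i.1, h⟩ : ℕ)) ↔
        ¬ (τ (cE h i) ≠ cE h (σ i)) := by
      intro i
      rw [not_not]
      constructor
      · rintro ⟨h', h2⟩
        exact Fin.ext h2.symm
      · intro h2
        exact ⟨lt_of_lt_of_le i.2 h, (congrArg Fin.val h2).symm⟩
    simp only [this]
    rw [add_comm, Finset.card_filter_add_card_filter_not, Finset.card_univ, Fintype.card_fin]
  unfold hdist
  rw [max_eq_right h]
  have hM' : (M : ℝ) ≠ 0 := by positivity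
  have e2 : ((Finset.univ.filter (fun i : Fin m =>
      ∃ h : i.1 < M, (σ i : ℕ) = (τ ⟨i.1, h⟩ : ℕ))).card : ℝ) + ec (cE h) τ σ = m := by
    exact_mod_cast e1
  field_simp
  linarith

lemma ec_self {X : Type} [Fintype X] (j : X ↪ X) (hj : ∀ x, j x = x) (τ σ : Equiv.Perm X) :
    ec j τ σ = dc σ τ := by
  classical
  unfold ec dc
  refine congrArg Finset.card (Finset.filter_congr fun x _ => ?_)
  rw [hj, hj, ne_comm]

lemma hdist_same {m : ℕ} (hm : 0 < m) (σ τ : Equiv.Perm (Fin m)) :
    (m : ℝ) * hdist σ τ = dc σ τ := by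
  rw [hdist_eq le_rfl hm, sub_self, zero_add, ec_self _ (fun x => rfl)]

end Pool.Agent.Helper92.Ch
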