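import Pool.Agent.Helper92.Ch.Round

/-!
Uniform lower bound for the cocycle Cheeger constants of the Steinberg presentations.
-/

set_option autoImplicit false
set_option linter.unusedSectionVars false

namespace Pool.Agent.Helper92.Ch

open Equiv.Perm Matrix

lemma dA_le {n p : ℕ} [hp : Fact p.Prime] {m : ℕ} (hm : 0 < m) (hcn : 0 < cn n)
    (α : Gens n p → Equiv.Perm (Fin m)) (q : Pairs n) :
    ∑ a, ∑ b, dA α q a b ≤ ((m : ℝ) * cn n * defect (steinberg n p) α) * (p : ℝ) ^ 2 := by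
  rw [← sum_defect α hm hcn]
  have h1 : ∑ a, ∑ b, dA α q a b ≤ ∑ q, ∑ a, ∑ b, dA α q a b :=
    Finset.single_le_sum (f := fun q => ∑ a, ∑ b, dA α q a b)
      (fun q _ => Finset.sum_nonneg fun a _ => Finset.sum_nonneg fun b _ => dA_nonneg α q a b)
      (Finset.mem_univ q)
  have h2 : 0 ≤ ∑ Q, ∑ a, ∑ b, dB α Q a b :=
    Finset.sum_nonneg fun Q _ => Finset.sum_nonneg fun a _ => Finset.sum_nonneg fun b _ =>
      dB_nonneg α Q a b
  linarith

lemma dB_le {n p : ℕ} [hp : Fact p.Prime] {m : ℕ} (hm : 0 < m) (hcn : 0 < cn n)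
    (α : Gens n p → Equiv.Perm (Fin m)) (Q : Quads n) :
    ∑ a, ∑ b, dB α Q a b ≤ ((m : ℝ) * cn n * defect (steinberg n p) α) * (p : ℝ) ^ 2 := by
  rw [← sum_defect α hm hcn]
  have h1 : ∑ a, ∑ b, dB α Q a b ≤ ∑ q, ∑ a, ∑ b, dB α q a b :=
    Finset.single_le_sum (f := fun q => ∑ a, ∑ b, dB α q a b)
      (fun q _ => Finset.sum_nonneg fun a _ => Finset.sum_nonneg fun b _ => dB_nonneg α q a b)
      (Finset.mem_univ Q)
  have h2 : 0 ≤ ∑ Q, ∑ a, ∑ b, dA α Q a b :=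
    Finset.sum_nonneg fun Q _ => Finset.sum_nonneg fun a _ => Finset.sum_nonneg fun b _ =>
      dA_nonneg α Q a b
  linarith

lemma avg_bound {p : ℕ} [hp : Fact p.Prime] (F : ZMod p → ZMod p → ℝ) (κ E : ℝ)
    (h : ∀ a a' b b', F (a + a') (b + b') ≤ F a b + F a b' + F a' b + F a' b' + κ)
    (h' : ∑ a, ∑ b, F a b ≤ E * (p : ℝ) ^ 2) (a b : ZMod p) : F a b ≤ 4 * E + κ := by
  have hp0 : (0 : ℝ) < p := by exact_mod_cast hp.out.pos
  have h1 := average F κ h a b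
  rw [ZMod.card] at h1
  have hp2 : (0 : ℝ) < (p : ℝ) ^ 2 := by positivity
  have h2 : (p : ℝ) ^ 2 * F a b ≤ (p : ℝ) ^ 2 * (4 * E + κ) := by nlinarith
  exact le_of_mul_le_mul_left h2 hp2

theorem exists_datum {n p : ℕ} [hp : Fact p.Prime] {m : ℕ} (hm : 0 < m) (hcn : 0 < cn n)
    (α : Gens n p → Equiv.Perm (Fin m)) (D : ℝ)
    (hDd : (m : ℝ) * cn n * defect (steinberg n p) α = D) (hD : 0 ≤ D)
    {M : ℕ} (hmM : m ≤ M) (hM : M = m + ⌊6 * D⌋₊) :
    ∃ φ : Fin n → Fin n → ZMod p → Equiv.Perm (Fin M),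
      (∀ i j, i ≠ j → ∀ a b, φ i j (a + b) = φ i j a * φ i j b) ∧
      (∀ i j i' j', i ≠ j → i' ≠ j' → j ≠ i' → i ≠ j' → ∀ a b,
        (dc (φ i j a * φ i' j' b) (φ i' j' b * φ i j a) : ℝ) ≤ 3616 * D) ∧
      (∀ i j l, i ≠ j → j ≠ l → i ≠ l → ∀ a b,
        (dc (φ i j a * φ j l b) (φ i l (a * b) * φ j l b * φ i j a) : ℝ) ≤ 3616 * D) ∧
      (∀ i j (h : i ≠ j), ∑ a, (dc (φ i j a)
        (viaEmbeddingHom (cE hmM) (α (⟨(i, j), h⟩, a))) : ℝ) ≤ 50 * D * p) := by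
  classical
  have hp0 : (0 : ℝ) < p := by exact_mod_cast hp.out.pos
  have hq : ∀ q : Pairs n, ∃ ψ : ZMod p → Equiv.Perm (Fin M), (∀ a b, ψ (a + b) = ψ a * ψ b) ∧
      ∑ a, (dc (ψ a) (viaEmbeddingHom (cE hmM) (α (q, a))) : ℝ) ≤ 50 * D * p := by
    intro q
    refine round_one (fun a => α (q, a)) D hD ?_ hmM hM
    have := dA_le hm hcn α q
    rw [hDd] at this
    exact this
  choose ψ hψ1 hψ2 using hq
  -- commuting relations
  have hc : ∀ q q' : Pairs n, q.1.2 ≠ q'.1.1 → q.1.1 ≠ q'.1.2 → ∀ a b,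
      (dc (ψ q a * ψ q' b) (ψ q' b * ψ q a) : ℝ) ≤ 804 * D := by
    intro q q' h1 h2 a b
    have hs := comm_sum (cE hmM) (ψ q) (ψ q') (fun a => α (q, a)) (fun a => α (q', a))
      (50 * D * p) (D * (p : ℝ) ^ 2) (hψ2 q) (hψ2 q') (by
        have h3 := dB_le hm hcn α ⟨(q.1, q'.1), q.2, q'.2, h2⟩
        rw [hDd] at h3
        unfold dB at h3
        simp only [if_neg h1] at h3
        exact h3)
    have h4 := avg_bound (fun a b => (dc (ψ q a * ψ q' b) (ψ q' b * ψ q a) : ℝ)) 0 (201 * D)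
      (fun a a' b b' => comm_add (ψ q) (ψ q') (hψ1 q) (hψ1 q') a a' b b')
      (le_trans hs (le_of_eq (by ring))) a b
    linarith
  -- the other relations
  have hc' : ∀ (i j l : Fin n) (hij : i ≠ j) (hjl : j ≠ l) (hil : i ≠ l), ∀ a b,
      (dc (ψ ⟨(i, j), hij⟩ a * ψ ⟨(j, l), hjl⟩ b)
        (ψ ⟨(i, l), hil⟩ (a * b) * ψ ⟨(j, l), hjl⟩ b * ψ ⟨(i, j), hij⟩ a) : ℝ) ≤ 3616 * D := by
    intro i j l hij hjl hil a b
    have hs := comm'_sum (cE hmM) (ψ ⟨(i, j), hij⟩) (ψ ⟨(j, l), hjl⟩) (ψ ⟨(i, l), hil⟩)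
      (fun a => α (⟨(i, j), hij⟩, a)) (fun a => α (⟨(j, l), hjl⟩, a))
      (fun a => α (⟨(i, l), hil⟩, a))
      (50 * D * p) (D * (p : ℝ) ^ 2) (hψ2 _) (hψ2 _) (hψ2 _) (by
        have h3 := dB_le hm hcn α ⟨((i, j), (j, l)), hij, hjl, hil⟩
        rw [hDd] at h3
        unfold dB at h3
        simp only [if_true] at h3
        exact h3)
    have hfl : (⌊804 * D⌋₊ : ℝ) ≤ 804 * D := Nat.floor_le (by positivity)
    have h4 := avg_bound (fun a b => (dc (ψ ⟨(i, j), hij⟩ a * ψ ⟨(j, l), hjl⟩ b)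
        (ψ ⟨(i, l), hil⟩ (a * b) * ψ ⟨(j, l), hjl⟩ b * ψ ⟨(i, j), hij⟩ a) : ℝ))
      ((3 * ⌊804 * D⌋₊ : ℕ) : ℝ) (301 * D)
      (fun a a' b b' => comm'_add (ψ ⟨(i, j), hij⟩) (ψ ⟨(j, l), hjl⟩) (ψ ⟨(i, l), hil⟩)
        (hψ1 _) (hψ1 _) (hψ1 _) ⌊804 * D⌋₊
        (fun a b => Nat.le_floor (hc ⟨(i, j), hij⟩ ⟨(i, l), hil⟩ hij.symm hil a b))
        (fun a b => Nat.le_floor (hc ⟨(j, l), hjl⟩ ⟨(i, l), hil⟩ hil.symm hjl a b)) a a' b b')
      (le_trans hs (le_of_eq (by ring))) a b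
    push_cast at h4
    linarith
  refine ⟨fun i j a => if h : i ≠ j then ψ ⟨(i, j), h⟩ a else 1, ?_, ?_, ?_, ?_⟩
  · intro i j h a b
    simp only [dif_pos h]
    exact hψ1 _ a b
  · intro i j i' j' h1 h2 h3 h4 a b
    simp only [dif_pos h1, dif_pos h2]
    have := hc ⟨(i, j), h1⟩ ⟨(i', j'), h2⟩ h3 h4 a b
    linarith
  · intro i j l h1 h2 h3 a b
    simp only [dif_pos h1, dif_pos h2, dif_pos h3]
    exact hc' i j l h1 h2 h3 a b
  · intro i j h
    simp only [dif_pos h]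
    exact hψ2 _

section nonneg

lemma hdist_nonneg {m M : ℕ} (σ : Equiv.Perm (Fin m)) (τ : Equiv.Perm (Fin M)) :
    0 ≤ hdist σ τ := by
  unfold hdist
  rw [sub_nonneg]
  apply div_le_one_of_le₀
  · have h1 : (Finset.univ.filter (fun i : Fin m =>
      ∃ h : i.1 < M, (σ i : ℕ) = (τ ⟨i.1, h⟩ : ℕ))).card ≤ m := by
      refine le_trans (Finset.card_le_univ _) ?_
      rw [Fintype.card_fin]
    exact_mod_cast le_trans h1 (le_max_left m M)
  · positivity

variable {S R : Type} [Fintype S] [Fintype R]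

lemma defect_nonneg (rel : R → FreeGroup S) {m : ℕ} (α : S → Equiv.Perm (Fin m)) :
    0 ≤ defect rel α := by
  unfold defect
  exact div_nonneg (Finset.sum_nonneg fun r _ => hdist_nonneg _ _) (Nat.cast_nonneg _)

lemma cdist_nonneg {m M : ℕ} (α : S → Equiv.Perm (Fin m)) (φ : S → Equiv.Perm (Fin M)) :
    0 ≤ cdist α φ := by
  unfold cdist
  exact div_nonneg (Finset.sum_nonneg fun r _ => hdist_nonneg _ _) (Nat.cast_nonneg _)

lemma distZ_le (rel : R → FreeGroup S) {m M : ℕ} (α : S → Equiv.Perm (Fin m))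
    (φ : S → Equiv.Perm (Fin M)) (hM : 2 ≤ M) (hφ : IsCocycle rel φ) :
    distZ rel α ≤ cdist α φ := by
  unfold distZ
  apply csInf_le
  · refine ⟨0, ?_⟩
    rintro x ⟨M', φ', _, _, rfl⟩
    exact cdist_nonneg _ _
  · exact ⟨M, φ, hM, hφ, rfl⟩

end nonneg

/-- Homomorphisms give cocycles. -/
lemma isCocycle_of_hom {n p : ℕ} [hp : Fact p.Prime] {M : ℕ}
    (Ψ : SpecialLinearGroup (Fin n) (ZMod p) →* Equiv.Perm (Fin M)) :
    IsCocycle (steinberg n p) (fun s => Ψ (El s.1.1.1 s.1.1.2 s.2)) := by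
  have h0 : ∀ w : FreeGroup (Gens n p), FreeGroup.lift (fun s : Gens n p => Ψ (El s.1.1.1 s.1.1.2 s.2)) w =
      Ψ (FreeGroup.lift (fun s : Gens n p => El s.1.1.1 s.1.1.2 s.2) w) := by
    intro w
    have : FreeGroup.lift (fun s : Gens n p => Ψ (El s.1.1.1 s.1.1.2 s.2)) =
        Ψ.comp (FreeGroup.lift (fun s : Gens n p => El s.1.1.1 s.1.1.2 s.2)) := by
      ext s
      simp
    rw [this]; rfl
  intro r
  rw [h0]
  suffices h : FreeGroup.lift (fun s : Gens n p => El (K := ZMod p) s.1.1.1 s.1.1.2 s.2)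
      (steinberg n p r) = 1 by rw [h, map_one]
  rcases r with ⟨⟨⟨i, j⟩, hij⟩, a, b⟩ | ⟨⟨⟨⟨i, j⟩, ⟨k, l⟩⟩, h1, h2, h3⟩, a, b⟩
  · simp only [steinberg, U, map_mul, map_inv, FreeGroup.lift_apply_of]
    rw [mul_inv_eq_one]
    exact ((MS (Fin n) (ZMod p)).add hij a b).symm
  · by_cases h : j = k
    · subst h
      simp only [steinberg, U, if_true, map_mul, map_inv, FreeGroup.lift_apply_of]
      have := (MS (Fin n) (ZMod p)).comm' h1 h2 h3 a b
      have h4 : El i j a * El j l b = El i l (a * b) * El j l b * El i j a := this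
      rw [h4]; group
    · simp only [steinberg, U, if_neg h, map_mul, map_inv, FreeGroup.lift_apply_of]
      have := (MS (Fin n) (ZMod p)).comm h1 h2 h h3 a b
      have h4 : El i j a * El k l b = El k l b * El i j a := this
      rw [h4]; group

/-- The linear stability estimate, uniform in the prime and in the degree. -/
theorem main_bound {n : ℕ} (hn : 3 ≤ n) : ∃ C : ℝ, 0 ≤ C ∧
    ∀ (p : ℕ) [Fact p.Prime] (m : ℕ) (α : Gens n p → Equiv.Perm (Fin m)), 2 ≤ m →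
      distZ (steinberg n p) α ≤ C * defect (steinberg n p) α := by
  classical
  have hn' : ∀ i j : Fin n, ∃ k, k ≠ i ∧ k ≠ j := by
    intro i j
    by_contra hcon
    push Not at hcon
    have h1 : (Finset.univ : Finset (Fin n)) ⊆ {i, j} := by
      intro k _
      rw [Finset.mem_insert, Finset.mem_singleton]
      by_cases hk : k = i
      · exact Or.inl hk
      · exact Or.inr (hcon k hk)
    have h2 := Finset.card_le_card h1
    rw [Finset.card_univ, Fintype.card_fin] at h2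
    have h3 := Finset.card_le_two (a := i) (b := j)
    omega
  have hpair : 0 < Fintype.card (Pairs n) := by
    rw [Fintype.card_pos_iff]
    exact ⟨⟨(⟨0, by omega⟩, ⟨1, by omega⟩), by simp⟩⟩
  have hcn : 0 < cn n := by unfold cn; omega
  obtain ⟨C, hC, hB⟩ := thmB hn'
  refine ⟨(56 + 7232 * C) * cn n, by positivity, ?_⟩
  intro p hp m α hm
  have hp0 : (0 : ℝ) < p := by exact_mod_cast hp.out.pos
  have hm0 : 0 < m := by omega
  obtain ⟨D, hDd⟩ : ∃ D : ℝ, (m : ℝ) * cn n * defect (steinberg n p) α = D := ⟨_, rfl⟩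
  have hD : 0 ≤ D := by
    rw [← hDd]
    have := defect_nonneg (steinberg n p) α
    positivity
  obtain ⟨M, hM⟩ : ∃ M : ℕ, M = m + ⌊6 * D⌋₊ := ⟨_, rfl⟩
  have hmM : m ≤ M := by omega
  obtain ⟨φ, hadd, hcomm, hcomm', herr⟩ := exists_datum hm0 hcn α D hDd hD hmM hM
  have hMr : (M : ℝ) ≤ m + 6 * D := by
    rw [hM]; push_cast
    have := Nat.floor_le (show 0 ≤ 6 * D by positivity)
    linarith
  obtain ⟨Y, hY, j, Φ, h1, h2⟩ := hB
    { p := p, hp := hp, X := Fin M, hX := inferInstance, e := 3616 * D, he := by positivity,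
      φ := φ, hadd := hadd, hcomm := hcomm, hcomm' := hcomm' }
  simp only at j Φ h1 h2
  have hMY : M ≤ Fintype.card Y := by
    have := Fintype.card_le_of_embedding j
    rwa [Fintype.card_fin] at this
  rw [Fintype.card_fin] at h1
  obtain ⟨M2, hM2⟩ : ∃ M2 : ℕ, M2 = Fintype.card Y := ⟨_, rfl⟩
  rw [← hM2] at hMY h1
  obtain ⟨i2, hi2⟩ := exists_embed hMY j (le_of_eq hM2.symm)
  set Ψ : SpecialLinearGroup (Fin n) (ZMod p) →* Equiv.Perm (Fin M2) :=
    (viaEmbeddingHom i2).comp Φ with hΨ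
  have hmM2 : m ≤ M2 := hmM.trans hMY
  have hM20 : 0 < M2 := by omega
  refine le_trans (distZ_le _ α _ (by omega) (isCocycle_of_hom Ψ)) ?_
  -- pointwise bound
  have hpt : ∀ (q : Pairs n) (a : ZMod p), (M2 : ℝ) * hdist (α (q, a)) (Ψ (El q.1.1 q.1.2 a)) ≤
      6 * D + 7232 * C * D + dc (φ q.1.1 q.1.2 a) (viaEmbeddingHom (cE hmM) (α (q, a))) := by
    intro q a
    rw [hdist_eq hmM2 hM20]
    have e1 : ec (cE hmM2) (Ψ (El q.1.1 q.1.2 a)) (α (q, a)) ≤
        ec (cE hMY) (Ψ (El q.1.1 q.1.2 a)) (φ q.1.1 q.1.2 a) +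
        ec (cE hmM) (φ q.1.1 q.1.2 a) (α (q, a)) :=
      ec_comp (cE hmM) (cE hMY) _ _ _
    have e2 : ec (cE hMY) (Ψ (El q.1.1 q.1.2 a)) (φ q.1.1 q.1.2 a) ≤
        ec j (Φ (El q.1.1 q.1.2 a)) (φ q.1.1 q.1.2 a) :=
      ec_via i2 j (cE hMY) hi2 _ _
    have e3 := ec_le_dc (cE hmM) (φ q.1.1 q.1.2 a) (α (q, a))
    have e4 := h2 q.1.1 q.1.2 q.2 a
    have e5 : (ec (cE hmM2) (Ψ (El q.1.1 q.1.2 a)) (α (q, a)) : ℝ) ≤
        ec j (Φ (El q.1.1 q.1.2 a)) (φ q.1.1 q.1.2 a) +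
        dc (φ q.1.1 q.1.2 a) (viaEmbeddingHom (cE hmM) (α (q, a))) := by
      exact_mod_cast (e1.trans (Nat.add_le_add e2 e3))
    linarith
  -- summation
  have hsum : (M2 : ℝ) * ∑ s : Gens n p, hdist (α s) (Ψ (El s.1.1.1 s.1.1.2 s.2)) ≤
      Fintype.card (Pairs n) * p * (56 * D + 7232 * C * D) := by
    rw [Finset.mul_sum, Fintype.sum_prod_type]
    calc ∑ q : Pairs n, ∑ a : ZMod p, (M2 : ℝ) * hdist (α (q, a)) (Ψ (El q.1.1 q.1.2 a))
        ≤ ∑ q : Pairs n, ∑ a : ZMod p, (6 * D + 7232 * C * D +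
          (dc (φ q.1.1 q.1.2 a) (viaEmbeddingHom (cE hmM) (α (q, a))) : ℝ)) :=
          Finset.sum_le_sum fun q _ => Finset.sum_le_sum fun a _ => hpt q a
      _ = ∑ q : Pairs n, (p * (6 * D + 7232 * C * D) + ∑ a : ZMod p,
          (dc (φ q.1.1 q.1.2 a) (viaEmbeddingHom (cE hmM) (α (q, a))) : ℝ)) := by
          refine Finset.sum_congr rfl fun q _ => ?_
          rw [Finset.sum_add_distrib, Finset.sum_const, Finset.card_univ, ZMod.card, nsmul_eq_mul]
      _ ≤ ∑ _q : Pairs n, (p * (6 * D + 7232 * C * D) + 50 * D * p) :=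
          Finset.sum_le_sum fun q _ => by
            have := herr q.1.1 q.1.2 q.2
            gcongr
      _ = _ := by
          rw [Finset.sum_const, Finset.card_univ, nsmul_eq_mul]; ring
  have hcardG : (Fintype.card (Gens n p) : ℝ) = Fintype.card (Pairs n) * p := by
    rw [Fintype.card_prod, ZMod.card]; push_cast; ring
  have hmr : (0 : ℝ) < m := by exact_mod_cast hm0
  have hM2r : (0 : ℝ) < M2 := by exact_mod_cast hM20
  have hpr : (0 : ℝ) < Fintype.card (Pairs n) := by exact_mod_cast hpair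
  have hmM2r : (m : ℝ) ≤ M2 := by exact_mod_cast hmM2
  have hfin : (M2 : ℝ) * cdist α (fun s => Ψ (El s.1.1.1 s.1.1.2 s.2)) ≤
      56 * D + 7232 * C * D := by
    unfold cdist
    rw [hcardG, ← mul_div_assoc, div_le_iff₀ (by positivity)]
    linarith
  have h5 := cdist_nonneg α (fun s => Ψ (El s.1.1.1 s.1.1.2 s.2))
  have h6 : (m : ℝ) * cdist α (fun s => Ψ (El s.1.1.1 s.1.1.2 s.2)) ≤
      (m : ℝ) * ((56 + 7232 * C) * cn n * defect (steinberg n p) α) := by
    calc _ ≤ (M2 : ℝ) * cdist α (fun s => Ψ (El s.1.1.1 s.1.1.2 s.2)) := by gcongr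
      _ ≤ 56 * D + 7232 * C * D := hfin
      _ = _ := by rw [← hDd]; ring
  exact le_of_mul_le_mul_left h6 hmr

section positivity

/-- Very close permutations coincide. -/
lemma hdist_small {m M : ℕ} (hm : 0 < m) (σ : Equiv.Perm (Fin m)) (τ : Equiv.Perm (Fin M))
    (h : hdist σ τ < 1 / (m + 1)) : M = m ∧ ∀ i : Fin m, ∃ h : i.1 < M,
      (σ i : ℕ) = (τ ⟨i.1, h⟩ : ℕ) := by
  classical
  have hmr : (0 : ℝ) < m := by exact_mod_cast hm
  set N := (Finset.univ.filter (fun i : Fin m =>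
    ∃ h : i.1 < M, (σ i : ℕ) = (τ ⟨i.1, h⟩ : ℕ))).card with hN
  have hNm : N ≤ m := by
    refine le_trans (Finset.card_le_univ _) ?_
    rw [Fintype.card_fin]
  have hNM : N ≤ M := by
    have : N ≤ (Finset.range M).card := by
      rw [hN]
      apply Finset.card_le_card_of_injOn (fun i : Fin m => i.1)
      · intro i hi
        rw [Finset.mem_coe, Finset.mem_filter] at hi
        obtain ⟨_, h, _⟩ := hi
        simpa using h
      · intro i _ i' _ h; exact Fin.ext h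
    rwa [Finset.card_range] at this
  have hmax : 0 < max m M := lt_of_lt_of_le hm (le_max_left _ _)
  have hmaxr : (0 : ℝ) < (max m M : ℕ) := by exact_mod_cast hmax
  have h1 : (m : ℝ) * (max m M : ℕ) < N * (m + 1) := by
    have h2 : hdist σ τ = 1 - (N : ℝ) / (max m M : ℕ) := rfl
    rw [h2] at h
    have h3 : 1 - (1 : ℝ) / (m + 1) < N / (max m M : ℕ) := by linarith
    have h4 : 1 - (1 : ℝ) / (m + 1) = m / (m + 1) := by field_simp; ring
    rw [h4, div_lt_div_iff₀ (by positivity) hmaxr] at h3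
    exact h3
  have h1' : m * max m M < N * (m + 1) := by exact_mod_cast h1
  have hMm : M = m := by
    rcases lt_trichotomy M m with h2 | h2 | h2
    · exfalso
      rw [max_eq_left h2.le] at h1'
      have h3 : N + 1 ≤ m := by omega
      nlinarith
    · exact h2
    · exfalso
      rw [max_eq_right h2.le] at h1'
      nlinarith
  refine ⟨hMm, ?_⟩
  rw [hMm, max_self] at h1'
  have hNeq : N = m := by
    by_contra hne
    have h3 : N + 1 ≤ m := by omega
    nlinarith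
  have h5 : (Finset.univ.filter (fun i : Fin m =>
    ∃ h : i.1 < M, (σ i : ℕ) = (τ ⟨i.1, h⟩ : ℕ))) = Finset.univ := by
    rw [← Finset.card_eq_iff_eq_univ, Fintype.card_fin]
    exact hNeq
  intro i
  have h6 : i ∈ (Finset.univ.filter (fun i : Fin m =>
    ∃ h : i.1 < M, (σ i : ℕ) = (τ ⟨i.1, h⟩ : ℕ))) := by rw [h5]; exact Finset.mem_univ i
  exact (Finset.mem_filter.mp h6).2

variable {S R : Type} [Fintype S] [Fintype R]

lemma distZ_pos (rel : R → FreeGroup S) {m : ℕ} (hm : 2 ≤ m) (α : S → Equiv.Perm (Fin m))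
    (hS : Nonempty S) (h : defect rel α ≠ 0) : 0 < distZ rel α := by
  classical
  have hcard : (0 : ℝ) < Fintype.card S := by exact_mod_cast Fintype.card_pos
  have hmr : (0 : ℝ) < m + 1 := by positivity
  set ε : ℝ := 1 / (m + 1) / Fintype.card S with hε
  have hε0 : 0 < ε := by positivity
  refine lt_of_lt_of_le hε0 ?_
  unfold distZ
  apply le_csInf
  · exact ⟨_, 2, fun _ => 1, le_rfl, fun r => by
      have : FreeGroup.lift (fun _ : S => (1 : Equiv.Perm (Fin 2))) = 1 := by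
        ext s; simp
      rw [this]; rfl, rfl⟩
  · rintro x ⟨M, φ, hM, hφ, rfl⟩
    by_contra hlt
    push Not at hlt
    have h1 : ∀ s, hdist (α s) (φ s) < 1 / (m + 1) := by
      intro s
      have h2 : hdist (α s) (φ s) ≤ ∑ s, hdist (α s) (φ s) :=
        Finset.single_le_sum (fun s _ => hdist_nonneg (α s) (φ s)) (Finset.mem_univ s)
      have h3 : ∑ s, hdist (α s) (φ s) < 1 / (m + 1) := by
        unfold cdist at hlt
        rw [hε, div_lt_div_iff_of_pos_right hcard] at hlt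
        exact hlt
      linarith
    obtain ⟨s0⟩ := hS
    obtain ⟨hMm, _⟩ := hdist_small (by omega) _ _ (h1 s0)
    subst hMm
    have h4 : α = φ := by
      funext s
      obtain ⟨_, h5⟩ := hdist_small (by omega) _ _ (h1 s)
      ext i
      obtain ⟨_, h6⟩ := h5 i
      exact h6
    apply h
    rw [h4]
    unfold defect
    have h7 : ∀ r, hdist (FreeGroup.lift φ (rel r)) (1 : Equiv.Perm (Fin M)) = 0 := by
      intro r
      rw [hφ r]
      have h8 := hdist_same (show 0 < M by omega) (1 : Equiv.Perm (Fin M)) 1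
      rw [dc_self] at h8
      have hMr : (M : ℝ) ≠ 0 := by
        have : 0 < M := by omega
        positivity
      simpa [hMr] using h8
    simp [h7]

end positivity

lemma exists_defect {n p : ℕ} [hp : Fact p.Prime] (hn : 3 ≤ n) :
    ∃ α : Gens n p → Equiv.Perm (Fin 2), defect (steinberg n p) α ≠ 0 := by
  classical
  refine ⟨fun _ => Equiv.swap 0 1, ?_⟩
  set q0 : Pairs n := ⟨(⟨0, by omega⟩, ⟨1, by omega⟩), by simp⟩ with hq0
  have hR : 0 < Fintype.card (Rels n p) :=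
    Fintype.card_pos_iff.mpr ⟨Sum.inl (q0, 0, 0)⟩
  have hRr : (0 : ℝ) < Fintype.card (Rels n p) := by exact_mod_cast hR
  unfold defect
  apply ne_of_gt
  apply div_pos _ hRr
  apply Finset.sum_pos' (fun r _ => hdist_nonneg _ _)
  refine ⟨Sum.inl (q0, 0, 0), Finset.mem_univ _, ?_⟩
  have h1 : FreeGroup.lift (fun _ : Gens n p => (Equiv.swap 0 1 : Equiv.Perm (Fin 2)))
      (steinberg n p (Sum.inl (q0, 0, 0))) = Equiv.swap 0 1 := by
    simp [steinberg, U]
  rw [h1]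
  have h2 := hdist_same (show 0 < 2 by norm_num) (Equiv.swap 0 1 : Equiv.Perm (Fin 2)) 1
  have h3 : 0 < dc (Equiv.swap 0 1 : Equiv.Perm (Fin 2)) 1 := by
    rw [Nat.pos_iff_ne_zero]
    intro h
    have h4 := eq_of_dc h
    have h5 := congrArg (fun σ : Equiv.Perm (Fin 2) => σ 0) h4
    simp at h5
  have h3' : (0 : ℝ) < dc (Equiv.swap 0 1 : Equiv.Perm (Fin 2)) 1 := by exact_mod_cast h3
  push_cast at h2
  linarith

/-- The main theorem. -/
theorem uniform_cheeger (n : ℕ) (hn : 3 ≤ n) :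
    ∃ c : ℝ, 0 < c ∧ ∀ (p : ℕ) [Fact p.Prime], c ≤ cheeger (steinberg n p) := by
  classical
  obtain ⟨C, hC, h⟩ := main_bound hn
  refine ⟨1 / (C + 1), by positivity, fun p hp => ?_⟩
  unfold cheeger
  apply le_csInf
  · obtain ⟨α, hα⟩ := exists_defect (n := n) (p := p) hn
    exact ⟨_, 2, α, le_rfl, hα, rfl⟩
  · rintro x ⟨m, α, hm, hα, rfl⟩
    have hS : Nonempty (Gens n p) := ⟨(⟨(⟨0, by omega⟩, ⟨1, by omega⟩), by simp⟩, 0)⟩
    have h1 := distZ_pos (steinberg n p) hm α hS hα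
    have h2 := h p m α hm
    have h3 := defect_nonneg (steinberg n p) α
    rw [div_le_div_iff₀ (by positivity) h1]
    nlinarith

end Pool.Agent.Helper92.Ch
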