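import Pool.Agent.Helper92.Ch.Mat

/-!
The rank one subgroup of a Steinberg system with trivial symbols is faithful.
-/

set_option autoImplicit false
set_option linter.unusedSectionVars false

universe u v w

namespace Pool.Agent.Helper92.Ch

open Matrix StSys

variable {ι : Type u} {K : Type v} [Fintype ι] [DecidableEq ι] [Field K] {G : Type w} [Group G]
variable (S : StSys ι K G)

section
variable {i j k : ι} (h1 : i ≠ j) (h2 : j ≠ k) (h3 : i ≠ k)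
variable (hsym : ∀ u v : K, u ≠ 0 → v ≠ 0 → S.sym i j u v = 1)
include h1 h2 h3 hsym

lemma hmul {s t : K} (hs : s ≠ 0) (ht : t ≠ 0) : S.hl i j (s * t) = S.hl i j s * S.hl i j t := by
  rw [mul_comm s t, S.hl_mul, hsym t s ht hs, one_mul]

lemma w1_sq : S.wl i j 1 * S.wl i j 1 = S.hl i j (-1) := by
  have e1 : S.hl i j (-1) * S.hl i j (-1) = 1 := by
    rw [← hmul S h1 h2 h3 hsym neg_one_ne neg_one_ne, neg_one_mul, neg_neg, S.hl_one h1]
  have e2 : S.hl i j (-1) = (S.wl i j 1 * S.wl i j 1)⁻¹ := by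
    unfold StSys.hl
    rw [← S.wl_inv h1 1, _root_.mul_inv_rev]
  have e3 := mul_eq_one_iff_eq_inv.mp e1
  rw [e3, e2, inv_inv]

lemma w1_h {t : K} (ht : t ≠ 0) : S.wl i j 1 * S.hl i j t = S.hl i j t⁻¹ * S.wl i j 1 := by
  apply cj_eq'
  unfold StSys.hl
  rw [cj_mul, S.cj_wl_wl' h1 h2 h3 one_ne_zero ht, S.cj_wl_wl' h1 h2 h3 one_ne_zero neg_one_ne]
  congr 2
  · ring
  · norm_num

lemma h_x {t : K} (ht : t ≠ 0) (a : K) :
    S.hl i j t * S.x i j a = S.x i j (t * t * a) * S.hl i j t := cj_eq' (S.cj_hl_ij h1 h2 h3 ht a)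

lemma x_h {t : K} (ht : t ≠ 0) (a : K) :
    S.x i j a * S.hl i j t = S.hl i j t * S.x i j (t⁻¹ * t⁻¹ * a) := by
  rw [h_x S h1 h2 h3 hsym ht]
  congr 2
  field_simp

/-- Normal forms. -/
def NF (i j : ι) : Set G := {g | (∃ a t : K, t ≠ 0 ∧ g = S.x i j a * S.hl i j t) ∨
  ∃ a t b : K, t ≠ 0 ∧ g = S.x i j a * S.hl i j t * S.wl i j 1 * S.x i j b}

lemma NF_x {g : G} (hg : g ∈ NF S i j) (c : K) : S.x i j c * g ∈ NF S i j := by
  rcases hg with ⟨a, t, ht, rfl⟩ | ⟨a, t, b, ht, rfl⟩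
  · left
    exact ⟨c + a, t, ht, by rw [S.add h1]; group⟩
  · right
    exact ⟨c + a, t, b, ht, by rw [S.add h1]; group⟩

lemma NF_w {g : G} (hg : g ∈ NF S i j) : S.wl i j 1 * g ∈ NF S i j := by
  rcases hg with ⟨a, t, ht, rfl⟩ | ⟨a, t, b, ht, rfl⟩
  · right
    refine ⟨0, t⁻¹, t⁻¹ * t⁻¹ * a, inv_ne_zero ht, ?_⟩
    rw [S.zero h1, one_mul, x_h S h1 h2 h3 hsym ht, ← mul_assoc, w1_h S h1 h2 h3 hsym ht]
  · by_cases ha : a = 0
    · left
      subst ha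
      have ht' : -t⁻¹ ≠ 0 := neg_ne_zero.mpr (inv_ne_zero ht)
      refine ⟨(-t⁻¹) * (-t⁻¹) * b, -t⁻¹, ht', ?_⟩
      rw [← h_x S h1 h2 h3 hsym ht', S.zero h1, one_mul]
      have e1 : S.wl i j 1 * (S.hl i j t * S.wl i j 1 * S.x i j b) =
          (S.wl i j 1 * S.hl i j t) * S.wl i j 1 * S.x i j b := by group
      rw [e1, w1_h S h1 h2 h3 hsym ht, mul_assoc (S.hl i j t⁻¹), w1_sq S h1 h2 h3 hsym,
        ← hmul S h1 h2 h3 hsym (inv_ne_zero ht) neg_one_ne, mul_neg_one]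
    · right
      have hai : a⁻¹ ≠ 0 := inv_ne_zero ha
      have htn : -t ≠ 0 := neg_ne_zero.mpr ht
      have ht' : -t⁻¹ ≠ 0 := neg_ne_zero.mpr (inv_ne_zero ht)
      refine ⟨-a⁻¹, a⁻¹ * -t, (-t⁻¹)⁻¹ * (-t⁻¹)⁻¹ * (-a⁻¹) + b, mul_ne_zero hai htn, ?_⟩
      have e0 : S.x j i (-a) = S.x i j (-a⁻¹) * S.wl i j a⁻¹ * S.x i j (-a⁻¹) := by
        unfold StSys.wl
        rw [inv_inv, S.neg h1]; group
      have e1 : S.wl i j 1 * S.x i j a = S.x j i (-a) * S.wl i j 1 := by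
        rw [cj_eq' (S.cj_wl_ij h1 h2 h3 one_ne_zero a)]
        congr 2; simp
      have e2 : S.wl i j 1 * S.hl i j t * S.wl i j 1 = S.hl i j (-t⁻¹) := by
        rw [w1_h S h1 h2 h3 hsym ht, mul_assoc, w1_sq S h1 h2 h3 hsym,
          ← hmul S h1 h2 h3 hsym (inv_ne_zero ht) neg_one_ne, mul_neg_one]
      have e3 : S.wl i j 1 * S.hl i j (-t⁻¹) = S.hl i j (-t) * S.wl i j 1 := by
        rw [w1_h S h1 h2 h3 hsym ht']
        congr 2
        rw [inv_neg, inv_inv]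
      calc S.wl i j 1 * (S.x i j a * S.hl i j t * S.wl i j 1 * S.x i j b)
          = (S.wl i j 1 * S.x i j a) * (S.hl i j t * S.wl i j 1) * S.x i j b := by group
        _ = S.x j i (-a) * (S.wl i j 1 * S.hl i j t * S.wl i j 1) * S.x i j b := by
            rw [e1]; group
        _ = S.x i j (-a⁻¹) * S.wl i j a⁻¹ * (S.x i j (-a⁻¹) * S.hl i j (-t⁻¹)) * S.x i j b := by
            rw [e2, e0]; group
        _ = S.x i j (-a⁻¹) * S.hl i j a⁻¹ * (S.wl i j 1 * S.hl i j (-t⁻¹)) *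
            (S.x i j ((-t⁻¹)⁻¹ * (-t⁻¹)⁻¹ * (-a⁻¹)) * S.x i j b) := by
            rw [x_h S h1 h2 h3 hsym ht', S.wl_eq h1 a⁻¹]; group
        _ = S.x i j (-a⁻¹) * (S.hl i j a⁻¹ * S.hl i j (-t)) * S.wl i j 1 *
            S.x i j ((-t⁻¹)⁻¹ * (-t⁻¹)⁻¹ * (-a⁻¹) + b) := by
            rw [e3, ← S.add h1]; group
        _ = _ := by rw [← hmul S h1 h2 h3 hsym hai htn]

lemma w1_inv : (S.wl i j 1)⁻¹ = S.wl i j 1 * S.wl i j 1 * S.wl i j 1 := by
  have e1 : S.hl i j (-1) * S.hl i j (-1) = 1 := by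
    rw [← hmul S h1 h2 h3 hsym neg_one_ne neg_one_ne, neg_one_mul, neg_neg, S.hl_one h1]
  rw [← w1_sq S h1 h2 h3 hsym] at e1
  rw [inv_eq_iff_mul_eq_one, ← e1]; group

lemma NF_y {g : G} (hg : g ∈ NF S i j) (c : K) : S.x j i c * g ∈ NF S i j := by
  have e1 : S.x j i c = S.wl i j 1 * S.x i j (-c) * (S.wl i j 1)⁻¹ := by
    have := S.cj_wl_ij h1 h2 h3 one_ne_zero (-c)
    unfold cj at this
    rw [this]
    congr 1; simp
  have e2 : S.x j i c * g = S.wl i j 1 * (S.x i j (-c) * (S.wl i j 1 * (S.wl i j 1 *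
      (S.wl i j 1 * g)))) := by
    rw [e1, w1_inv S h1 h2 h3 hsym]; group
  rw [e2]
  exact NF_w S h1 h2 h3 hsym (NF_x S h1 h2 h3 hsym (NF_w S h1 h2 h3 hsym
    (NF_w S h1 h2 h3 hsym (NF_w S h1 h2 h3 hsym hg))) _)

lemma NF_all {g : G} (hg : g ∈ Subgroup.closure {g | ∃ a, g = S.x i j a ∨ g = S.x j i a}) :
    g ∈ NF S i j := by
  induction hg using Subgroup.closure_induction_left with
  | one => left; exact ⟨0, 1, one_ne_zero, by rw [S.zero h1, S.hl_one h1, one_mul]⟩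
  | mul_left x hx y _ ih =>
    obtain ⟨a, rfl | rfl⟩ := hx
    · exact NF_x S h1 h2 h3 hsym ih a
    · exact NF_y S h1 h2 h3 hsym ih a
  | inv_mul_cancel x hx y _ ih =>
    obtain ⟨a, rfl | rfl⟩ := hx
    · rw [← S.neg h1]; exact NF_x S h1 h2 h3 hsym ih _
    · rw [← S.neg h1.symm]; exact NF_y S h1 h2 h3 hsym ih _

end

section faithful

variable (π : G →* SpecialLinearGroup ι K) (hπ : ∀ i j, i ≠ j → ∀ a, π (S.x i j a) = El i j a)
include hπ

lemma π_wl {i j : ι} (h : i ≠ j) (t : K) : π (S.wl i j t) = (MS ι K).wl i j t := by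
  unfold StSys.wl
  rw [map_mul, map_mul, hπ _ _ h, hπ _ _ h.symm]; rfl

lemma π_hl {i j : ι} (h : i ≠ j) (t : K) : π (S.hl i j t) = (MS ι K).hl i j t := by
  unfold StSys.hl
  rw [map_mul, π_wl S π hπ h, π_wl S π hπ h]

/-- The rank one subgroup is mapped injectively to the special linear group. -/
theorem rank_one {i j k : ι} (h1 : i ≠ j) (h2 : j ≠ k) (h3 : i ≠ k)
    (hsym : ∀ u v : K, u ≠ 0 → v ≠ 0 → S.sym i j u v = 1) {g : G}
    (hg : g ∈ Subgroup.closure {g | ∃ a, g = S.x i j a ∨ g = S.x j i a}) (h : π g = 1) : g = 1 := by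
  rcases NF_all S h1 h2 h3 hsym hg with ⟨a, t, ht, rfl⟩ | ⟨a, t, b, ht, rfl⟩
  · rw [map_mul, hπ _ _ h1, π_hl S π hπ h1] at h
    have e1 : act (El i j a * (MS ι K).hl i j t) (Pi.single i 1) i = 1 := by
      rw [h, act_one, Pi.single_eq_same]
    have e2 : act (El i j a * (MS ι K).hl i j t) (Pi.single j 1) i = 0 := by
      rw [h, act_one, Pi.single_eq_of_ne h1]
    rw [act_mul, act_El h1, act_hl h1 ht, act_hl h1 ht] at e1 e2
    simp [h1, Ne.symm h1] at e1 e2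
    rcases e2 with e2 | e2
    · rw [e1, e2, S.zero h1, S.hl_one h1, one_mul]
    · exact absurd e2 ht
  · exfalso
    rw [map_mul, map_mul, map_mul, hπ _ _ h1, hπ _ _ h1, π_hl S π hπ h1, π_wl S π hπ h1] at h
    have e1 : act (El i j a * (MS ι K).hl i j t * (MS ι K).wl i j 1 * El i j b)
        (Pi.single i 1) j = 0 := by
      rw [h, act_one, Pi.single_eq_of_ne h1.symm]
    have e2 : act (El i j b) (Pi.single i (1 : K)) = Pi.single i 1 := by
      funext m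
      rw [act_El h1, Pi.single_eq_of_ne h1.symm]; simp
    rw [act_mul, act_mul, act_mul, e2, act_El h1, act_hl h1 ht,
      act_wl h1 one_ne_zero, act_wl h1 one_ne_zero] at e1
    simp [Ne.symm h1] at e1
    exact ht e1

end faithful

end Pool.Agent.Helper92.Ch
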