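import Pool.Agent.Helper92.Ch.Coset
import Pool.Agent.Helper92.Ch.RankOne

/-!
A Steinberg system with trivial symbols over a field factors through the special linear group.
-/

set_option autoImplicit false
set_option linter.unusedSectionVars false

universe u v w

namespace Pool.Agent.Helper92.Ch

open StSys Matrix

section
variable {ι : Type u} {K : Type v} [Fintype ι] [DecidableEq ι] [Field K] {G : Type w} [Group G]
variable (S : StSys ι K G) (J : Finset ι)

/-- The subgroup generated by the `x i j a` with `i, j ∈ J`. -/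
def GJ : Subgroup G :=
  Subgroup.closure {g | ∃ i j a, i ∈ J ∧ j ∈ J ∧ i ≠ j ∧ g = S.x i j a}

/-- The subgroup generated by the `x i j a` with `i, j ∈ J`, `j ≠ o`. -/
def PJ (o : ι) : Subgroup G :=
  Subgroup.closure {g | ∃ i j a, i ∈ J ∧ j ∈ J ∧ i ≠ j ∧ j ≠ o ∧ g = S.x i j a}

lemma x_mem_GJ {i j : ι} (hi : i ∈ J) (hj : j ∈ J) (h : i ≠ j) (a : K) : S.x i j a ∈ GJ S J :=
  Subgroup.subset_closure ⟨i, j, a, hi, hj, h, rfl⟩

lemma x_mem_PJ {o i j : ι} (hi : i ∈ J) (hj : j ∈ J) (h : i ≠ j) (hjo : j ≠ o) (a : K) :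
    S.x i j a ∈ PJ S J o := Subgroup.subset_closure ⟨i, j, a, hi, hj, h, hjo, rfl⟩

lemma act_El' {i j : ι} (h : i ≠ j) (a : K) (v : ι → K) :
    act (El i j a) v = v + (Pi.single i (a * v j) : ι → K) := by
  funext m
  rw [act_El h, Pi.add_apply]
  by_cases hm : m = i
  · subst hm; rw [if_pos rfl, Pi.single_eq_same]
  · rw [if_neg hm, Pi.single_eq_of_ne hm]

variable (π : G →* SpecialLinearGroup ι K) (hπ : ∀ i j, i ≠ j → ∀ a, π (S.x i j a) = El i j a)
include hπ

lemma act_supp {i j : ι} (hi : i ∈ J) (h : i ≠ j) (a : K) (v : ι → K)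
    (hv : ∀ i, v i ≠ 0 → i ∈ J) : ∀ m, act (π (S.x i j a)) v m ≠ 0 → m ∈ J := by
  intro m hm
  rw [hπ i j h, act_El h] at hm
  by_cases hmi : m = i
  · rw [hmi]; exact hi
  · rw [if_neg hmi, add_zero] at hm; exact hv m hm

omit hπ in
lemma act_ne_zero (g : G) (v : ι → K) (hv : ∃ k, v k ≠ 0) : ∃ k, act (π g) v k ≠ 0 := by
  by_contra hcon
  push Not at hcon
  have h1 : act (π g) v = 0 := funext hcon
  have h2 := act_inv_act (π g) v
  rw [h1] at h2
  obtain ⟨k, hk⟩ := hv
  apply hk
  rw [← h2]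
  unfold act
  rw [mulVec_zero]; rfl

/-- The stabiliser of a basis vector. -/
theorem mem_PJ (hJ : ∀ i ∈ J, ∀ j ∈ J, ∃ m ∈ J, m ≠ i ∧ m ≠ j) {o : ι} (ho : o ∈ J) {g : G}
    (hg : g ∈ GJ S J) (h : act (π g) (Pi.single o 1) = Pi.single o 1) : g ∈ PJ S J o := by
  set p0 : G ⧸ PJ S J o := ((1 : G) : G ⧸ PJ S J o) with hp0def
  have hp0 : Fix S J o p0 := by
    intro i j hi hj hij hjo a
    rw [hp0def]
    show ((S.x i j a * 1 : G) : G ⧸ PJ S J o) = _
    rw [mul_one, eq_comm, QuotientGroup.eq, inv_one, one_mul]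
    exact x_mem_PJ S J hi hj hij hjo a
  have key : ∀ v : ι → K, (∀ i, v i ≠ 0 → i ∈ J) → (∃ k, v k ≠ 0) →
      (∀ i, act (π g) v i ≠ 0 → i ∈ J) ∧
      g • ptv S J hJ ho p0 v = ptv S J hJ ho p0 (act (π g) v) := by
    clear h
    unfold GJ at hg
    induction hg using Subgroup.closure_induction_left with
    | one =>
      intro v hv _
      rw [map_one, act_one, one_smul]
      exact ⟨hv, rfl⟩
    | mul_left x hx y _ ih =>
      intro v hv hv0
      obtain ⟨i, j, a, hi, hj, hij, rfl⟩ := hx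
      obtain ⟨h1, h2⟩ := ih v hv hv0
      rw [map_mul, act_mul, mul_smul, h2]
      refine ⟨act_supp S J π hπ hi hij a _ h1, ?_⟩
      rw [x_ptv S J hJ ho p0 hp0 hi hj hij a _ h1 (act_ne_zero π y v hv0), hπ i j hij, act_El' hij]
    | inv_mul_cancel x hx y _ ih =>
      intro v hv hv0
      obtain ⟨i, j, a, hi, hj, hij, rfl⟩ := hx
      obtain ⟨h1, h2⟩ := ih v hv hv0
      rw [← S.neg hij, map_mul, act_mul, mul_smul, h2]
      refine ⟨act_supp S J π hπ hi hij (-a) _ h1, ?_⟩
      rw [x_ptv S J hJ ho p0 hp0 hi hj hij (-a) _ h1 (act_ne_zero π y v hv0), hπ i j hij,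
        act_El' hij]
  have h1 := (key (Pi.single o 1) (by
    intro i hi
    by_cases h : i = o
    · rw [h]; exact ho
    · rw [Pi.single_eq_of_ne h] at hi; exact absurd rfl hi)
    ⟨o, by rw [Pi.single_eq_same]; exact one_ne_zero⟩).2
  rw [h, ptv_base S J hJ ho p0 hp0] at h1
  have h2 : ((g * 1 : G) : G ⧸ PJ S J o) = ((1 : G) : G ⧸ PJ S J o) := h1
  rw [mul_one, eq_comm, QuotientGroup.eq, inv_one, one_mul] at h2
  exact h2

omit [Fintype ι] [DecidableEq ι] hπ in
/-- The transposed system. -/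
def trS : StSys ι K G where
  x i j a := S.x j i (-a)
  add h a b := by rw [neg_add, S.add h.symm]
  comm h1 h2 h3 h4 a b := S.comm h1.symm h2.symm h4 h3 _ _
  comm' := by
    intro i j l h1 h2 h3 a b
    have := S.comm' h2.symm h1.symm h3.symm (-b) (-a)
    rw [neg_mul_neg] at this
    rw [mul_assoc, this, ← mul_assoc, mul_comm b a, ← mul_assoc, ← S.add h3.symm, neg_add_cancel,
      S.zero h3.symm, one_mul]

lemma PJ_decomp {o : ι} (ho : o ∈ J) {g : G} (hg : g ∈ PJ S J o) :
    ∃ c : ι → K, (∀ i, c i ≠ 0 → i ∈ J ∧ i ≠ o) ∧ ∃ γ ∈ GJ S (J.erase o),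
      g = (trS S).col o c * γ := by
  have step : ∀ (i j : ι) (a : K), i ∈ J → j ∈ J → i ≠ j → j ≠ o → ∀ y : G,
      (∃ c : ι → K, (∀ i, c i ≠ 0 → i ∈ J ∧ i ≠ o) ∧ ∃ γ ∈ GJ S (J.erase o),
        y = (trS S).col o c * γ) →
      ∃ c : ι → K, (∀ i, c i ≠ 0 → i ∈ J ∧ i ≠ o) ∧ ∃ γ ∈ GJ S (J.erase o),
        S.x i j a * y = (trS S).col o c * γ := by
    rintro i j a hi hj hij hjo y ⟨c, hc, γ, hγ, rfl⟩
    by_cases hio : i = o
    · subst hio
      refine ⟨Pi.single j (-a) + c, ?_, γ, hγ, ?_⟩
      · intro m hm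
        by_cases hmj : m = j
        · subst hmj; exact ⟨hj, hjo⟩
        · rw [Pi.add_apply, Pi.single_eq_of_ne hmj, zero_add] at hm; exact hc m hm
      · rw [col_add, col_single _ hjo, mul_assoc]
        show _ = S.x i j (- -a) * _
        rw [neg_neg]
    · refine ⟨c + Pi.single j (-a * c i), ?_, S.x i j a * γ, ?_, ?_⟩
      · intro m hm
        by_cases hmj : m = j
        · subst hmj; exact ⟨hj, hjo⟩
        · rw [Pi.add_apply, Pi.single_eq_of_ne hmj, add_zero] at hm; exact hc m hm
      · exact mul_mem (x_mem_GJ S _ (Finset.mem_erase.mpr ⟨hio, hi⟩)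
          (Finset.mem_erase.mpr ⟨hjo, hj⟩) hij a) hγ
      · have h1 := x_col (trS S) hjo hio hij.symm (-a) c
        have h2 : (trS S).x j i (-a) = S.x i j a := by
          show S.x i j (- -a) = _
          rw [neg_neg]
        rw [h2] at h1
        rw [← mul_assoc, h1, mul_assoc]
  unfold PJ at hg
  induction hg using Subgroup.closure_induction_left with
  | one => exact ⟨0, fun i hi => absurd rfl hi, 1, one_mem _, by rw [col_zero, one_mul]⟩
  | mul_left x hx y _ ih =>
    obtain ⟨i, j, a, hi, hj, hij, hjo, rfl⟩ := hx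
    exact step i j a hi hj hij hjo y ih
  | inv_mul_cancel x hx y _ ih =>
    obtain ⟨i, j, a, hi, hj, hij, hjo, rfl⟩ := hx
    rw [← S.neg hij]
    exact step i j (-a) hi hj hij hjo y ih

lemma act_row {o : ι} (c : ι → K) (hc : ∀ i, c i ≠ 0 → i ≠ o) (v : ι → K) :
    act (π ((trS S).col o c)) v = v + (Pi.single o (-∑ j, c j * v j) : ι → K) := by
  have key : c o = 0 ∧ ∀ v : ι → K,
      act (π ((trS S).col o c)) v = v + (Pi.single o (-∑ j, c j * v j) : ι → K) := by
    refine vec_induction (p := fun c : ι → K => c o = 0 ∧ ∀ v : ι → K,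
      act (π ((trS S).col o c)) v = v + (Pi.single o (-∑ j, c j * v j) : ι → K)) ?_ ?_ c ?_
    · refine ⟨rfl, fun v => ?_⟩
      rw [col_zero, map_one, act_one]
      simp
    · rintro c d ⟨hc0, hc⟩ ⟨hd0, hd⟩
      refine ⟨by rw [Pi.add_apply, hc0, hd0, add_zero], fun v => ?_⟩
      rw [col_add, map_mul, act_mul, hd, hc]
      have e1 : ∑ j, c j * (v + (Pi.single o (-∑ j, d j * v j) : ι → K)) j = ∑ j, c j * v j := by
        apply Finset.sum_congr rfl
        intro j _
        by_cases hj : j = o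
        · subst hj; rw [hc0, zero_mul, zero_mul]
        · rw [Pi.add_apply, Pi.single_eq_of_ne hj, add_zero]
      rw [e1, add_assoc, ← Pi.single_add]
      congr 2
      simp only [Pi.add_apply, add_mul, Finset.sum_add_distrib]
      ring
    · intro i hi
      have hio := hc i hi
      generalize c i = b
      refine ⟨Pi.single_eq_of_ne (Ne.symm hio) _, fun v => ?_⟩
      rw [col_single _ hio]
      have e0 : (trS S).x i o b = S.x o i (-b) := rfl
      rw [e0, hπ o i (Ne.symm hio), act_El' (Ne.symm hio)]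
      congr 2
      rw [Finset.sum_eq_single i]
      · rw [Pi.single_eq_same]; ring
      · intro j _ hj; rw [Pi.single_eq_of_ne hj, zero_mul]
      · intro h; exact absurd (Finset.mem_univ i) h
  exact key.2 v

lemma act_erase {o : ι} {γ : G} (hγ : γ ∈ GJ S (J.erase o)) (v : ι → K) :
    act (π γ) v o = v o := by
  unfold GJ at hγ
  induction hγ using Subgroup.closure_induction_left with
  | one => rw [map_one, act_one]
  | mul_left x hx y _ ih =>
    obtain ⟨i, j, a, hi, hj, hij, rfl⟩ := hx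
    rw [map_mul, act_mul, hπ i j hij, act_El hij, ih, if_neg, add_zero]
    exact fun h => (Finset.mem_erase.mp hi).1 h.symm
  | inv_mul_cancel x hx y _ ih =>
    obtain ⟨i, j, a, hi, hj, hij, rfl⟩ := hx
    rw [← S.neg hij, map_mul, act_mul, hπ i j hij, act_El hij, ih, if_neg, add_zero]
    exact fun h => (Finset.mem_erase.mp hi).1 h.symm

/-- The subgroups `GJ` are mapped injectively to the special linear group. -/
theorem kernel_J (hcard : ∀ i j : ι, ∃ k, k ≠ i ∧ k ≠ j)
    (hsym : ∀ i j : ι, i ≠ j → ∀ u v : K, u ≠ 0 → v ≠ 0 → S.sym i j u v = 1) (n : ℕ) :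
    ∀ J : Finset ι, J.card = n → ∀ g ∈ GJ S J, π g = 1 → g = 1 := by
  induction n with
  | zero =>
    intro J hJ g hg _
    rw [Finset.card_eq_zero] at hJ
    subst hJ
    unfold GJ at hg
    have : {g : G | ∃ i j a, i ∈ (∅ : Finset ι) ∧ j ∈ (∅ : Finset ι) ∧ i ≠ j ∧ g = S.x i j a} = ∅ := by
      ext g; simp
    rw [this, Subgroup.closure_empty] at hg
    exact Subgroup.mem_bot.mp hg
  | succ n ih =>
    intro J hJ g hg h
    by_cases h3 : ∀ i ∈ J, ∀ j ∈ J, ∃ m ∈ J, m ≠ i ∧ m ≠ j
    · obtain ⟨o, ho⟩ : J.Nonempty := by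
        rw [← Finset.card_pos, hJ]; omega
      have h1 := mem_PJ S J π hπ h3 ho hg (by rw [h, act_one])
      obtain ⟨c, hc, γ, hγ, rfl⟩ := PJ_decomp S J π hπ ho h1
      have hcz : c = 0 := by
        funext j
        by_cases hj : c j = 0
        · exact hj
        · have hjo := (hc j hj).2
          have h2 := congrFun (congrArg (fun m => act m (act (π γ⁻¹) (Pi.single j 1))) h) o
          simp only [map_mul, act_mul, act_one] at h2
          have e1 : act (π γ) (act (π γ⁻¹) (Pi.single j 1)) = (Pi.single j 1 : ι → K) := by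
            rw [← act_mul, ← map_mul, mul_inv_cancel, map_one, act_one]
          rw [e1, act_row S π hπ c (fun i hi => (hc i hi).2)] at h2
          have e2 := act_erase S J π hπ (inv_mem hγ) (Pi.single j 1)
          rw [e2, Pi.add_apply, Pi.single_eq_of_ne (Ne.symm hjo), Pi.single_eq_same, zero_add,
            neg_eq_zero, Finset.sum_eq_single j] at h2
          · rw [Pi.single_eq_same, mul_one] at h2; exact h2
          · intro b _ hb; rw [Pi.single_eq_of_ne hb, mul_zero]
          · intro h; exact absurd (Finset.mem_univ j) h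
      rw [hcz, col_zero, one_mul] at h ⊢
      exact ih (J.erase o) (by rw [Finset.card_erase_of_mem ho, hJ]; rfl) γ hγ h
    · push Not at h3
      obtain ⟨i, hi, j, hj, hij⟩ := h3
      by_cases hne : i = j
      · subst hne
        -- J = {i}
        have hJi : J = {i} := by
          ext m
          rw [Finset.mem_singleton]
          constructor
          · intro hm
            by_contra hmi
            exact hmi (hij m hm hmi)
          · rintro rfl; exact hi
        unfold GJ at hg
        have : {g : G | ∃ i j a, i ∈ J ∧ j ∈ J ∧ i ≠ j ∧ g = S.x i j a} = ∅ := by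
          rw [hJi]
          ext g
          simp only [Finset.mem_singleton, Set.mem_ofPred_eq, Set.mem_empty_iff_false, iff_false]
          rintro ⟨_, _, _, rfl, rfl, h, _⟩
          exact h rfl
        rw [this, Subgroup.closure_empty] at hg
        exact Subgroup.mem_bot.mp hg
      · obtain ⟨k, hki, hkj⟩ := hcard i j
        apply rank_one S π hπ hne hkj.symm hki.symm (hsym i j hne) _ h
        refine Subgroup.closure_mono ?_ hg
        rintro g ⟨m, n, a, hm, hn, hmn, rfl⟩
        have hJ2 : ∀ m ∈ J, m = i ∨ m = j := by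
          intro m hm
          by_cases hmi : m = i
          · exact Or.inl hmi
          · exact Or.inr (hij m hm hmi)
        refine ⟨a, ?_⟩
        rcases hJ2 m hm with rfl | rfl
        · rcases hJ2 n hn with rfl | rfl
          · exact absurd rfl hmn
          · exact Or.inl rfl
        · rcases hJ2 n hn with rfl | rfl
          · exact Or.inr rfl
          · exact absurd rfl hmn

end

section
variable {ι : Type u} {K : Type v} [Fintype ι] [DecidableEq ι] [Field K]
  {G : Type (max u v)} [Group G]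

lemma prod_wl (S : StSys ι K G) (i j : ι) (u : K) :
    (S.prod (MS ι K)).wl i j u = (S.wl i j u, (MS ι K).wl i j u) := rfl

lemma prod_hl (S : StSys ι K G) (i j : ι) (u : K) :
    (S.prod (MS ι K)).hl i j u = (S.hl i j u, (MS ι K).hl i j u) := rfl

lemma prod_sym (S : StSys ι K G) (i j : ι) (u v : K) :
    (S.prod (MS ι K)).sym i j u v = (S.sym i j u v, (MS ι K).sym i j u v) := rfl

/-- Products of elements of a Steinberg system with trivial symbols agree if the corresponding
products of elementary matrices agree. -/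
theorem kernel_list (S : StSys ι K G) (hcard : ∀ i j : ι, ∃ k, k ≠ i ∧ k ≠ j)
    (hsym : ∀ i j : ι, i ≠ j → ∀ u v : K, u ≠ 0 → v ≠ 0 → S.sym i j u v = 1)
    (L L' : List ({q : ι × ι // q.1 ≠ q.2} × K))
    (h : (L.map fun z => (El z.1.1.1 z.1.1.2 z.2 : SpecialLinearGroup ι K)).prod =
      (L'.map fun z => (El z.1.1.1 z.1.1.2 z.2 : SpecialLinearGroup ι K)).prod) :
    (L.map fun z => S.x z.1.1.1 z.1.1.2 z.2).prod =
      (L'.map fun z => S.x z.1.1.1 z.1.1.2 z.2).prod := by
  have key : ∀ L : List ({q : ι × ι // q.1 ≠ q.2} × K),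
      ((L.map fun z => S.x z.1.1.1 z.1.1.2 z.2).prod,
        (L.map fun z => (El z.1.1.1 z.1.1.2 z.2 : SpecialLinearGroup ι K)).prod) ∈
        GJ (S.prod (MS ι K)) Finset.univ := by
    intro L
    induction L with
    | nil => exact one_mem _
    | cons z L ih =>
      rw [List.map_cons, List.map_cons, List.prod_cons, List.prod_cons]
      exact mul_mem (x_mem_GJ (S.prod (MS ι K)) Finset.univ (Finset.mem_univ z.1.1.1)
        (Finset.mem_univ z.1.1.2) z.1.2 z.2) ih
  have h1 := kernel_J (S.prod (MS ι K)) (MonoidHom.snd G (SpecialLinearGroup ι K))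
    (fun i j _ a => rfl) hcard (fun i j hij u v hu hv => by
      rw [prod_sym, hsym i j hij u v hu hv, MS_sym hij hu hv]; rfl) _ Finset.univ rfl _
    (mul_mem (key L) (inv_mem (key L'))) (by
      show (L.map fun z => (El z.1.1.1 z.1.1.2 z.2 : SpecialLinearGroup ι K)).prod *
        ((L'.map fun z => (El z.1.1.1 z.1.1.2 z.2 : SpecialLinearGroup ι K)).prod)⁻¹ = 1
      rw [h, mul_inv_cancel])
  exact mul_inv_eq_one.mp (congrArg Prod.fst h1)

end

end Pool.Agent.Helper92.Ch
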