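import Mathlib
set_option autoImplicit false
namespace Pool.Agent.Helper92.Ch

open Finset

set_option linter.unusedSectionVars false

noncomputable section StabilityProof

variable {Γ : Type} [Group Γ] [Fintype Γ] {X : Type} [Fintype X]

open Classical in
/-- Normalised Hamming distance. -/
def hd {Γ : Type} [Fintype Γ] {X : Type} (F G : Γ → X) : ℝ :=
  ((univ.filter (fun g => F g ≠ G g)).card : ℝ) / (Fintype.card Γ : ℝ)

/-- Right translation. -/
def tr (h : Γ) (F : Γ → X) : Γ → X := fun g => F (g * h)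

/-- Orbit function. -/
def ff (f : Γ → Equiv.Perm X) (x : X) : Γ → X := fun g => f g x

theorem cardpos : (0 : ℝ) < (Fintype.card Γ : ℝ) := by
  have : 0 < Fintype.card Γ := Fintype.card_pos
  exact_mod_cast this

theorem hd_nonneg (F G : Γ → X) : 0 ≤ hd F G := by
  unfold hd; positivity

theorem hd_self (F : Γ → X) : hd F F = 0 := by
  unfold hd; simp

theorem hd_comm (F G : Γ → X) : hd F G = hd G F := by
  classical
  unfold hd
  congr 3
  ext g
  simp [eq_comm]

theorem hd_triangle (F G H : Γ → X) : hd F H ≤ hd F G + hd G H := by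
  classical
  unfold hd
  rw [← add_div]
  apply div_le_div_of_nonneg_right _ (le_of_lt cardpos)
  have h1 : (univ.filter (fun g => F g ≠ H g)) ⊆
      (univ.filter (fun g => F g ≠ G g)) ∪ (univ.filter (fun g => G g ≠ H g)) := by
    intro g hg
    simp only [mem_filter, mem_univ, true_and, mem_union] at hg ⊢
    by_contra hcon
    push Not at hcon
    exact hg (hcon.1.trans hcon.2)
  have h2 := (card_le_card h1).trans (card_union_le _ _)
  exact_mod_cast h2

theorem hd_tr (h : Γ) (F G : Γ → X) : hd (tr h F) (tr h G) = hd F G := by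
  classical
  unfold hd tr
  congr 2
  apply card_bij (fun g _ => g * h)
  · intro g hg; simpa using hg
  · intro a _ b _ hab; exact mul_right_cancel hab
  · intro b hb
    refine ⟨b * h⁻¹, ?_, by simp⟩
    simpa using hb

theorem tr_mul (k h : Γ) (F : Γ → X) : tr (k * h) F = tr k (tr h F) := by
  funext g; simp [tr, mul_assoc]

theorem tr_one (F : Γ → X) : tr (1 : Γ) F = F := by
  funext g; simp [tr]

theorem hd_ff (f : Γ → Equiv.Perm X) {x y : X} (h : x ≠ y) : hd (ff f x) (ff f y) = 1 := by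
  classical
  unfold hd ff
  have : (univ.filter (fun g => f g x ≠ f g y)) = univ := by
    ext g; simp [h]
  rw [this, card_univ]
  exact div_self (ne_of_gt cardpos)

theorem eq_of_hd_ff_lt (f : Γ → Equiv.Perm X) {x y : X} (h : hd (ff f x) (ff f y) < 1) : x = y := by
  by_contra hne
  rw [hd_ff f hne] at h
  exact lt_irrefl _ h

/-- Local defect. -/
def ee (f : Γ → Equiv.Perm X) (h : Γ) (x : X) : ℝ := hd (tr h (ff f x)) (ff f (f h x))

/-- Average local defect. -/
def eta (f : Γ → Equiv.Perm X) (x : X) : ℝ := (∑ h, ee f h x) / (Fintype.card Γ : ℝ)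

theorem ee_nonneg (f : Γ → Equiv.Perm X) (h : Γ) (x : X) : 0 ≤ ee f h x := hd_nonneg _ _

theorem eta_nonneg (f : Γ → Equiv.Perm X) (x : X) : 0 ≤ eta f x := by
  unfold eta
  exact div_nonneg (sum_nonneg fun h _ => ee_nonneg f h x) (le_of_lt cardpos)

theorem sum_ee (f : Γ → Equiv.Perm X) (x : X) : ∑ h, ee f h x = eta f x * Fintype.card Γ := by
  unfold eta
  rw [div_mul_cancel₀ _ (ne_of_gt cardpos)]

/-- Good points. -/
def good (f : Γ → Equiv.Perm X) (x : X) : Prop := eta f x < 1 / 40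

theorem dichotomy (f : Γ → Equiv.Perm X) {x x' : X} (hx : good f x) (hx' : good f x') (h : Γ)
    (hlt : hd (tr h (ff f x)) (ff f x') < 19 / 20) : hd (tr h (ff f x)) (ff f x') < 1 / 20 := by
  unfold good at hx hx'
  have hex : ∃ k : Γ, ee f k x' + ee f (k * h) x < 1 / 20 := by
    by_contra hcon
    push Not at hcon
    have h1 : ∑ _k : Γ, (1 / 20 : ℝ) ≤ ∑ k : Γ, (ee f k x' + ee f (k * h) x) :=
      sum_le_sum fun k _ => hcon k
    rw [sum_add_distrib, sum_ee] at h1
    have h2 : ∑ k : Γ, ee f (k * h) x = ∑ k : Γ, ee f k x :=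
      Fintype.sum_equiv (Equiv.mulRight h) _ _ (fun k => rfl)
    rw [h2, sum_ee, sum_const, card_univ, nsmul_eq_mul] at h1
    have := cardpos (Γ := Γ)
    nlinarith
  obtain ⟨k, hk⟩ := hex
  have e1 : hd (tr h (ff f x)) (ff f x') = hd (tr (k * h) (ff f x)) (tr k (ff f x')) := by
    rw [tr_mul, hd_tr]
  have t1 : hd (tr (k * h) (ff f x)) (tr k (ff f x')) ≤
      ee f (k * h) x + hd (ff f (f (k * h) x)) (ff f (f k x')) + ee f k x' := by
    unfold ee
    have a := hd_triangle (tr (k * h) (ff f x)) (ff f (f (k * h) x)) (tr k (ff f x'))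
    have b := hd_triangle (ff f (f (k * h) x)) (ff f (f k x')) (tr k (ff f x'))
    have c := hd_comm (ff f (f k x')) (tr k (ff f x'))
    linarith
  have t2 : hd (ff f (f (k * h) x)) (ff f (f k x')) ≤
      ee f (k * h) x + hd (tr (k * h) (ff f x)) (tr k (ff f x')) + ee f k x' := by
    unfold ee
    have a := hd_triangle (ff f (f (k * h) x)) (tr (k * h) (ff f x)) (ff f (f k x'))
    have b := hd_triangle (tr (k * h) (ff f x)) (tr k (ff f x')) (ff f (f k x'))
    have c := hd_comm (ff f (f (k * h) x)) (tr (k * h) (ff f x))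
    linarith
  have e2 : f (k * h) x = f k x' := by
    apply eq_of_hd_ff_lt f
    linarith
  rw [e2, hd_self] at t1
  linarith

theorem coset_close (f : Γ → Equiv.Perm X) (x : X) {k k' : Γ}
    (h : hd (tr (k⁻¹ * k') (ff f x)) (ff f x) < 1 / 20) :
    hd (tr k' (ff f x)) (tr k (ff f x)) < 1 / 20 := by
  have : tr k' (ff f x) = tr k (tr (k⁻¹ * k') (ff f x)) := by
    rw [← tr_mul]; congr 1; group
  rw [this, hd_tr]
  exact h

/-- Almost stabiliser of a good point. -/
def SS (f : Γ → Equiv.Perm X) (x : {x : X // good f x}) : Subgroup Γ where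
  carrier := {h | hd (tr h (ff f x.1)) (ff f x.1) < 1 / 20}
  mul_mem' := by
    intro a b ha hb
    simp only [Set.mem_ofPred_eq] at ha hb ⊢
    apply dichotomy f x.2 x.2
    rw [tr_mul]
    have t := hd_triangle (tr a (tr b (ff f x.1))) (tr a (ff f x.1)) (ff f x.1)
    rw [hd_tr] at t
    linarith
  one_mem' := by
    simp only [Set.mem_ofPred_eq]
    rw [tr_one, hd_self]
    norm_num
  inv_mem' := by
    intro a ha
    simp only [Set.mem_ofPred_eq] at ha ⊢
    rw [← hd_tr a, ← tr_mul, mul_inv_cancel, tr_one, hd_comm]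
    exact ha

theorem mem_SS (f : Γ → Equiv.Perm X) (x : {x : X // good f x}) (h : Γ) :
    h ∈ SS f x ↔ hd (tr h (ff f x.1)) (ff f x.1) < 1 / 20 := Iff.rfl

/-- Equivalence of good points. -/
def goodSetoid (f : Γ → Equiv.Perm X) : Setoid {x : X // good f x} where
  r x x' := ∃ h : Γ, hd (tr h (ff f x.1)) (ff f x'.1) < 1 / 20
  iseqv := by
    refine ⟨?_, ?_, ?_⟩
    · intro x
      exact ⟨1, by rw [tr_one, hd_self]; norm_num⟩
    · rintro x y ⟨h, hh⟩
      refine ⟨h⁻¹, ?_⟩
      rw [← hd_tr h, ← tr_mul, mul_inv_cancel, tr_one, hd_comm]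
      exact hh
    · rintro x y z ⟨h, hh⟩ ⟨k, hk⟩
      refine ⟨k * h, ?_⟩
      apply dichotomy f x.2 z.2
      rw [tr_mul]
      have t := hd_triangle (tr k (tr h (ff f x.1))) (tr k (ff f y.1)) (ff f z.1)
      rw [hd_tr] at t
      linarith

/-- The set of classes. -/
abbrev Cl (f : Γ → Equiv.Perm X) : Type := Quotient (goodSetoid f)

theorem exists_rep (f : Γ → Equiv.Perm X) (q : Cl f) :
    ∃ r : {x : X // good f x}, Quotient.mk (goodSetoid f) r = q ∧
      ∀ x : {x : X // good f x}, Quotient.mk (goodSetoid f) x = q → eta f r.1 ≤ eta f x.1 := by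
  classical
  have hne : (univ.filter (fun x : {x : X // good f x} =>
      Quotient.mk (goodSetoid f) x = q)).Nonempty := by
    obtain ⟨x, hx⟩ := Quotient.exists_rep q
    exact ⟨x, by simpa using hx⟩
  obtain ⟨r, hr, hmin⟩ := exists_min_image _ (fun x : {x : X // good f x} => eta f x.1) hne
  refine ⟨r, by simpa using hr, ?_⟩
  intro x hx
  exact hmin x (by simpa using hx)

/-- Representative of minimal defect. -/
def rep (f : Γ → Equiv.Perm X) (q : Cl f) : {x : X // good f x} := (exists_rep f q).choose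

theorem rep_mk (f : Γ → Equiv.Perm X) (q : Cl f) : Quotient.mk (goodSetoid f) (rep f q) = q :=
  (exists_rep f q).choose_spec.1

theorem rep_min (f : Γ → Equiv.Perm X) (q : Cl f) (x : {x : X // good f x})
    (hx : Quotient.mk (goodSetoid f) x = q) : eta f (rep f q).1 ≤ eta f x.1 :=
  (exists_rep f q).choose_spec.2 x hx

/-- The new points. -/
abbrev Y0 (f : Γ → Equiv.Perm X) : Type := Σ q : Cl f, Γ ⧸ SS f (rep f q)

/-- Matching relation. -/
def psi (f : Γ → Equiv.Perm X) (p : Y0 f) (y : X) : Prop :=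
  hd (tr (Quotient.out p.2) (ff f (rep f p.1).1)) (ff f y) < 9 / 20

theorem out_close (f : Γ → Equiv.Perm X) (q : Cl f) (k : Γ) :
    hd (tr (Quotient.out (k : Γ ⧸ SS f (rep f q))) (ff f (rep f q).1))
      (tr k (ff f (rep f q).1)) < 1 / 20 := by
  apply coset_close
  rw [← mem_SS]
  have : ((Quotient.out (k : Γ ⧸ SS f (rep f q)) : Γ) : Γ ⧸ SS f (rep f q)) = k :=
    QuotientGroup.out_eq' _
  exact QuotientGroup.eq.mp this.symm

theorem psi_fun (f : Γ → Equiv.Perm X) {p : Y0 f} {y y' : X} (h : psi f p y) (h' : psi f p y') :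
    y = y' := by
  unfold psi at h h'
  apply eq_of_hd_ff_lt f
  have t := hd_triangle (ff f y) (tr (Quotient.out p.2) (ff f (rep f p.1).1)) (ff f y')
  rw [hd_comm (ff f y) (tr _ _)] at t
  linarith

theorem psi_inj (f : Γ → Equiv.Perm X) {p p' : Y0 f} {y : X} (h : psi f p y) (h' : psi f p' y) :
    p = p' := by
  obtain ⟨q, c⟩ := p
  obtain ⟨q', c'⟩ := p'
  unfold psi at h h'
  simp only at h h'
  have key : hd (tr (c'.out⁻¹ * c.out) (ff f (rep f q).1)) (ff f (rep f q').1) < 1 / 20 := by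
    apply dichotomy f (rep f q).2 (rep f q').2
    rw [← hd_tr c'.out, ← tr_mul, mul_inv_cancel_left]
    have t := hd_triangle (tr c.out (ff f (rep f q).1)) (ff f y) (tr c'.out (ff f (rep f q').1))
    rw [hd_comm (ff f y) (tr _ _)] at t
    linarith
  have hq : q = q' := by
    rw [← rep_mk f q, ← rep_mk f q']
    exact Quotient.sound ⟨_, key⟩
  subst hq
  have hc : c' = c := by
    rw [← QuotientGroup.out_eq' c, ← QuotientGroup.out_eq' c', QuotientGroup.eq, mem_SS]
    exact key
  rw [hc]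

open Classical in
/-- The map into the new set. -/
def jj (f : Γ → Equiv.Perm X) (y : X) : Y0 f ⊕ {y : X // ¬ ∃ p, psi f p y} :=
  if h : ∃ p, psi f p y then Sum.inl h.choose else Sum.inr ⟨y, h⟩

theorem jj_spec (f : Γ → Equiv.Perm X) {p : Y0 f} {y : X} (h : psi f p y) :
    jj f y = Sum.inl p := by
  have hex : ∃ p, psi f p y := ⟨p, h⟩
  unfold jj
  rw [dif_pos hex]
  congr 1
  exact psi_inj f hex.choose_spec h

theorem jj_inj (f : Γ → Equiv.Perm X) : Function.Injective (jj f) := by
  intro y y' hyy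
  by_cases h : ∃ p, psi f p y
  · obtain ⟨p, hp⟩ := h
    by_cases h' : ∃ p, psi f p y'
    · obtain ⟨p', hp'⟩ := h'
      rw [jj_spec f hp, jj_spec f hp'] at hyy
      have := Sum.inl_injective hyy
      subst this
      exact psi_fun f hp hp'
    · rw [jj_spec f hp] at hyy
      unfold jj at hyy
      rw [dif_neg h'] at hyy
      exact absurd hyy (by simp)
  · by_cases h' : ∃ p, psi f p y'
    · obtain ⟨p', hp'⟩ := h'
      rw [jj_spec f hp'] at hyy
      unfold jj at hyy
      rw [dif_neg h] at hyy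
      exact absurd hyy (by simp)
    · unfold jj at hyy
      rw [dif_neg h, dif_neg h'] at hyy
      have := Sum.inr_injective hyy
      exact congrArg Subtype.val this

/-- The action. -/
def phi (f : Γ → Equiv.Perm X) : Γ →* Equiv.Perm (Y0 f ⊕ {y : X // ¬ ∃ p, psi f p y}) :=
  (Equiv.Perm.sumCongrHom (Y0 f) {y : X // ¬ ∃ p, psi f p y}).comp
    ((MulAction.toPermHom Γ (Y0 f)).prod 1)

theorem phi_inl (f : Γ → Equiv.Perm X) (h : Γ) (p : Y0 f) :
    phi f h (Sum.inl p) = Sum.inl (h • p) := rfl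

theorem good_psi (f : Γ → Equiv.Perm X) {y : X} (hy : good f y) :
    ∃ (q : Cl f) (k : Γ), hd (tr k (ff f (rep f q).1)) (ff f y) < 1 / 20 ∧
      psi f ⟨q, (k : Γ ⧸ SS f (rep f q))⟩ y := by
  refine ⟨Quotient.mk (goodSetoid f) ⟨y, hy⟩, ?_⟩
  obtain ⟨k, hk⟩ := Quotient.exact (rep_mk f (Quotient.mk (goodSetoid f) ⟨y, hy⟩))
  refine ⟨k, hk, ?_⟩
  unfold psi
  simp only at hk ⊢
  have t := hd_triangle (tr (Quotient.out (k : Γ ⧸ SS f (rep f (Quotient.mk (goodSetoid f) ⟨y, hy⟩))))
    (ff f (rep f (Quotient.mk (goodSetoid f) ⟨y, hy⟩)).1))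
    (tr k (ff f (rep f (Quotient.mk (goodSetoid f) ⟨y, hy⟩)).1)) (ff f y)
  have o := out_close f (Quotient.mk (goodSetoid f) ⟨y, hy⟩) k
  linarith

theorem equivar (f : Γ → Equiv.Perm X) {y : X} (hy : good f y) (h : Γ) (he : ee f h y < 7 / 20) :
    phi f h (jj f y) = jj f (f h y) := by
  obtain ⟨q, k, hk, hp⟩ := good_psi f hy
  rw [jj_spec f hp, phi_inl]
  symm
  have e : h • (⟨q, (k : Γ ⧸ SS f (rep f q))⟩ : Y0 f) = ⟨q, ((h * k : Γ) : Γ ⧸ SS f (rep f q))⟩ := rfl
  rw [e]
  apply jj_spec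
  unfold psi
  simp only
  have o := out_close f q (h * k)
  have t1 := hd_triangle (tr (Quotient.out ((h * k : Γ) : Γ ⧸ SS f (rep f q))) (ff f (rep f q).1))
    (tr (h * k) (ff f (rep f q).1)) (ff f (f h y))
  have t2 := hd_triangle (tr (h * k) (ff f (rep f q).1)) (tr h (ff f y)) (ff f (f h y))
  have t3 : hd (tr (h * k) (ff f (rep f q).1)) (tr h (ff f y)) < 1 / 20 := by
    rw [tr_mul, hd_tr]; exact hk
  unfold ee at he
  linarith

theorem fiber_card (S : Subgroup Γ) [Fintype S] [DecidableEq (Γ ⧸ S)] (c : Γ ⧸ S) :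
    (univ.filter (fun k : Γ => (k : Γ ⧸ S) = c)).card = Fintype.card S := by
  classical
  obtain ⟨a, rfl⟩ := QuotientGroup.mk_surjective c
  rw [← card_univ]
  symm
  apply card_bij (fun (s : S) _ => a * s.1)
  · intro s _
    simp only [mem_filter, mem_univ, true_and]
    symm
    rw [QuotientGroup.eq, inv_mul_cancel_left]
    exact s.2
  · intro s _ t _ hst
    exact Subtype.ext (mul_left_cancel hst)
  · intro b hb
    simp only [mem_filter, mem_univ, true_and] at hb
    have hb' := QuotientGroup.eq.mp hb.symm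
    exact ⟨⟨a⁻¹ * b, hb'⟩, mem_univ _, by simp⟩

theorem sum_mk (S : Subgroup Γ) [Fintype S] [Fintype (Γ ⧸ S)] (F : Γ ⧸ S → ℝ) :
    ∑ k : Γ, F (k : Γ ⧸ S) = (Fintype.card S : ℝ) * ∑ c, F c := by
  classical
  rw [← Finset.sum_fiberwise univ (fun k : Γ => (k : Γ ⧸ S)) (fun k => F (k : Γ ⧸ S)), mul_sum]
  apply sum_congr rfl
  intro c _
  rw [← fiber_card S c, ← nsmul_eq_mul, ← sum_const]
  apply sum_congr rfl
  intro k hk
  simp only [mem_filter, mem_univ, true_and] at hk
  rw [hk]

instance fintypeQ (f : Γ → Equiv.Perm X) (q : Cl f) : Fintype (Γ ⧸ SS f (rep f q)) :=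
  Fintype.ofFinite _

instance fintypeCl (f : Γ → Equiv.Perm X) : Fintype (Cl f) :=
  Fintype.ofFinite _

instance fintypeU (f : Γ → Equiv.Perm X) : Fintype {y : X // ¬ ∃ p, psi f p y} :=
  Fintype.ofFinite _

open Classical in
theorem weighted (f : Γ → Equiv.Perm X) (w : X → ℝ) :
    ∑ p : Y0 f, ∑ y : X, (if psi f p y then w y else 0) ≤
      ∑ y : X, (if ∃ p, psi f p y then w y else 0) := by
  rw [sum_comm]
  apply sum_le_sum
  intro y _
  by_cases h : ∃ p, psi f p y
  · rw [if_pos h]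
    obtain ⟨p, hp⟩ := h
    rw [sum_eq_single p]
    · rw [if_pos hp]
    · intro p' _ hne
      rw [if_neg]
      intro hp'
      exact hne (psi_inj f hp' hp)
    · intro hnot; exact absurd (mem_univ _) hnot
  · rw [if_neg h]
    apply le_of_eq
    apply sum_eq_zero
    intro p _
    rw [if_neg]
    intro hp; exact h ⟨p, hp⟩

theorem rep_le (f : Γ → Equiv.Perm X) {p : Y0 f} {y : X} (h : psi f p y) :
    eta f (rep f p.1).1 ≤ eta f y := by
  obtain ⟨q, c⟩ := p
  by_cases hy : good f y
  · unfold psi at h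
    simp only at h ⊢
    have := dichotomy f (rep f q).2 hy c.out (by linarith)
    have hs : Quotient.mk (goodSetoid f) (rep f q) = Quotient.mk (goodSetoid f) ⟨y, hy⟩ :=
      Quotient.sound ⟨_, this⟩
    rw [rep_mk] at hs
    exact rep_min f q ⟨y, hy⟩ hs.symm
  · have h1 := (rep f q).2
    unfold good at hy h1
    simp only
    linarith

open Classical in
theorem undef_q (f : Γ → Equiv.Perm X) (q : Cl f) :
    ∑ c : Γ ⧸ SS f (rep f q), (if ∃ y, psi f ⟨q, c⟩ y then (0 : ℝ) else 1) ≤
      3 * ∑ c : Γ ⧸ SS f (rep f q), ∑ y : X, (if psi f ⟨q, c⟩ y then eta f y else 0) := by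
  have hr := (rep f q).2
  unfold good at hr
  set r := rep f q with hrdef
  have hpt : ∀ k : Γ, (2 / 5 : ℝ) * (if ∃ y, psi f ⟨q, (k : Γ ⧸ SS f (rep f q))⟩ y then (0 : ℝ) else 1)
      ≤ ee f k (rep f q).1 := by
    intro k
    by_cases h : ∃ y, psi f ⟨q, (k : Γ ⧸ SS f (rep f q))⟩ y
    · rw [if_pos h]
      simpa using ee_nonneg f k (rep f q).1
    · rw [if_neg h]
      by_contra hcon
      apply h
      refine ⟨f k (rep f q).1, ?_⟩
      unfold psi
      simp only
      have o := out_close f q k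
      have t := hd_triangle (tr (Quotient.out (k : Γ ⧸ SS f (rep f q))) (ff f (rep f q).1))
        (tr k (ff f (rep f q).1)) (ff f (f k (rep f q).1))
      unfold ee at hcon
      linarith
  have h1 := sum_le_sum (fun k (_ : k ∈ (univ : Finset Γ)) => hpt k)
  rw [sum_ee, ← mul_sum] at h1
  rw [sum_mk (SS f (rep f q)) (fun c => if ∃ y, psi f ⟨q, c⟩ y then (0 : ℝ) else 1)] at h1
  have h2 := sum_mk (SS f (rep f q)) (fun _ => (1 : ℝ))
  rw [sum_const, card_univ, nsmul_eq_mul, mul_one] at h2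
  rw [h2] at h1
  have hS : (0 : ℝ) < (Fintype.card (SS f (rep f q)) : ℝ) := by
    have : 0 < Fintype.card (SS f (rep f q)) := Fintype.card_pos
    exact_mod_cast this
  set U := ∑ c : Γ ⧸ SS f (rep f q), (if ∃ y, psi f ⟨q, c⟩ y then (0 : ℝ) else 1) with hU
  set V := ∑ c : Γ ⧸ SS f (rep f q), (if ∃ y, psi f ⟨q, c⟩ y then (1 : ℝ) else 0) with hV
  have hUV : ∑ c : Γ ⧸ SS f (rep f q), (1 : ℝ) = U + V := by
    rw [hU, hV, ← sum_add_distrib]
    apply sum_congr rfl
    intro c _
    split_ifs <;> simp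
  rw [hUV] at h1
  have h3 : 2 / 5 * U ≤ eta f (rep f q).1 * (U + V) := by
    have h4 : (Fintype.card (SS f (rep f q)) : ℝ) * (2 / 5 * U) ≤
        (Fintype.card (SS f (rep f q)) : ℝ) * (eta f (rep f q).1 * (U + V)) := by
      calc _ = 2 / 5 * ((Fintype.card (SS f (rep f q)) : ℝ) * U) := by ring
        _ ≤ _ := h1
        _ = _ := by ring
    exact le_of_mul_le_mul_left h4 hS
  have h5 : eta f (rep f q).1 * V ≤
      ∑ c : Γ ⧸ SS f (rep f q), ∑ y : X, (if psi f ⟨q, c⟩ y then eta f y else 0) := by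
    rw [hV, mul_sum]
    apply sum_le_sum
    intro c _
    by_cases h : ∃ y, psi f ⟨q, c⟩ y
    · rw [if_pos h, mul_one]
      obtain ⟨y, hy⟩ := h
      refine (rep_le f hy).trans ?_
      have := single_le_sum (s := univ) (f := fun y => if psi f ⟨q, c⟩ y then eta f y else 0)
        (fun y _ => by
          by_cases hh : psi f ⟨q, c⟩ y
          · simp only [hh, if_true]; exact eta_nonneg f y
          · simp only [hh, if_false]; exact le_refl _) (mem_univ y)
      simpa [hy] using this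
    · rw [if_neg h, mul_zero]
      apply sum_nonneg
      intro y _
      split_ifs
      · exact eta_nonneg f y
      · exact le_refl _
  have hU0 : 0 ≤ U := by
    rw [hU]
    apply sum_nonneg
    intro c _
    split_ifs <;> norm_num
  have hV0 : 0 ≤ V := by
    rw [hV]
    apply sum_nonneg
    intro c _
    split_ifs <;> norm_num
  have he0 := eta_nonneg f (rep f q).1
  nlinarith [mul_nonneg he0 hV0, mul_nonneg (sub_nonneg.mpr hr.le) hU0]

open Classical in
theorem card_bound (f : Γ → Equiv.Perm X) :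
    (Fintype.card (Y0 f ⊕ {y : X // ¬ ∃ p, psi f p y}) : ℝ) ≤
      Fintype.card X + 3 * ∑ y, eta f y := by
  rw [Fintype.card_sum]
  push_cast
  have h1 : (Fintype.card (Y0 f) : ℝ) =
      ∑ p : Y0 f, (if ∃ y, psi f p y then (0 : ℝ) else 1) +
      ∑ p : Y0 f, (if ∃ y, psi f p y then (1 : ℝ) else 0) := by
    rw [← sum_add_distrib]
    have : ∀ p : Y0 f, (if ∃ y, psi f p y then (0 : ℝ) else 1) +
        (if ∃ y, psi f p y then (1 : ℝ) else 0) = 1 := by
      intro p; split_ifs <;> simp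
    rw [sum_congr rfl fun p _ => this p, sum_const, card_univ, nsmul_eq_mul, mul_one]
  have h2 : ∑ p : Y0 f, (if ∃ y, psi f p y then (0 : ℝ) else 1) ≤ 3 * ∑ y, eta f y := by
    rw [Fintype.sum_sigma]
    have a := sum_le_sum (fun q (_ : q ∈ (univ : Finset (Cl f))) => undef_q f q)
    rw [← mul_sum] at a
    have b := weighted f (eta f)
    rw [Fintype.sum_sigma] at b
    have c : ∑ y : X, (if ∃ p, psi f p y then eta f y else 0) ≤ ∑ y, eta f y := by
      apply sum_le_sum
      intro y _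
      split_ifs
      · exact le_refl _
      · exact eta_nonneg f y
    linarith
  have h3 : ∑ p : Y0 f, (if ∃ y, psi f p y then (1 : ℝ) else 0) ≤
      ∑ y : X, (if ∃ p, psi f p y then (1 : ℝ) else 0) := by
    refine le_trans ?_ (weighted f (fun _ => 1))
    apply sum_le_sum
    intro p _
    by_cases h : ∃ y, psi f p y
    · rw [if_pos h]
      obtain ⟨y, hy⟩ := h
      have := single_le_sum (s := univ) (f := fun y => if psi f p y then (1 : ℝ) else 0)
        (fun y _ => by
          by_cases hh : psi f p y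
          · simp [hh]
          · simp [hh]) (mem_univ y)
      simpa [hy] using this
    · rw [if_neg h]
      apply sum_nonneg
      intro y _
      split_ifs <;> norm_num
  have h4 : (Fintype.card {y : X // ¬ ∃ p, psi f p y} : ℝ) =
      ∑ y : X, (if ∃ p, psi f p y then (0 : ℝ) else 1) := by
    rw [Fintype.card_subtype, card_filter]
    push_cast
    apply sum_congr rfl
    intro y _
    by_cases h : ∃ p, psi f p y
    · rw [if_pos h, if_neg (not_not.mpr h)]
    · rw [if_neg h, if_pos h]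
  have h5 : (Fintype.card X : ℝ) = ∑ y : X, (if ∃ p, psi f p y then (0 : ℝ) else 1) +
      ∑ y : X, (if ∃ p, psi f p y then (1 : ℝ) else 0) := by
    rw [← sum_add_distrib]
    have : ∀ y : X, (if ∃ p, psi f p y then (0 : ℝ) else 1) +
        (if ∃ p, psi f p y then (1 : ℝ) else 0) = 1 := by
      intro p; split_ifs <;> simp
    rw [sum_congr rfl fun p _ => this p, sum_const, card_univ, nsmul_eq_mul, mul_one]
  rw [h1, h4]
  linarith

open Classical in
theorem sum_ee_x (f : Γ → Equiv.Perm X) (h : Γ) :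
    ∑ x, ee f h x = (∑ g : Γ, ((univ.filter
      (fun x : X => f (g * h) x ≠ f g (f h x))).card : ℝ)) / Fintype.card Γ := by
  unfold ee hd tr ff
  rw [← sum_div]
  congr 1
  simp only [card_filter]
  push_cast
  rw [sum_comm]

open Classical in
theorem bad_count (w : X → ℝ) (hw : ∀ x, 0 ≤ w x) (a : ℝ) (ha : 0 < a) :
    ((univ.filter (fun x => ¬ w x < a)).card : ℝ) ≤ (∑ x, w x) / a := by
  rw [le_div_iff₀ ha, card_filter]
  push_cast
  rw [sum_mul]
  apply sum_le_sum
  intro x _
  by_cases h : w x < a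
  · rw [if_neg (not_not.mpr h)]
    linarith [hw x]
  · rw [if_pos h]
    linarith [not_lt.mp h]

theorem count_bound {X : Type} (s t u : Finset X) (h : ∀ x ∈ s, x ∈ t ∨ x ∈ u) :
    (s.card : ℝ) ≤ (t.card : ℝ) + (u.card : ℝ) := by
  classical
  have h1 : s ⊆ t ∪ u := by
    intro x hx
    rw [mem_union]
    exact h x hx
  have h2 := (card_le_card h1).trans (card_union_le _ _)
  exact_mod_cast h2

open Classical in
theorem final_bound (f : Γ → Equiv.Perm X) (D : ℝ) (hsum : ∑ x, eta f x ≤ D) {Y : Type}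
    (j : X → Y) (φ : Γ → Equiv.Perm Y)
    (hj : ∀ x h, eta f x < 1 / 40 → ee f h x < 7 / 20 → φ h (j x) = j (f h x)) (h : Γ) :
    ((Finset.univ.filter (fun x : X => φ h (j x) ≠ j (f h x))).card : ℝ) ≤
        40 * D + 4 * (∑ g : Γ, ((Finset.univ.filter
          (fun x : X => f (g * h) x ≠ f g (f h x))).card : ℝ)) / Fintype.card Γ := by
  have b1 := bad_count (eta f) (eta_nonneg f) (1 / 40) (by norm_num)
  have b2 := bad_count (ee f h) (ee_nonneg f h) (7 / 20) (by norm_num)
  have b3 : 0 ≤ ∑ x, ee f h x := sum_nonneg fun x _ => ee_nonneg f h x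
  rw [mul_div_assoc, ← sum_ee_x]
  have e1 : (∑ x, eta f x) / (1 / 40) = 40 * ∑ x, eta f x := by ring
  have e2 : (∑ x, ee f h x) / (7 / 20) = (20 / 7) * ∑ x, ee f h x := by ring
  rw [e1] at b1
  rw [e2] at b2
  have b4 : 40 * ∑ x, eta f x + 20 / 7 * ∑ x, ee f h x ≤ 40 * D + 4 * ∑ x, ee f h x := by
    linarith
  refine le_trans (count_bound _ _ _ ?_) (le_trans (add_le_add b1 b2) b4)
  intro x hx
  rw [mem_filter] at hx
  by_cases h1 : eta f x < 1 / 40
  · by_cases h2 : ee f h x < 7 / 20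
    · exact absurd (hj x h h1 h2) hx.2
    · right
      rw [mem_filter]
      exact ⟨mem_univ _, h2⟩
  · left
    rw [mem_filter]
    exact ⟨mem_univ _, h1⟩

end StabilityProof

open Classical in
/-- Stability of finite group actions with linear rate (Becker-Chapman). `D` bounds the average
number of points where `f (g h) x ≠ f g (f h x)`. -/
theorem stability {Γ : Type} [Group Γ] [Fintype Γ] {X : Type} [Fintype X]
    (f : Γ → Equiv.Perm X) (D : ℝ)
    (hD : (∑ h : Γ, ∑ g : Γ, ((Finset.univ.filter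
      (fun x : X => f (g * h) x ≠ f g (f h x))).card : ℝ)) ≤ D * (Fintype.card Γ : ℝ) ^ 2) :
    ∃ (Y : Type) (_ : Fintype Y) (j : X ↪ Y) (φ : Γ →* Equiv.Perm Y),
      (Fintype.card Y : ℝ) ≤ Fintype.card X + 6 * D ∧
      ∀ h : Γ, ((Finset.univ.filter (fun x : X => φ h (j x) ≠ j (f h x))).card : ℝ) ≤
        40 * D + 4 * (∑ g : Γ, ((Finset.univ.filter
          (fun x : X => f (g * h) x ≠ f g (f h x))).card : ℝ)) / Fintype.card Γ := by
  have hN := cardpos (Γ := Γ)
  have hsum : ∑ x, eta f x ≤ D := by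
    have e : ∑ x, eta f x = (∑ h : Γ, ∑ g : Γ, ((Finset.univ.filter
      (fun x : X => f (g * h) x ≠ f g (f h x))).card : ℝ)) / (Fintype.card Γ : ℝ) ^ 2 := by
      unfold eta
      rw [← sum_div, sum_comm, sum_congr rfl fun h _ => sum_ee_x f h, ← sum_div, div_div, sq]
    rw [e, div_le_iff₀ (by positivity)]
    exact hD
  have h0 : 0 ≤ ∑ x, eta f x := sum_nonneg fun x _ => eta_nonneg f x
  refine ⟨Y0 f ⊕ {y : X // ¬ ∃ p, psi f p y}, inferInstance, ⟨jj f, jj_inj f⟩, phi f, ?_, ?_⟩
  · have := card_bound f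
    linarith
  · intro h
    exact final_bound f D hsum (jj f) (phi f)
      (fun x h h1 h2 => equivar f h1 h h2) h

end Pool.Agent.Helper92.Ch
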