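import Pool.Agent.Helper92.Ch.Count
import Pool.Agent.Helper92.Ch.Stability

/-!
The quotient group in which permutations differing in a proportion `O(e)` of points are identified,
and rigidity of internal homomorphisms from cyclic groups.
-/

set_option autoImplicit false
set_option linter.unusedSectionVars false

namespace Pool.Agent.Helper92.Ch

open Filter

section ec

variable {X Y : Type} [Fintype X] [Fintype Y]

open Classical in
/-- Number of points where `τ ∘ j` and `j ∘ σ` differ. -/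
noncomputable def ec (j : X ↪ Y) (τ : Equiv.Perm Y) (σ : Equiv.Perm X) : ℕ :=
  (Finset.univ.filter (fun x : X => τ (j x) ≠ j (σ x))).card

lemma ec_triangle (j : X ↪ Y) (τ : Equiv.Perm Y) (σ σ' : Equiv.Perm X) :
    ec j τ σ' ≤ ec j τ σ + dc σ σ' := by
  classical
  unfold ec dc
  refine le_trans (Finset.card_le_card ?_) (Finset.card_union_le _ _)
  intro x hx
  rw [Finset.mem_filter] at hx
  rw [Finset.mem_union, Finset.mem_filter, Finset.mem_filter]
  by_contra hcon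
  push Not at hcon
  have h1 := hcon.1 (Finset.mem_univ _)
  have h2 := hcon.2 (Finset.mem_univ _)
  exact hx.2 (by rw [h1, h2])

lemma dc_one_le (j : X ↪ Y) (τ : Equiv.Perm Y) (σ : Equiv.Perm X) :
    dc σ 1 ≤ ec j τ σ + dc τ 1 := by
  classical
  unfold ec dc
  have h1 : (Finset.univ.filter (fun x : X => τ (j x) ≠ j x)).card ≤
      (Finset.univ.filter (fun y : Y => τ y ≠ (1 : Equiv.Perm Y) y)).card := by
    apply Finset.card_le_card_of_injOn j
    · intro x hx
      rw [Finset.mem_coe, Finset.mem_filter] at hx ⊢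
      exact ⟨Finset.mem_univ _, hx.2⟩
    · exact j.injective.injOn
  refine le_trans (le_trans (Finset.card_le_card ?_) (Finset.card_union_le
    (Finset.univ.filter (fun x : X => τ (j x) ≠ j (σ x)))
    (Finset.univ.filter (fun x : X => τ (j x) ≠ j x)))) (Nat.add_le_add_left h1 _)
  intro x hx
  rw [Finset.mem_filter] at hx
  rw [Finset.mem_union, Finset.mem_filter, Finset.mem_filter]
  by_contra hcon
  push Not at hcon
  have h2 := hcon.1 (Finset.mem_univ _)
  have h3 := hcon.2 (Finset.mem_univ _)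
  exact hx.2 (j.injective (h2.symm.trans h3))

lemma dc_le_one (j : X ↪ Y) (τ : Equiv.Perm Y) (σ : Equiv.Perm X) :
    dc τ 1 + Fintype.card X ≤ ec j τ σ + dc σ 1 + Fintype.card Y := by
  classical
  have h0 : (Finset.univ.filter (fun x : X => τ (j x) ≠ j x)).card ≤ ec j τ σ + dc σ 1 := by
    unfold ec dc
    refine le_trans (Finset.card_le_card ?_) (Finset.card_union_le _ _)
    intro x hx
    rw [Finset.mem_filter] at hx
    rw [Finset.mem_union, Finset.mem_filter, Finset.mem_filter]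
    by_contra hcon
    push Not at hcon
    have h2 := hcon.1 (Finset.mem_univ _)
    have h3 := hcon.2 (Finset.mem_univ _)
    exact hx.2 (by rw [h2, h3]; rfl)
  have h1 : dc τ 1 ≤ (Finset.univ.filter (fun x : X => τ (j x) ≠ j x)).card +
      (Finset.univ.filter (fun y : Y => y ∉ Set.range j)).card := by
    unfold dc
    have : (Finset.univ.filter (fun y : Y => τ y ≠ (1 : Equiv.Perm Y) y)) ⊆
        ((Finset.univ.filter (fun x : X => τ (j x) ≠ j x)).map j) ∪
        (Finset.univ.filter (fun y : Y => y ∉ Set.range j)) := by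
      intro y hy
      rw [Finset.mem_filter] at hy
      rw [Finset.mem_union, Finset.mem_filter, Finset.mem_map]
      by_cases h : y ∈ Set.range j
      · left
        obtain ⟨x, rfl⟩ := h
        exact ⟨x, Finset.mem_filter.mpr ⟨Finset.mem_univ _, hy.2⟩, rfl⟩
      · right; exact ⟨Finset.mem_univ _, h⟩
    refine le_trans (Finset.card_le_card this) (le_trans (Finset.card_union_le _ _) ?_)
    rw [Finset.card_map]
  have h2 : (Finset.univ.filter (fun y : Y => y ∉ Set.range j)).card + Fintype.card X =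
      Fintype.card Y := by
    have e1 : Fintype.card X = (Finset.univ.filter (fun y : Y => y ∈ Set.range j)).card := by
      rw [← Finset.card_univ, ← Finset.card_map j]
      congr 1
      ext y
      simp
    rw [e1, add_comm, Finset.card_filter_add_card_filter_not, Finset.card_univ]
  omega

lemma dc_pow_le (τ : Equiv.Perm Y) (n : ℤ) : dc (τ ^ n) 1 ≤ dc τ 1 := by
  classical
  unfold dc
  apply Finset.card_le_card
  intro y hy
  rw [Finset.mem_filter] at hy ⊢
  refine ⟨Finset.mem_univ _, fun h => hy.2 ?_⟩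
  exact Equiv.Perm.zpow_apply_eq_self_of_apply_eq_self h n

end ec

/-- Stability, in terms of `dc` and `ec`. -/
theorem stability' {Γ : Type} [Group Γ] [Fintype Γ] {X : Type} [Fintype X]
    (f : Γ → Equiv.Perm X) (D : ℝ)
    (hD : (∑ h : Γ, ∑ g : Γ, (dc (f (g * h)) (f g * f h) : ℝ)) ≤ D * (Fintype.card Γ : ℝ) ^ 2) :
    ∃ (Y : Type) (_ : Fintype Y) (j : X ↪ Y) (φ : Γ →* Equiv.Perm Y),
      (Fintype.card Y : ℝ) ≤ Fintype.card X + 6 * D ∧
      ∀ h : Γ, (ec j (φ h) (f h) : ℝ) ≤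
        40 * D + 4 * (∑ g : Γ, (dc (f (g * h)) (f g * f h) : ℝ)) / Fintype.card Γ :=
  stability f D hD

section quotient

variable (X : ℕ → Type) [∀ k, Fintype (X k)] (U : Ultrafilter ℕ) (e : ℕ → ℝ) (he : ∀ k, 0 ≤ e k)

/-- Sequences of permutations moving `O(e k)` points. -/
def NQ : Subgroup (∀ k, Equiv.Perm (X k)) where
  carrier := {σ | ∃ C : ℝ, 0 ≤ C ∧ ∀ᶠ k in (U : Filter ℕ), (dc (σ k) 1 : ℝ) ≤ C * e k}
  one_mem' := ⟨0, le_rfl, Eventually.of_forall fun k => by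
    show (dc (1 : Equiv.Perm (X k)) 1 : ℝ) ≤ 0 * e k
    rw [dc_self]; simp⟩
  mul_mem' := by
    rintro σ τ ⟨C, hC, h⟩ ⟨C', hC', h'⟩
    refine ⟨C + C', add_nonneg hC hC', ?_⟩
    filter_upwards [h, h'] with k h1 h2
    have h3 := dc_mul (σ k) 1 (τ k) 1
    rw [one_mul] at h3
    have h4 : (dc ((σ * τ) k) 1 : ℝ) ≤ dc (σ k) 1 + dc (τ k) 1 := by exact_mod_cast h3
    rw [add_mul]; linarith
  inv_mem' := by
    rintro σ ⟨C, hC, h⟩
    refine ⟨C, hC, ?_⟩
    filter_upwards [h] with k h1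
    have h3 := dc_inv (σ k) 1
    rw [inv_one] at h3
    show (dc (σ k)⁻¹ 1 : ℝ) ≤ _
    rw [h3]; exact h1

instance : (NQ X U e).Normal := by
  constructor
  rintro σ ⟨C, hC, h⟩ g
  refine ⟨C, hC, ?_⟩
  filter_upwards [h] with k h1
  have h3 := dc_conj (g k) (σ k) 1
  rw [mul_one, mul_inv_cancel] at h3
  show (dc (g k * σ k * (g k)⁻¹) 1 : ℝ) ≤ _
  rw [h3]; exact h1

/-- The quotient group. -/
abbrev QG : Type := (∀ k, Equiv.Perm (X k)) ⧸ NQ X U e

/-- The class of a sequence. -/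
def mkQ (σ : ∀ k, Equiv.Perm (X k)) : QG X U e := (σ : (∀ k, Equiv.Perm (X k)) ⧸ NQ X U e)

lemma mkQ_mul (σ τ : ∀ k, Equiv.Perm (X k)) :
    mkQ X U e (fun k => σ k * τ k) = mkQ X U e σ * mkQ X U e τ := rfl

lemma mkQ_inv (σ : ∀ k, Equiv.Perm (X k)) :
    mkQ X U e (fun k => (σ k)⁻¹) = (mkQ X U e σ)⁻¹ := rfl

lemma mkQ_one : mkQ X U e (fun _ => 1) = 1 := rfl

lemma mkQ_eq {σ τ : ∀ k, Equiv.Perm (X k)} : mkQ X U e σ = mkQ X U e τ ↔
    ∃ C : ℝ, 0 ≤ C ∧ ∀ᶠ k in (U : Filter ℕ), (dc (σ k) (τ k) : ℝ) ≤ C * e k := by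
  unfold mkQ
  rw [eq_comm, QuotientGroup.eq]
  have h : ∀ k, dc ((τ⁻¹ * σ) k) 1 = dc (σ k) (τ k) := by
    intro k
    have := dc_mul_left (τ k) ((τ k)⁻¹ * σ k) 1
    rw [mul_inv_cancel_left, mul_one] at this
    exact this.symm
  constructor
  · rintro ⟨C, hC, h1⟩
    refine ⟨C, hC, ?_⟩
    filter_upwards [h1] with k h2
    rw [h] at h2; exact h2
  · rintro ⟨C, hC, h1⟩
    refine ⟨C, hC, ?_⟩
    filter_upwards [h1] with k h2
    rw [h]; exact h2

lemma mkQ_eq_of_eventually {σ τ : ∀ k, Equiv.Perm (X k)}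
    (h : ∀ᶠ k in (U : Filter ℕ), σ k = τ k) : mkQ X U e σ = mkQ X U e τ := by
  rw [mkQ_eq]
  refine ⟨0, le_rfl, ?_⟩
  filter_upwards [h] with k h1
  rw [h1, dc_self]; simp

include he in
/-- Uniformity over finite parameter sets. -/
lemma uniformize {Γ : ℕ → Type} [∀ k, Finite (Γ k)] [∀ k, Nonempty (Γ k)]
    (σ τ : ∀ k, Γ k → Equiv.Perm (X k))
    (h : ∀ g : ∀ k, Γ k, mkQ X U e (fun k => σ k (g k)) = mkQ X U e (fun k => τ k (g k))) :
    ∃ C : ℝ, 0 ≤ C ∧ ∀ᶠ k in (U : Filter ℕ), ∀ g : Γ k, (dc (σ k g) (τ k g) : ℝ) ≤ C * e k := by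
  have h1 : ∀ k, ∃ g0 : Γ k, ∀ g : Γ k, dc (σ k g) (τ k g) ≤ dc (σ k g0) (τ k g0) :=
    fun k => Finite.exists_max (fun g : Γ k => dc (σ k g) (τ k g))
  choose g0 hg0 using h1
  obtain ⟨C, hC, h2⟩ := (mkQ_eq X U e).mp (h g0)
  refine ⟨C, hC, ?_⟩
  filter_upwards [h2] with k h3 g
  exact le_trans (by exact_mod_cast hg0 k g) h3

include he in
/-- Internal homomorphisms are close to homomorphisms. -/
lemma internal_stability {Γ : ℕ → Type} [∀ k, Group (Γ k)] [∀ k, Fintype (Γ k)]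
    (f : ∀ k, Γ k → Equiv.Perm (X k))
    (h : ∀ g g' : ∀ k, Γ k, mkQ X U e (fun k => f k (g k * g' k)) =
      mkQ X U e (fun k => f k (g k)) * mkQ X U e (fun k => f k (g' k))) :
    ∃ C : ℝ, 0 ≤ C ∧ ∀ᶠ k in (U : Filter ℕ), ∃ (Y : Type) (_ : Fintype Y) (j : X k ↪ Y)
      (φ : Γ k →* Equiv.Perm Y), (Fintype.card Y : ℝ) ≤ Fintype.card (X k) + C * e k ∧
      ∀ g : Γ k, (ec j (φ g) (f k g) : ℝ) ≤ C * e k := by
  obtain ⟨C, hC, h1⟩ := uniformize X U e he (Γ := fun k => Γ k × Γ k)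
    (fun k g => f k (g.1 * g.2)) (fun k g => f k g.1 * f k g.2)
    (fun g => by rw [h (fun k => (g k).1) (fun k => (g k).2)]; rfl)
  refine ⟨44 * C, by positivity, ?_⟩
  filter_upwards [h1] with k h2
  have hek := he k
  have hcard : (0 : ℝ) < Fintype.card (Γ k) := by exact_mod_cast Fintype.card_pos
  have hsum : ∀ g' : Γ k, ∑ g : Γ k, (dc (f k (g * g')) (f k g * f k g') : ℝ) ≤
      C * e k * Fintype.card (Γ k) := by
    intro g'
    calc ∑ g : Γ k, (dc (f k (g * g')) (f k g * f k g') : ℝ) ≤ ∑ _g : Γ k, C * e k :=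
          Finset.sum_le_sum fun g _ => h2 (g, g')
      _ = _ := by rw [Finset.sum_const, Finset.card_univ, nsmul_eq_mul]; ring
  obtain ⟨Y, hY, j, φ, h3, h4⟩ := stability' (f k) (C * e k) (by
    calc ∑ g' : Γ k, ∑ g : Γ k, (dc (f k (g * g')) (f k g * f k g') : ℝ)
        ≤ ∑ _g' : Γ k, C * e k * Fintype.card (Γ k) := Finset.sum_le_sum fun g' _ => hsum g'
      _ = _ := by rw [Finset.sum_const, Finset.card_univ, nsmul_eq_mul]; ring)
  refine ⟨Y, hY, j, φ, ?_, fun g => ?_⟩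
  · have : 0 ≤ C * e k := by positivity
    nlinarith
  · refine le_trans (h4 g) ?_
    have h5 : (∑ g' : Γ k, (dc (f k (g' * g)) (f k g' * f k g) : ℝ)) / Fintype.card (Γ k) ≤
        C * e k := by
      rw [div_le_iff₀ hcard]; exact hsum g
    rw [mul_div_assoc]
    linarith

include he in
/-- An internal homomorphism from cyclic groups which is trivial on generators is trivial. -/
lemma cyclic_rigidity {Γ : ℕ → Type} [∀ k, Group (Γ k)] [∀ k, Fintype (Γ k)]
    (f : ∀ k, Γ k → Equiv.Perm (X k))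
    (h : ∀ g g' : ∀ k, Γ k, mkQ X U e (fun k => f k (g k * g' k)) =
      mkQ X U e (fun k => f k (g k)) * mkQ X U e (fun k => f k (g' k)))
    (ζ : ∀ k, Γ k) (hζ : ∀ k, ∀ g : Γ k, g ∈ Subgroup.zpowers (ζ k))
    (h1 : mkQ X U e (fun k => f k (ζ k)) = 1) (g : ∀ k, Γ k) :
    mkQ X U e (fun k => f k (g k)) = 1 := by
  obtain ⟨C, hC, h2⟩ := internal_stability X U e he f h
  rw [← mkQ_one, mkQ_eq] at h1 ⊢
  obtain ⟨C', hC', h3⟩ := h1
  refine ⟨C + (C + C' + C), by positivity, ?_⟩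
  filter_upwards [h2, h3] with k h4 h5
  obtain ⟨Y, hY, j, φ, h6, h7⟩ := h4
  obtain ⟨n, hn⟩ := Subgroup.mem_zpowers_iff.mp (hζ k (g k))
  have a1 : (dc (f k (g k)) 1 : ℝ) ≤ ec j (φ (g k)) (f k (g k)) + dc (φ (g k)) 1 := by
    exact_mod_cast dc_one_le j (φ (g k)) (f k (g k))
  have a2 : (dc (φ (g k)) 1 : ℝ) ≤ dc (φ (ζ k)) 1 := by
    rw [← hn, map_zpow]
    exact_mod_cast dc_pow_le (φ (ζ k)) n
  have a3 : (dc (φ (ζ k)) 1 : ℝ) + Fintype.card (X k) ≤
      ec j (φ (ζ k)) (f k (ζ k)) + dc (f k (ζ k)) 1 + Fintype.card Y := by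
    exact_mod_cast dc_le_one j (φ (ζ k)) (f k (ζ k))
  have a4 := h7 (g k)
  have a5 := h7 (ζ k)
  simp only [add_mul]
  linarith

end quotient

end Pool.Agent.Helper92.Ch
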