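import Pool.Agent.Helper92.Ch.Count

/-!
Self-correction: relations holding on average hold everywhere.
-/

set_option autoImplicit false
set_option linter.unusedSectionVars false

namespace Pool.Agent.Helper92.Ch

section
variable {A : Type} [AddCommGroup A] [Fintype A]

lemma average (F : A → A → ℝ) (κ : ℝ)
    (h : ∀ a a' b b', F (a + a') (b + b') ≤ F a b + F a b' + F a' b + F a' b' + κ) (a b : A) :
    (Fintype.card A : ℝ) ^ 2 * F a b ≤ 4 * ∑ a', ∑ b', F a' b' + (Fintype.card A : ℝ) ^ 2 * κ := by
  have h1 : ∀ a' b', F a b ≤ F a' b' + F a' (b - b') + F (a - a') b' + F (a - a') (b - b') + κ := by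
    intro a' b'
    have := h a' (a - a') b' (b - b')
    rwa [add_sub_cancel, add_sub_cancel] at this
  have e1 : ∀ G : A → ℝ, ∀ c : A, ∑ b', G (c - b') = ∑ b', G b' := fun G c =>
    Fintype.sum_equiv (Equiv.subLeft c) _ _ (fun x => rfl)
  have h2 : ∑ _a' : A, ∑ _b' : A, F a b ≤ ∑ a', ∑ b', (F a' b' + F a' (b - b') + F (a - a') b' +
      F (a - a') (b - b') + κ) :=
    Finset.sum_le_sum fun a' _ => Finset.sum_le_sum fun b' _ => h1 a' b'
  have h3 : ∑ a', ∑ b', (F a' b' + F a' (b - b') + F (a - a') b' + F (a - a') (b - b') + κ) =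
      4 * ∑ a', ∑ b', F a' b' + (Fintype.card A : ℝ) ^ 2 * κ := by
    simp only [Finset.sum_add_distrib]
    have s1 : ∑ a', ∑ b', F a' (b - b') = ∑ a', ∑ b', F a' b' :=
      Finset.sum_congr rfl fun a' _ => e1 (F a') b
    have s2 : ∑ a', ∑ b', F (a - a') b' = ∑ a', ∑ b', F a' b' :=
      e1 (fun a' => ∑ b', F a' b') a
    have s3 : ∑ a', ∑ b', F (a - a') (b - b') = ∑ a', ∑ b', F a' b' := by
      rw [← s2]
      exact Finset.sum_congr rfl fun a' _ => e1 (F (a - a')) b
    rw [s1, s2, s3]
    simp only [Finset.sum_const, Finset.card_univ, nsmul_eq_mul]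
    ring
  rw [h3] at h2
  simp only [Finset.sum_const, Finset.card_univ, nsmul_eq_mul] at h2
  calc _ = (Fintype.card A : ℝ) * ((Fintype.card A : ℝ) * F a b) := by ring
    _ ≤ _ := h2

variable {Z : Type} [Fintype Z] (x y z : A → Equiv.Perm Z)
variable (hx : ∀ a b, x (a + b) = x a * x b) (hy : ∀ a b, y (a + b) = y a * y b)
variable (hz : ∀ a b, z (a + b) = z a * z b)
include hx hy

lemma comm_add (a a' b b' : A) :
    (dc (x (a + a') * y (b + b')) (y (b + b') * x (a + a')) : ℝ) ≤
      dc (x a * y b) (y b * x a) + dc (x a * y b') (y b' * x a) +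
      dc (x a' * y b) (y b * x a') + dc (x a' * y b') (y b' * x a') + 0 := by
  have key1 : ∀ c, dc (x (a + a') * c) (c * x (a + a')) ≤
      dc (x a' * c) (c * x a') + dc (x a * c) (c * x a) := by
    intro c
    have h1 := dc_triangle (x (a + a') * c) (x a * c * x a') (c * x (a + a'))
    have h2 : dc (x (a + a') * c) (x a * c * x a') = dc (x a' * c) (c * x a') := by
      rw [hx, mul_assoc, mul_assoc, dc_mul_left]
    have h3 : dc (x a * c * x a') (c * x (a + a')) = dc (x a * c) (c * x a) := by
      rw [hx, ← mul_assoc, dc_mul_right]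
    omega
  have key2 : ∀ c, dc (c * y (b + b')) (y (b + b') * c) ≤
      dc (c * y b) (y b * c) + dc (c * y b') (y b' * c) := by
    intro c
    have h1 := dc_triangle (c * y (b + b')) (y b * c * y b') (y (b + b') * c)
    have h2 : dc (c * y (b + b')) (y b * c * y b') = dc (c * y b) (y b * c) := by
      rw [hy, ← mul_assoc, dc_mul_right]
    have h3 : dc (y b * c * y b') (y (b + b') * c) = dc (c * y b') (y b' * c) := by
      rw [hy, mul_assoc, mul_assoc, dc_mul_left]
    omega
  have h1 := key1 (y (b + b'))
  have h2 := key2 (x a)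
  have h3 := key2 (x a')
  rw [add_zero]
  exact_mod_cast (by omega : dc (x (a + a') * y (b + b')) (y (b + b') * x (a + a')) ≤
      dc (x a * y b) (y b * x a) + dc (x a * y b') (y b' * x a) +
      dc (x a' * y b) (y b * x a') + dc (x a' * y b') (y b' * x a'))

end

section
variable {A : Type} [CommRing A] [Fintype A]
variable {Z : Type} [Fintype Z] (x y z : A → Equiv.Perm Z)
variable (hx : ∀ a b, x (a + b) = x a * x b) (hy : ∀ a b, y (a + b) = y a * y b)
variable (hz : ∀ a b, z (a + b) = z a * z b)
include hx hy hz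

lemma comm'_add (κ : ℕ) (hxz : ∀ a b, dc (x a * z b) (z b * x a) ≤ κ)
    (hyz : ∀ a b, dc (y a * z b) (z b * y a) ≤ κ) (a a' b b' : A) :
    (dc (x (a + a') * y (b + b')) (z ((a + a') * (b + b')) * y (b + b') * x (a + a')) : ℝ) ≤
      dc (x a * y b) (z (a * b) * y b * x a) + dc (x a * y b') (z (a * b') * y b' * x a) +
      dc (x a' * y b) (z (a' * b) * y b * x a') + dc (x a' * y b') (z (a' * b') * y b' * x a') +
      (3 * κ : ℕ) := by
  have key1 : ∀ c, dc (x (a + a') * y c) (z ((a + a') * c) * y c * x (a + a')) ≤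
      dc (x a' * y c) (z (a' * c) * y c * x a') + dc (x a * y c) (z (a * c) * y c * x a) + κ := by
    intro c
    have h1 := dc_triangle (x (a + a') * y c) (x a * (z (a' * c) * y c * x a'))
      (z ((a + a') * c) * y c * x (a + a'))
    have h2 := dc_triangle (x a * (z (a' * c) * y c * x a')) (z (a' * c) * x a * y c * x a')
      (z ((a + a') * c) * y c * x (a + a'))
    have h3 : dc (x (a + a') * y c) (x a * (z (a' * c) * y c * x a')) =
        dc (x a' * y c) (z (a' * c) * y c * x a') := by
      rw [hx, mul_assoc, dc_mul_left]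
    have h4 : dc (x a * (z (a' * c) * y c * x a')) (z (a' * c) * x a * y c * x a') =
        dc (x a * z (a' * c)) (z (a' * c) * x a) := by
      have e1 : x a * (z (a' * c) * y c * x a') = x a * z (a' * c) * (y c * x a') := by
        simp only [mul_assoc]
      have e2 : z (a' * c) * x a * y c * x a' = z (a' * c) * x a * (y c * x a') := by
        simp only [mul_assoc]
      rw [e1, e2, dc_mul_right]
    have h5 : dc (z (a' * c) * x a * y c * x a') (z ((a + a') * c) * y c * x (a + a')) =
        dc (x a * y c) (z (a * c) * y c * x a) := by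
      have e1 : z (a' * c) * x a * y c * x a' = z (a' * c) * (x a * y c) * x a' := by
        simp only [mul_assoc]
      have e2 : z ((a + a') * c) * y c * x (a + a') =
          z (a' * c) * (z (a * c) * y c * x a) * x a' := by
        rw [add_mul, add_comm, hz, hx]; simp only [mul_assoc]
      rw [e1, e2, dc_mul_right, dc_mul_left]
    have h6 := hxz a (a' * c)
    omega
  have key2 : ∀ c, dc (x c * y (b + b')) (z (c * (b + b')) * y (b + b') * x c) ≤
      dc (x c * y b) (z (c * b) * y b * x c) + dc (x c * y b') (z (c * b') * y b' * x c) + κ := by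
    intro c
    have h1 := dc_triangle (x c * y (b + b')) (z (c * b) * y b * x c * y b')
      (z (c * (b + b')) * y (b + b') * x c)
    have h2 := dc_triangle (z (c * b) * y b * x c * y b')
      (z (c * b) * y b * (z (c * b') * y b' * x c)) (z (c * (b + b')) * y (b + b') * x c)
    have h3 : dc (x c * y (b + b')) (z (c * b) * y b * x c * y b') =
        dc (x c * y b) (z (c * b) * y b * x c) := by
      rw [hy, ← mul_assoc, dc_mul_right]
    have h4 : dc (z (c * b) * y b * x c * y b') (z (c * b) * y b * (z (c * b') * y b' * x c)) =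
        dc (x c * y b') (z (c * b') * y b' * x c) := by
      rw [mul_assoc _ (x c), dc_mul_left]
    have h5 : dc (z (c * b) * y b * (z (c * b') * y b' * x c))
        (z (c * (b + b')) * y (b + b') * x c) =
        dc (y b * z (c * b')) (z (c * b') * y b) := by
      have e1 : z (c * b) * y b * (z (c * b') * y b' * x c) =
          z (c * b) * (y b * z (c * b')) * (y b' * x c) := by
        simp only [mul_assoc]
      have e2 : z (c * (b + b')) * y (b + b') * x c =
          z (c * b) * (z (c * b') * y b) * (y b' * x c) := by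
        rw [mul_add, hz, hy]; simp only [mul_assoc]
      rw [e1, e2, dc_mul_right, dc_mul_left]
    have h6 := hyz b (c * b')
    omega
  have h1 := key1 (b + b')
  have h2 := key2 a
  have h3 := key2 a'
  exact_mod_cast (by omega :
    dc (x (a + a') * y (b + b')) (z ((a + a') * (b + b')) * y (b + b') * x (a + a')) ≤
      dc (x a * y b) (z (a * b) * y b * x a) + dc (x a * y b') (z (a * b') * y b' * x a) +
      dc (x a' * y b) (z (a' * b) * y b * x a') + dc (x a' * y b') (z (a' * b') * y b' * x a') +
      3 * κ)

end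

end Pool.Agent.Helper92.Ch
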