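import Pool.Agent.Helper92.Ch.ThmB
import Pool.Agent.Helper92.Ch.Embed
import Pool.Agent.Helper92.Ch.SelfCorr

/-!
From a cochain with small average defect to a datum with uniformly small defects.
-/

set_option autoImplicit false
set_option linter.unusedSectionVars false

namespace Pool.Agent.Helper92.Ch

open Equiv.Perm

section one

variable {n p : ℕ} [hp : Fact p.Prime] {m : ℕ} (α : Gens n p → Equiv.Perm (Fin m))

/-- Local defect of the additivity relator. -/
noncomputable def dA (q : Pairs n) (a b : ZMod p) : ℝ :=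
  dc (α (q, a) * α (q, b)) (α (q, a + b))

/-- Local defect of the commutator relator. -/
noncomputable def dB (Q : Quads n) (a b : ZMod p) : ℝ :=
  if Q.1.1.2 = Q.1.2.1 then
    dc (α (⟨Q.1.1, Q.2.1⟩, a) * α (⟨Q.1.2, Q.2.2.1⟩, b))
      (α (⟨(Q.1.1.1, Q.1.2.2), Q.2.2.2⟩, a * b) * α (⟨Q.1.2, Q.2.2.1⟩, b) *
        α (⟨Q.1.1, Q.2.1⟩, a))
  else
    dc (α (⟨Q.1.1, Q.2.1⟩, a) * α (⟨Q.1.2, Q.2.2.1⟩, b))
      (α (⟨Q.1.2, Q.2.2.1⟩, b) * α (⟨Q.1.1, Q.2.1⟩, a))

lemma dA_nonneg (q : Pairs n) (a b : ZMod p) : 0 ≤ dA α q a b := by unfold dA; positivity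

lemma dB_nonneg (Q : Quads n) (a b : ZMod p) : 0 ≤ dB α Q a b := by
  unfold dB; split_ifs <;> positivity

lemma dc_rel_inl (q : Pairs n) (a b : ZMod p) :
    (dc (FreeGroup.lift α (steinberg n p (Sum.inl (q, a, b)))) 1 : ℝ) = dA α q a b := by
  unfold dA
  rw [← dc_eq_one (α (q, a) * α (q, b))]
  simp only [steinberg, U, map_mul, map_inv, FreeGroup.lift_apply_of]

lemma dc_rel_inr (Q : Quads n) (a b : ZMod p) :
    (dc (FreeGroup.lift α (steinberg n p (Sum.inr (Q, a, b)))) 1 : ℝ) = dB α Q a b := by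
  unfold dB
  by_cases h : Q.1.1.2 = Q.1.2.1
  · rw [if_pos h, ← dc_eq_one (α (⟨Q.1.1, Q.2.1⟩, a) * α (⟨Q.1.2, Q.2.2.1⟩, b))]
    simp only [steinberg, U, if_pos h, map_mul, map_inv, FreeGroup.lift_apply_of, mul_inv_rev,
      mul_assoc]
  · rw [if_neg h, ← dc_eq_one (α (⟨Q.1.1, Q.2.1⟩, a) * α (⟨Q.1.2, Q.2.2.1⟩, b))]
    simp only [steinberg, U, if_neg h, map_mul, map_inv, FreeGroup.lift_apply_of, mul_inv_rev,
      mul_assoc]

/-- The number of relator families. -/
def cn (n : ℕ) : ℕ := Fintype.card (Pairs n) + Fintype.card (Quads n)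

lemma card_Rels : Fintype.card (Rels n p) = cn n * p ^ 2 := by
  unfold cn Rels
  simp only [Fintype.card_sum, Fintype.card_prod, ZMod.card]
  ring

lemma sum_defect (hm : 0 < m) (hcn : 0 < cn n) :
    (∑ q, ∑ a, ∑ b, dA α q a b) + (∑ Q, ∑ a, ∑ b, dB α Q a b) =
      ((m : ℝ) * cn n * defect (steinberg n p) α) * (p : ℝ) ^ 2 := by
  have hp0 : (0 : ℝ) < p := by exact_mod_cast hp.out.pos
  have hc0 : (0 : ℝ) < cn n := by exact_mod_cast hcn
  have h1 : (m : ℝ) * ∑ r : Rels n p, hdist (FreeGroup.lift α (steinberg n p r)) (1 : Equiv.Perm (Fin m)) =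
      (∑ q, ∑ a, ∑ b, dA α q a b) + (∑ Q, ∑ a, ∑ b, dB α Q a b) := by
    rw [Finset.mul_sum]
    simp only [hdist_same hm]
    rw [Fintype.sum_sum_type]
    congr 1
    · rw [Fintype.sum_prod_type]
      refine Finset.sum_congr rfl fun q _ => ?_
      rw [Fintype.sum_prod_type]
      exact Finset.sum_congr rfl fun a _ => Finset.sum_congr rfl fun b _ => dc_rel_inl α q a b
    · rw [Fintype.sum_prod_type]
      refine Finset.sum_congr rfl fun q _ => ?_
      rw [Fintype.sum_prod_type]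
      exact Finset.sum_congr rfl fun a _ => Finset.sum_congr rfl fun b _ => dc_rel_inr α q a b
  rw [← h1]
  unfold defect
  rw [card_Rels]
  push_cast
  field_simp

end one

section two

variable {p : ℕ} [hp : Fact p.Prime] {m : ℕ}

/-- Rounding a single root subgroup. -/
lemma round_one (x : ZMod p → Equiv.Perm (Fin m)) (D : ℝ) (hD : 0 ≤ D)
    (h : ∑ a, ∑ b, (dc (x a * x b) (x (a + b)) : ℝ) ≤ D * (p : ℝ) ^ 2) {M : ℕ} (hmM : m ≤ M)
    (hM : M = m + ⌊6 * D⌋₊) :
    ∃ ψ : ZMod p → Equiv.Perm (Fin M), (∀ a b, ψ (a + b) = ψ a * ψ b) ∧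
      ∑ a, (dc (ψ a) (viaEmbeddingHom (cE hmM) (x a)) : ℝ) ≤ 50 * D * p := by
  classical
  have hp0 : (0 : ℝ) < p := by exact_mod_cast hp.out.pos
  set f : Multiplicative (ZMod p) → Equiv.Perm (Fin m) := fun g => x g.toAdd with hf
  have hcard : (Fintype.card (Multiplicative (ZMod p)) : ℝ) = p := by
    rw [Fintype.card_multiplicative, ZMod.card]
  have hsum : ∀ G : Multiplicative (ZMod p) → ℝ, ∑ g, G g = ∑ a : ZMod p, G (Multiplicative.ofAdd a) :=
    fun G => Fintype.sum_equiv Multiplicative.toAdd _ _ (fun g => rfl)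
  set S : ZMod p → ℝ := fun b => ∑ a, (dc (x a * x b) (x (a + b)) : ℝ) with hS
  have hS' : ∀ b, ∑ g : Multiplicative (ZMod p),
      (dc (f (g * Multiplicative.ofAdd b)) (f g * f (Multiplicative.ofAdd b)) : ℝ) = S b := by
    intro b
    rw [hsum, hS]
    refine Finset.sum_congr rfl fun a _ => ?_
    rw [dc_comm]
    rfl
  have hStot : ∑ b, S b ≤ D * (p : ℝ) ^ 2 := by
    rw [hS, Finset.sum_comm]; exact h
  obtain ⟨Y, hY, j, φ, h1, h2⟩ := stability' f D (by
    rw [hcard, hsum]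
    simp only [hS']
    exact hStot)
  have hYM : Fintype.card Y ≤ M := by
    rw [Fintype.card_fin] at h1
    rw [hM]
    by_cases hc : m ≤ Fintype.card Y
    · obtain ⟨k, hk⟩ := Nat.exists_eq_add_of_le hc
      rw [hk] at h1 ⊢
      push_cast at h1
      have : k ≤ ⌊6 * D⌋₊ := Nat.le_floor (by linarith)
      omega
    · omega
  have hMr : (M : ℝ) ≤ m + 6 * D := by
    rw [hM]; push_cast
    have := Nat.floor_le (show 0 ≤ 6 * D by positivity)
    linarith
  obtain ⟨i, hi⟩ := exists_embed hmM j hYM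
  refine ⟨fun a => viaEmbeddingHom i (φ (Multiplicative.ofAdd a)), fun a b => ?_, ?_⟩
  · show viaEmbeddingHom i (φ (Multiplicative.ofAdd (a + b))) = _
    rw [ofAdd_add, map_mul, map_mul]
  · have h3 : ∀ a, (dc (viaEmbeddingHom i (φ (Multiplicative.ofAdd a)))
        (viaEmbeddingHom (cE hmM) (x a)) : ℝ) ≤ 46 * D + 4 * S a / p := by
      intro a
      have h4 := dc_via i j (cE hmM) hi (φ (Multiplicative.ofAdd a)) (x a)
      rw [Fintype.card_fin, Fintype.card_fin] at h4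
      have h5 : (dc (viaEmbeddingHom i (φ (Multiplicative.ofAdd a)))
        (viaEmbeddingHom (cE hmM) (x a)) : ℝ) + m ≤ ec j (φ (Multiplicative.ofAdd a)) (x a) + M := by
        exact_mod_cast h4
      have h6 := h2 (Multiplicative.ofAdd a)
      rw [hS', hcard] at h6
      have h7 : f (Multiplicative.ofAdd a) = x a := rfl
      rw [h7] at h6
      linarith
    calc _ ≤ ∑ a, (46 * D + 4 * S a / p) := Finset.sum_le_sum fun a _ => h3 a
      _ = 46 * D * p + 4 * (∑ a, S a) / p := by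
        rw [Finset.sum_add_distrib, ← Finset.sum_div, Finset.mul_sum]
        simp only [Finset.sum_const, Finset.card_univ, ZMod.card, nsmul_eq_mul]
        ring
      _ ≤ 46 * D * p + 4 * (D * (p : ℝ) ^ 2) / p := by gcongr
      _ = 50 * D * p := by field_simp; ring

end two

section three

variable {p : ℕ} [hp : Fact p.Prime] {X X' : Type} [Fintype X] [Fintype X'] (c : X' ↪ X)
variable (x y z : ZMod p → Equiv.Perm X) (x' y' z' : ZMod p → Equiv.Perm X') (E F : ℝ)

lemma sum_const_left (f : ZMod p → ℝ) : ∑ _a : ZMod p, ∑ b, f b = p * ∑ b, f b := by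
  rw [Finset.sum_const, Finset.card_univ, ZMod.card, nsmul_eq_mul]

lemma sum_const_right (f : ZMod p → ℝ) : ∑ a, ∑ _b : ZMod p, f a = p * ∑ a, f a := by
  simp only [Finset.sum_const, Finset.card_univ, ZMod.card, nsmul_eq_mul]
  rw [Finset.mul_sum]

lemma sum_mul_le (f : ZMod p → ℝ) (hf : ∀ a, 0 ≤ f a) :
    ∑ a : ZMod p, ∑ b : ZMod p, f (a * b) ≤ 2 * p * ∑ b, f b := by
  classical
  have hT : 0 ≤ ∑ b, f b := Finset.sum_nonneg fun b _ => hf b
  have h1 : ∀ a : ZMod p, ∑ b : ZMod p, f (a * b) ≤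
      (if a = 0 then (p : ℝ) * ∑ b, f b else 0) + ∑ b, f b := by
    intro a
    by_cases ha : a = 0
    · subst ha
      simp only [zero_mul, if_true, Finset.sum_const, Finset.card_univ, ZMod.card, nsmul_eq_mul]
      have : f 0 ≤ ∑ b, f b := Finset.single_le_sum (fun b _ => hf b) (Finset.mem_univ 0)
      have hp0 : (0 : ℝ) ≤ p := by positivity
      nlinarith
    · rw [if_neg ha, zero_add]
      exact le_of_eq (Fintype.sum_equiv (Equiv.mulLeft₀ a ha) _ _ (fun b => rfl))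
  calc _ ≤ ∑ a : ZMod p, ((if a = 0 then (p : ℝ) * ∑ b, f b else 0) + ∑ b, f b) :=
        Finset.sum_le_sum fun a _ => h1 a
    _ = 2 * p * ∑ b, f b := by
      rw [Finset.sum_add_distrib]
      simp only [Finset.sum_ite_eq', Finset.mem_univ, if_true, Finset.sum_const, Finset.card_univ,
        ZMod.card, nsmul_eq_mul]
      ring

lemma comm_sum (hx : ∑ a, (dc (x a) (viaEmbeddingHom c (x' a)) : ℝ) ≤ E)
    (hy : ∑ a, (dc (y a) (viaEmbeddingHom c (y' a)) : ℝ) ≤ E)
    (h : ∑ a, ∑ b, (dc (x' a * y' b) (y' b * x' a) : ℝ) ≤ F) :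
    ∑ a, ∑ b, (dc (x a * y b) (y b * x a) : ℝ) ≤ F + 4 * p * E := by
  have hp0 : (0 : ℝ) ≤ p := by positivity
  have h1 : ∀ a b, (dc (x a * y b) (y b * x a) : ℝ) ≤ dc (x' a * y' b) (y' b * x' a) +
      2 * dc (x a) (viaEmbeddingHom c (x' a)) + 2 * dc (y b) (viaEmbeddingHom c (y' b)) := by
    intro a b
    have t1 := dc_triangle (x a * y b) (viaEmbeddingHom c (x' a * y' b)) (y b * x a)
    have t2 := dc_triangle (viaEmbeddingHom c (x' a * y' b)) (viaEmbeddingHom c (y' b * x' a))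
      (y b * x a)
    have t3 : dc (x a * y b) (viaEmbeddingHom c (x' a * y' b)) ≤
        dc (x a) (viaEmbeddingHom c (x' a)) + dc (y b) (viaEmbeddingHom c (y' b)) := by
      rw [map_mul]; exact dc_mul _ _ _ _
    have t4 : dc (viaEmbeddingHom c (y' b * x' a)) (y b * x a) ≤
        dc (y b) (viaEmbeddingHom c (y' b)) + dc (x a) (viaEmbeddingHom c (x' a)) := by
      rw [map_mul, dc_comm]; exact dc_mul _ _ _ _
    have t5 := dc_via_le c (x' a * y' b) (y' b * x' a)
    exact_mod_cast (by omega : dc (x a * y b) (y b * x a) ≤ dc (x' a * y' b) (y' b * x' a) +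
      2 * dc (x a) (viaEmbeddingHom c (x' a)) + 2 * dc (y b) (viaEmbeddingHom c (y' b)))
  calc _ ≤ ∑ a, ∑ b, ((dc (x' a * y' b) (y' b * x' a) : ℝ) +
      2 * dc (x a) (viaEmbeddingHom c (x' a)) + 2 * dc (y b) (viaEmbeddingHom c (y' b))) :=
        Finset.sum_le_sum fun a _ => Finset.sum_le_sum fun b _ => h1 a b
    _ = ∑ a, ∑ b, (dc (x' a * y' b) (y' b * x' a) : ℝ) +
        2 * (p * ∑ a, (dc (x a) (viaEmbeddingHom c (x' a)) : ℝ)) +
        2 * (p * ∑ b, (dc (y b) (viaEmbeddingHom c (y' b)) : ℝ)) := by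
      rw [← sum_const_right (fun a => (dc (x a) (viaEmbeddingHom c (x' a)) : ℝ)),
        ← sum_const_left (fun b => (dc (y b) (viaEmbeddingHom c (y' b)) : ℝ))]
      simp only [Finset.sum_add_distrib, ← Finset.mul_sum]
    _ ≤ F + 2 * (p * E) + 2 * (p * E) := by gcongr
    _ = _ := by ring

lemma comm'_sum (hx : ∑ a, (dc (x a) (viaEmbeddingHom c (x' a)) : ℝ) ≤ E)
    (hy : ∑ a, (dc (y a) (viaEmbeddingHom c (y' a)) : ℝ) ≤ E)
    (hz : ∑ a, (dc (z a) (viaEmbeddingHom c (z' a)) : ℝ) ≤ E)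
    (h : ∑ a, ∑ b, (dc (x' a * y' b) (z' (a * b) * y' b * x' a) : ℝ) ≤ F) :
    ∑ a, ∑ b, (dc (x a * y b) (z (a * b) * y b * x a) : ℝ) ≤ F + 6 * p * E := by
  have hp0 : (0 : ℝ) ≤ p := by positivity
  have h1 : ∀ a b, (dc (x a * y b) (z (a * b) * y b * x a) : ℝ) ≤
      dc (x' a * y' b) (z' (a * b) * y' b * x' a) +
      2 * dc (x a) (viaEmbeddingHom c (x' a)) + 2 * dc (y b) (viaEmbeddingHom c (y' b)) +
      dc (z (a * b)) (viaEmbeddingHom c (z' (a * b))) := by
    intro a b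
    have t1 := dc_triangle (x a * y b) (viaEmbeddingHom c (x' a * y' b)) (z (a * b) * y b * x a)
    have t2 := dc_triangle (viaEmbeddingHom c (x' a * y' b))
      (viaEmbeddingHom c (z' (a * b) * y' b * x' a)) (z (a * b) * y b * x a)
    have t3 : dc (x a * y b) (viaEmbeddingHom c (x' a * y' b)) ≤
        dc (x a) (viaEmbeddingHom c (x' a)) + dc (y b) (viaEmbeddingHom c (y' b)) := by
      rw [map_mul]; exact dc_mul _ _ _ _
    have t4 : dc (viaEmbeddingHom c (z' (a * b) * y' b * x' a)) (z (a * b) * y b * x a) ≤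
        dc (z (a * b)) (viaEmbeddingHom c (z' (a * b))) +
        dc (y b) (viaEmbeddingHom c (y' b)) + dc (x a) (viaEmbeddingHom c (x' a)) := by
      rw [map_mul, map_mul, dc_comm]
      refine le_trans (dc_mul _ _ _ _) (Nat.add_le_add_right (dc_mul _ _ _ _) _)
    have t5 := dc_via_le c (x' a * y' b) (z' (a * b) * y' b * x' a)
    exact_mod_cast (by omega : dc (x a * y b) (z (a * b) * y b * x a) ≤
      dc (x' a * y' b) (z' (a * b) * y' b * x' a) +
      2 * dc (x a) (viaEmbeddingHom c (x' a)) + 2 * dc (y b) (viaEmbeddingHom c (y' b)) +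
      dc (z (a * b)) (viaEmbeddingHom c (z' (a * b))))
  have h2 := sum_mul_le (fun a => (dc (z a) (viaEmbeddingHom c (z' a)) : ℝ))
    (fun a => Nat.cast_nonneg _)
  calc _ ≤ ∑ a, ∑ b, ((dc (x' a * y' b) (z' (a * b) * y' b * x' a) : ℝ) +
      2 * dc (x a) (viaEmbeddingHom c (x' a)) + 2 * dc (y b) (viaEmbeddingHom c (y' b)) +
      dc (z (a * b)) (viaEmbeddingHom c (z' (a * b)))) :=
        Finset.sum_le_sum fun a _ => Finset.sum_le_sum fun b _ => h1 a b
    _ = ∑ a, ∑ b, (dc (x' a * y' b) (z' (a * b) * y' b * x' a) : ℝ) +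
        2 * (p * ∑ a, (dc (x a) (viaEmbeddingHom c (x' a)) : ℝ)) +
        2 * (p * ∑ b, (dc (y b) (viaEmbeddingHom c (y' b)) : ℝ)) +
        ∑ a, ∑ b, (dc (z (a * b)) (viaEmbeddingHom c (z' (a * b))) : ℝ) := by
      rw [← sum_const_right (fun a => (dc (x a) (viaEmbeddingHom c (x' a)) : ℝ)),
        ← sum_const_left (fun b => (dc (y b) (viaEmbeddingHom c (y' b)) : ℝ))]
      simp only [Finset.sum_add_distrib, ← Finset.mul_sum]
    _ ≤ F + 2 * (p * E) + 2 * (p * E) + 2 * p * E := by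
      have h3 : 2 * (p : ℝ) * ∑ a, (dc (z a) (viaEmbeddingHom c (z' a)) : ℝ) ≤ 2 * p * E := by
        gcongr
      have h4 := h2.trans h3
      gcongr
    _ = _ := by ring

end three

end Pool.Agent.Helper92.Ch
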