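import Mathlib

/-!
Steinberg systems: elements `x i j a` of a group satisfying the Steinberg relations.
-/

set_option autoImplicit false

universe u v w

namespace Pool.Agent.Helper92.Ch

/-- Elements of a group satisfying the Steinberg relations. -/
structure StSys (ι : Type u) (K : Type v) (G : Type w) [Field K] [Group G] where
  /-- the elements -/
  x : ι → ι → K → G
  add : ∀ {i j : ι}, i ≠ j → ∀ a b, x i j (a + b) = x i j a * x i j b
  comm : ∀ {i j k l : ι}, i ≠ j → k ≠ l → j ≠ k → i ≠ l → ∀ a b,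
    x i j a * x k l b = x k l b * x i j a
  comm' : ∀ {i j l : ι}, i ≠ j → j ≠ l → i ≠ l → ∀ a b,
    x i j a * x j l b = x i l (a * b) * x j l b * x i j a

namespace StSys

variable {ι : Type u} {K : Type v} {G : Type w} [Field K] [Group G] (S : StSys ι K G)
variable {i j k l : ι}

lemma zero (h : i ≠ j) : S.x i j 0 = 1 := by
  have := S.add h 0 0
  rw [add_zero] at this
  exact left_eq_mul.mp this

lemma neg (h : i ≠ j) (a : K) : S.x i j (-a) = (S.x i j a)⁻¹ := by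
  rw [eq_inv_iff_mul_eq_one, ← S.add h, neg_add_cancel, S.zero h]

/-- Conjugation. -/
def cj (g y : G) : G := g * y * g⁻¹

lemma cj_mul (g y z : G) : cj g (y * z) = cj g y * cj g z := by unfold cj; group
lemma mul_cj (g h y : G) : cj (g * h) y = cj g (cj h y) := by unfold cj; group
lemma cj_inv (g y : G) : cj g y⁻¹ = (cj g y)⁻¹ := by unfold cj; group
lemma cj_one (g : G) : cj g 1 = 1 := by unfold cj; group
lemma cj_eq {g y z : G} (h : g * y = z * g) : cj g y = z := by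
  unfold cj; rw [h]; group
lemma cj_eq' {g y z : G} (h : cj g y = z) : g * y = z * g := by
  rw [← h]; unfold cj; group
lemma cj_inj {g y z : G} (h : cj g y = cj g z) : y = z := by
  unfold cj at h; simpa using h

lemma cj_comm (h1 : i ≠ j) (h2 : k ≠ l) (h3 : j ≠ k) (h4 : i ≠ l) (a b : K) :
    cj (S.x i j a) (S.x k l b) = S.x k l b := cj_eq (S.comm h1 h2 h3 h4 a b)

/-- conjugating `x j l` by `x i j` -/
lemma cj_l (h1 : i ≠ j) (h2 : j ≠ l) (h3 : i ≠ l) (a b : K) :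
    cj (S.x i j a) (S.x j l b) = S.x i l (a * b) * S.x j l b := cj_eq (S.comm' h1 h2 h3 a b)

/-- conjugating `x k i` by `x i j` -/
lemma cj_r (h1 : k ≠ i) (h2 : i ≠ j) (h3 : k ≠ j) (a b : K) :
    cj (S.x i j a) (S.x k i b) = S.x k j (-(b * a)) * S.x k i b := by
  apply cj_eq
  have := S.comm' h1 h2 h3 b a
  rw [S.neg h3, mul_assoc, this]
  group

/-- Weyl elements. -/
def wl (i j : ι) (u : K) : G := S.x i j u * S.x j i (-u⁻¹) * S.x i j u

lemma wl_inv (h : i ≠ j) (u : K) : (S.wl i j u)⁻¹ = S.wl i j (-u) := by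
  unfold wl
  rw [mul_inv_rev, mul_inv_rev, ← S.neg h, ← S.neg h.symm, inv_neg, mul_assoc]

variable {u : K}

lemma cj_wl_jk (h1 : i ≠ j) (h2 : j ≠ k) (h3 : i ≠ k) (hu : u ≠ 0) (a : K) :
    cj (S.wl i j u) (S.x j k a) = S.x i k (u * a) := by
  unfold wl
  rw [mul_cj, mul_cj, S.cj_l h1 h2 h3, cj_mul, S.cj_l h1.symm h3 h2,
    S.cj_comm h1.symm h2 h1 h2, mul_assoc, S.comm h3 h2 h2.symm h3, ← mul_assoc, ← S.add h2]
  have e1 : -u⁻¹ * (u * a) + a = 0 := by field_simp; ring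
  rw [e1, S.zero h2, one_mul, S.cj_comm h1 h3 h1.symm h3]

lemma cj_wl_ik (h1 : i ≠ j) (h2 : j ≠ k) (h3 : i ≠ k) (hu : u ≠ 0) (a : K) :
    cj (S.wl i j u) (S.x i k a) = S.x j k (-(u⁻¹ * a)) := by
  unfold wl
  rw [mul_cj, mul_cj, S.cj_comm h1 h3 h1.symm h3, S.cj_l h1.symm h3 h2, cj_mul,
    S.cj_comm h1 h3 h1.symm h3, S.cj_l h1 h2 h3, mul_assoc, S.comm h2 h3 h3.symm h2, ← mul_assoc,
    ← S.add h3]
  have e1 : u * (-u⁻¹ * a) + a = 0 := by field_simp; ring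
  rw [e1, S.zero h3, one_mul, neg_mul]

lemma cj_wl_ki (h1 : i ≠ j) (h2 : j ≠ k) (h3 : i ≠ k) (hu : u ≠ 0) (a : K) :
    cj (S.wl i j u) (S.x k i a) = S.x k j (-(u * a)) := by
  unfold wl
  rw [mul_cj, mul_cj, S.cj_r h3.symm h1 h2.symm, cj_mul, S.cj_r h2.symm h1.symm h3.symm,
    S.cj_comm h1.symm h3.symm h3 h1.symm, mul_assoc, S.comm h2.symm h3.symm h2 h3.symm,
    ← mul_assoc, ← S.add h3.symm]
  have e1 : -(-(a * u) * -u⁻¹) + a = 0 := by field_simp; ring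
  rw [e1, S.zero h3.symm, one_mul, S.cj_comm h1 h2.symm h2 h1, mul_comm a u]

lemma cj_wl_kj (h1 : i ≠ j) (h2 : j ≠ k) (h3 : i ≠ k) (hu : u ≠ 0) (a : K) :
    cj (S.wl i j u) (S.x k j a) = S.x k i (u⁻¹ * a) := by
  unfold wl
  rw [mul_cj, mul_cj, S.cj_comm h1 h2.symm h2 h1, S.cj_r h2.symm h1.symm h3.symm, cj_mul,
    S.cj_r h3.symm h1 h2.symm, S.cj_comm h1 h2.symm h2 h1, mul_assoc,
    S.comm h3.symm h2.symm h3 h2.symm, ← mul_assoc, ← S.add h2.symm]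
  have e1 : -(-(a * -u⁻¹) * u) + a = 0 := by field_simp; ring
  rw [e1, S.zero h2.symm, one_mul]
  congr 1; ring

lemma cj_wl_kl (h1 : i ≠ j) (hik : i ≠ k) (hjk : j ≠ k) (hil : i ≠ l) (hjl : j ≠ l) (hkl : k ≠ l)
    (a : K) : cj (S.wl i j u) (S.x k l a) = S.x k l a := by
  unfold wl
  rw [mul_cj, mul_cj, S.cj_comm h1 hkl hjk hil, S.cj_comm h1.symm hkl hik hjl,
    S.cj_comm h1 hkl hjk hil]

lemma x_eq_comm (h1 : i ≠ j) (h2 : j ≠ k) (h3 : i ≠ k) (a : K) :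
    S.x i j a = S.x i k a * S.x k j 1 * (S.x i k a)⁻¹ * (S.x k j 1)⁻¹ := by
  have := S.comm' h3 h2.symm h1 a 1
  rw [mul_one] at this
  rw [this]; group

lemma cj_wl_ij (h1 : i ≠ j) (h2 : j ≠ k) (h3 : i ≠ k) (hu : u ≠ 0) (a : K) :
    cj (S.wl i j u) (S.x i j a) = S.x j i (-(u⁻¹ * u⁻¹ * a)) := by
  rw [S.x_eq_comm h1 h2 h3, cj_mul, cj_mul, cj_mul, cj_inv, cj_inv, S.cj_wl_ik h1 h2 h3 hu,
    S.cj_wl_kj h1 h2 h3 hu]
  have := S.comm' h2 h3.symm h1.symm (-(u⁻¹ * a)) (u⁻¹ * 1)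
  rw [this]
  have e1 : -(u⁻¹ * a) * (u⁻¹ * 1) = -(u⁻¹ * u⁻¹ * a) := by ring
  rw [e1]; group

lemma cj_wl_ji (h1 : i ≠ j) (h2 : j ≠ k) (h3 : i ≠ k) (hu : u ≠ 0) (a : K) :
    cj (S.wl i j u) (S.x j i a) = S.x i j (-(u * u * a)) := by
  rw [S.x_eq_comm h1.symm h3 h2, cj_mul, cj_mul, cj_mul, cj_inv, cj_inv, S.cj_wl_jk h1 h2 h3 hu,
    S.cj_wl_ki h1 h2 h3 hu]
  have := S.comm' h3 h2.symm h1 (u * a) (-(u * 1))
  rw [this]
  have e1 : u * a * -(u * 1) = -(u * u * a) := by ring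
  rw [e1]; group

/-- Conjugating a Weyl element. -/
lemma cj_wl_wl_jk (h1 : i ≠ j) (h2 : j ≠ k) (h3 : i ≠ k) (hu : u ≠ 0) (s : K) :
    cj (S.wl i j u) (S.wl j k s) = S.wl i k (u * s) := by
  have e1 : u⁻¹ * -s⁻¹ = -(u * s)⁻¹ := by rw [mul_inv]; ring
  unfold wl
  rw [cj_mul, cj_mul, ← wl, S.cj_wl_jk h1 h2 h3 hu, S.cj_wl_kj h1 h2 h3 hu, e1]

lemma cj_wl_wl (h1 : i ≠ j) (h2 : j ≠ k) (h3 : i ≠ k) (hu : u ≠ 0) {v : K} (hv : v ≠ 0) :
    cj (S.wl i j u) (S.wl i j v) = S.wl j i (-(u⁻¹ * u⁻¹ * v)) := by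
  have e1 : -(u * u * -v⁻¹) = -(-(u⁻¹ * u⁻¹ * v))⁻¹ := by field_simp
  unfold wl
  rw [cj_mul, cj_mul, ← wl, S.cj_wl_ij h1 h2 h3 hu, S.cj_wl_ji h1 h2 h3 hu, e1]

lemma wl_symm (h1 : i ≠ j) (h2 : j ≠ k) (h3 : i ≠ k) (hu : u ≠ 0) :
    S.wl i j u = S.wl j i (-u⁻¹) := by
  have e1 : -(u⁻¹ * u⁻¹ * u) = -u⁻¹ := by field_simp
  have h := S.cj_wl_wl h1 h2 h3 hu hu
  rw [e1] at h
  rw [← h]; unfold cj; group

lemma cj_wl_wl' (h1 : i ≠ j) (h2 : j ≠ k) (h3 : i ≠ k) (hu : u ≠ 0) {v : K} (hv : v ≠ 0) :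
    cj (S.wl i j u) (S.wl i j v) = S.wl i j (u * u * v⁻¹) := by
  rw [S.cj_wl_wl h1 h2 h3 hu hv, S.wl_symm (u := u * u * v⁻¹) h1 h2 h3 (by positivity)]
  congr 1
  field_simp

/-- Diagonal elements. -/
def hl (i j : ι) (u : K) : G := S.wl i j u * S.wl i j (-1)

lemma wl_eq (h1 : i ≠ j) (u : K) : S.wl i j u = S.hl i j u * S.wl i j 1 := by
  unfold hl
  rw [mul_assoc, ← S.wl_inv h1 1, inv_mul_cancel, mul_one]

lemma hl_one (h1 : i ≠ j) : S.hl i j 1 = 1 := by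
  unfold hl
  rw [← S.wl_inv h1 1, mul_inv_cancel]

lemma hl_inv (h1 : i ≠ j) (u : K) : (S.hl i j u)⁻¹ = S.wl i j 1 * S.wl i j (-u) := by
  unfold hl
  rw [mul_inv_rev, S.wl_inv h1, S.wl_inv h1, neg_neg]

lemma neg_one_ne : (-1 : K) ≠ 0 := neg_ne_zero.mpr one_ne_zero

lemma cj_hl_ij (h1 : i ≠ j) (h2 : j ≠ k) (h3 : i ≠ k) (hu : u ≠ 0) (a : K) :
    cj (S.hl i j u) (S.x i j a) = S.x i j (u * u * a) := by
  unfold hl
  rw [mul_cj, S.cj_wl_ij h1 h2 h3 neg_one_ne, S.cj_wl_ji h1 h2 h3 hu]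
  congr 1
  field_simp

lemma cj_hl_ji (h1 : i ≠ j) (h2 : j ≠ k) (h3 : i ≠ k) (hu : u ≠ 0) (a : K) :
    cj (S.hl i j u) (S.x j i a) = S.x j i (u⁻¹ * u⁻¹ * a) := by
  unfold hl
  rw [mul_cj, S.cj_wl_ji h1 h2 h3 neg_one_ne, S.cj_wl_ij h1 h2 h3 hu]
  congr 1
  field_simp

lemma cj_hl_ik (h1 : i ≠ j) (h2 : j ≠ k) (h3 : i ≠ k) (hu : u ≠ 0) (a : K) :
    cj (S.hl i j u) (S.x i k a) = S.x i k (u * a) := by
  unfold hl
  rw [mul_cj, S.cj_wl_ik h1 h2 h3 neg_one_ne, S.cj_wl_jk h1 h2 h3 hu]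
  congr 1
  field_simp

lemma cj_hl_jk (h1 : i ≠ j) (h2 : j ≠ k) (h3 : i ≠ k) (hu : u ≠ 0) (a : K) :
    cj (S.hl i j u) (S.x j k a) = S.x j k (u⁻¹ * a) := by
  unfold hl
  rw [mul_cj, S.cj_wl_jk h1 h2 h3 neg_one_ne, S.cj_wl_ik h1 h2 h3 hu]
  congr 1
  ring

lemma cj_hl_ki (h1 : i ≠ j) (h2 : j ≠ k) (h3 : i ≠ k) (hu : u ≠ 0) (a : K) :
    cj (S.hl i j u) (S.x k i a) = S.x k i (u⁻¹ * a) := by
  unfold hl
  rw [mul_cj, S.cj_wl_ki h1 h2 h3 neg_one_ne, S.cj_wl_kj h1 h2 h3 hu]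
  congr 1
  ring

lemma cj_hl_kj (h1 : i ≠ j) (h2 : j ≠ k) (h3 : i ≠ k) (hu : u ≠ 0) (a : K) :
    cj (S.hl i j u) (S.x k j a) = S.x k j (u * a) := by
  unfold hl
  rw [mul_cj, S.cj_wl_kj h1 h2 h3 neg_one_ne, S.cj_wl_ki h1 h2 h3 hu]
  congr 1
  field_simp

lemma cj_hl_kl (h1 : i ≠ j) (hik : i ≠ k) (hjk : j ≠ k) (hil : i ≠ l) (hjl : j ≠ l) (hkl : k ≠ l)
    (a : K) : cj (S.hl i j u) (S.x k l a) = S.x k l a := by
  unfold hl
  rw [mul_cj, S.cj_wl_kl h1 hik hjk hil hjl hkl, S.cj_wl_kl h1 hik hjk hil hjl hkl]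

/-- The symbol. -/
def sym (i j : ι) (u v : K) : G := S.hl i j (u * v) * (S.hl i j u)⁻¹ * (S.hl i j v)⁻¹

lemma hl_mul (u v : K) : S.hl i j (u * v) = S.sym i j u v * S.hl i j v * S.hl i j u := by
  unfold sym; group

/-- Symbols commute with all generators. -/
lemma cj_sym (h1 : i ≠ j) (h2 : j ≠ k) (h3 : i ≠ k) (hu : u ≠ 0) {v : K} (hv : v ≠ 0)
    {m n : ι} (hmn : m ≠ n) (a : K) : cj (S.sym i j u v) (S.x m n a) = S.x m n a := by
  have huv : u * v ≠ 0 := mul_ne_zero hu hv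
  have key : ∀ f : K → K → K, (∀ t : K, t ≠ 0 → ∀ b, cj (S.hl i j t) (S.x m n b) =
      S.x m n (f t b)) → (∀ s t b, s ≠ 0 → t ≠ 0 → f (s * t) b = f s (f t b)) →
      (∀ s b, s ≠ 0 → f s⁻¹ (f s b) = b ∧ f s (f s⁻¹ b) = b) →
      cj (S.sym i j u v) (S.x m n a) = S.x m n a := by
    intro f hf hm hi
    have hinv : ∀ t : K, t ≠ 0 → ∀ b, cj (S.hl i j t)⁻¹ (S.x m n b) = S.x m n (f t⁻¹ b) := by
      intro t ht b
      apply cj_inj (g := S.hl i j t)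
      rw [← mul_cj, mul_inv_cancel, hf t ht, (hi t b ht).2]
      unfold cj; group
    unfold sym
    rw [mul_cj, mul_cj, hinv v hv, hinv u hu, hf _ huv, hm u v _ hu hv]
    have e1 : f v (f u⁻¹ (f v⁻¹ a)) = f u⁻¹ a := by
      rw [← hm v u⁻¹ _ hv (inv_ne_zero hu), mul_comm v u⁻¹, hm u⁻¹ v _ (inv_ne_zero hu) hv,
        (hi v a hv).2]
    rw [e1, (hi u a hu).2]
  by_cases hmi : m = i
  · subst hmi
    by_cases hnj : n = j
    · subst hnj
      exact key (fun t b => t * t * b) (fun t ht b => S.cj_hl_ij h1 h2 h3 ht b)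
        (fun s t b _ _ => by ring) (fun s b hs => ⟨by field_simp, by field_simp⟩)
    · exact key (fun t b => t * b) (fun t ht b => S.cj_hl_ik h1 (Ne.symm hnj) hmn ht b)
        (fun s t b _ _ => by ring) (fun s b hs => ⟨by field_simp, by field_simp⟩)
  · by_cases hmj : m = j
    · subst hmj
      by_cases hni : n = i
      · subst hni
        exact key (fun t b => t⁻¹ * t⁻¹ * b) (fun t ht b => S.cj_hl_ji h1 h2 h3 ht b)
          (fun s t b _ _ => by rw [mul_inv]; ring) (fun s b hs => ⟨by field_simp, by field_simp⟩)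
      · exact key (fun t b => t⁻¹ * b) (fun t ht b => S.cj_hl_jk h1 hmn (Ne.symm hni) ht b)
          (fun s t b _ _ => by rw [mul_inv]; ring) (fun s b hs => ⟨by field_simp, by field_simp⟩)
    · by_cases hni : n = i
      · subst hni
        exact key (fun t b => t⁻¹ * b)
          (fun t ht b => S.cj_hl_ki h1 (Ne.symm hmj) (Ne.symm hmi) ht b)
          (fun s t b _ _ => by rw [mul_inv]; ring) (fun s b hs => ⟨by field_simp, by field_simp⟩)
      · by_cases hnj : n = j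
        · subst hnj
          exact key (fun t b => t * b)
            (fun t ht b => S.cj_hl_kj h1 (Ne.symm hmj) (Ne.symm hmi) ht b)
            (fun s t b _ _ => by ring) (fun s b hs => ⟨by field_simp, by field_simp⟩)
        · exact key (fun _ b => b)
            (fun t ht b => S.cj_hl_kl h1 (Ne.symm hmi) (Ne.symm hmj) (Ne.symm hni) (Ne.symm hnj)
              hmn b) (fun s t b _ _ => rfl) (fun s b hs => ⟨rfl, rfl⟩)

/-- Elements commuting with all generators. -/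
def Central (z : G) : Prop := ∀ ⦃m n : ι⦄, m ≠ n → ∀ a, z * S.x m n a = S.x m n a * z

lemma central_sym (h1 : i ≠ j) (h2 : j ≠ k) (h3 : i ≠ k) (hu : u ≠ 0) {v : K} (hv : v ≠ 0) :
    S.Central (S.sym i j u v) := fun _ _ hmn a => cj_eq' (S.cj_sym h1 h2 h3 hu hv hmn a)

variable {S} in
lemma Central.wl {z : G} (hz : S.Central z) (h : i ≠ j) (t : K) :
    z * S.wl i j t = S.wl i j t * z := by
  unfold StSys.wl
  rw [← mul_assoc, ← mul_assoc, hz h, mul_assoc _ z, hz h.symm, ← mul_assoc, mul_assoc _ z, hz h]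
  simp only [mul_assoc]

variable {S} in
lemma Central.hl {z : G} (hz : S.Central z) (h : i ≠ j) (t : K) :
    z * S.hl i j t = S.hl i j t * z := by
  unfold StSys.hl
  rw [← mul_assoc, hz.wl h, mul_assoc, hz.wl h, mul_assoc]

lemma cj_hl_hl_ik (h1 : i ≠ j) (h2 : j ≠ k) (h3 : i ≠ k) (hu : u ≠ 0) (v : K) :
    cj (S.hl i k u) (S.hl i j v) = S.sym i j u v * S.hl i j v := by
  have key : ∀ t : K, cj (S.hl i k u) (S.wl i j t) = S.wl i j (u * t) := by
    intro t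
    have e1 : u⁻¹ * -t⁻¹ = -(u * t)⁻¹ := by rw [mul_inv]; ring
    unfold StSys.wl
    rw [cj_mul, cj_mul, S.cj_hl_ik h3 h2.symm h1 hu, S.cj_hl_ki h3 h2.symm h1 hu, e1]
  have e2 : S.hl i j v = S.wl i j v * S.wl i j (-1) := rfl
  rw [e2, cj_mul, key, key, ← e2]
  unfold sym
  have e3 : S.hl i j (u * v) = S.wl i j (u * v) * S.wl i j (-1) := rfl
  rw [inv_mul_cancel_right, S.hl_inv h1, e3, mul_neg, mul_one, ← S.wl_inv h1 1]
  group

variable {S} in
lemma Central.sym {z : G} (hz : S.Central z) (h : i ≠ j) (s t : K) :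
    z * S.sym i j s t = S.sym i j s t * z := by
  have h1 : ∀ r, Commute z (S.hl i j r) := fun r => hz.hl h r
  exact ((h1 (s * t)).mul_right (h1 s).inv_right).mul_right (h1 t).inv_right

lemma sym_mul_right (h1 : i ≠ j) (h2 : j ≠ k) (h3 : i ≠ k) (hu : u ≠ 0) {v v' : K} (hv : v ≠ 0)
    (hv' : v' ≠ 0) : S.sym i j u (v * v') = S.sym i j u v * S.sym i j u v' := by
  have c1 := S.cj_hl_hl_ik h1 h2 h3 hu (v * v')
  rw [S.hl_mul, cj_mul, cj_mul, S.cj_hl_hl_ik h1 h2 h3 hu v, S.cj_hl_hl_ik h1 h2 h3 hu v',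
    cj_eq ((S.central_sym h1 h2 h3 hv hv').hl h3 u).symm] at c1
  -- sym v v' * (sym u v' * h v') * (sym u v * h v) = sym u (v v') * (sym v v' * h v' * h v)
  have z1 := S.central_sym h1 h2 h3 hu hv
  have z2 := S.central_sym h1 h2 h3 hu hv'
  have z3 := S.central_sym h1 h2 h3 hv hv'
  have c2 : S.sym i j v v' * (S.sym i j u v' * S.hl i j v') * (S.sym i j u v * S.hl i j v) =
      (S.sym i j v v' * (S.sym i j u v * S.sym i j u v')) * (S.hl i j v' * S.hl i j v) := by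
    calc S.sym i j v v' * (S.sym i j u v' * S.hl i j v') * (S.sym i j u v * S.hl i j v)
        = S.sym i j v v' * S.sym i j u v' * (S.hl i j v' * S.sym i j u v) * S.hl i j v := by group
      _ = S.sym i j v v' * S.sym i j u v' * (S.sym i j u v * S.hl i j v') * S.hl i j v := by
          rw [z1.hl h1]
      _ = S.sym i j v v' * (S.sym i j u v' * S.sym i j u v) * (S.hl i j v' * S.hl i j v) := by
          group
      _ = _ := by rw [z2.sym h1]
  have c3 : S.sym i j u (v * v') * (S.sym i j v v' * S.hl i j v' * S.hl i j v) =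
      (S.sym i j v v' * S.sym i j u (v * v')) * (S.hl i j v' * S.hl i j v) := by
    rw [z3.sym h1]; group
  rw [c2, c3] at c1
  exact (mul_left_cancel (mul_right_cancel c1)).symm

/-- Conjugating `h` by `h`. -/
lemma cj_hl_hl (h1 : i ≠ j) (h2 : j ≠ k) (h3 : i ≠ k) (hu : u ≠ 0) {v : K} (hv : v ≠ 0) :
    cj (S.hl i j u) (S.hl i j v) = S.hl i j (u * u * v) * (S.hl i j (u * u))⁻¹ := by
  have key : ∀ t : K, t ≠ 0 → cj (S.hl i j u) (S.wl i j t) = S.wl i j (u * u * t) := by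
    intro t _
    have e1 : u⁻¹ * u⁻¹ * -t⁻¹ = -(u * u * t)⁻¹ := by rw [mul_inv, mul_inv]; ring
    unfold StSys.wl
    rw [cj_mul, cj_mul, S.cj_hl_ij h1 h2 h3 hu, S.cj_hl_ji h1 h2 h3 hu, e1]
  have e2 : S.hl i j v = S.wl i j v * S.wl i j (-1) := rfl
  rw [e2, cj_mul, key v hv, key _ neg_one_ne, S.hl_inv h1]
  have e3 : S.hl i j (u * u * v) = S.wl i j (u * u * v) * S.wl i j (-1) := rfl
  rw [e3, mul_neg, mul_one, ← S.wl_inv h1 1]
  group

lemma Central.cj_eq_self {z y : G} (h : z * y = y * z) : cj z y = y := cj_eq h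

lemma sym_mul_left (h1 : i ≠ j) (h2 : j ≠ k) (h3 : i ≠ k) {u' : K} (hu : u ≠ 0) (hu' : u' ≠ 0)
    {v : K} (hv : v ≠ 0) : S.sym i j (u * u') v = S.sym i j u v * S.sym i j u' v := by
  have z1 := S.central_sym h1 h2 h3 hu hv
  have z2 := S.central_sym h1 h2 h3 hu' hv
  have z3 := S.central_sym h3 h2.symm h1 hu hu'
  have c1 := S.cj_hl_hl_ik h1 h2 h3 (mul_ne_zero hu hu') v
  rw [S.hl_mul, mul_cj, mul_cj, S.cj_hl_hl_ik h1 h2 h3 hu v, cj_mul,
    S.cj_hl_hl_ik h1 h2 h3 hu' v, cj_eq (z1.hl h3 u').symm] at c1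
  have c2 : cj (S.sym i k u u') (S.sym i j u v * (S.sym i j u' v * S.hl i j v)) =
      S.sym i j u v * (S.sym i j u' v * S.hl i j v) := by
    rw [cj_mul, cj_mul, cj_eq (z3.sym h1 _ _), cj_eq (z3.sym h1 _ _), cj_eq (z3.hl h1 _)]
  rw [c2, ← mul_assoc] at c1
  exact (mul_right_cancel c1).symm

/-- Skew-symmetry. -/
lemma sym_skew (h1 : i ≠ j) (h2 : j ≠ k) (h3 : i ≠ k) (hu : u ≠ 0) {v : K} (hv : v ≠ 0) :
    S.sym i j u v * S.sym i j v u = 1 := by
  have z1 := S.central_sym h1 h2 h3 hu hv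
  have z2 := S.central_sym h1 h2 h3 hv hu
  have c1 := cj_eq' (S.cj_hl_hl h1 h2 h3 hu hv)
  rw [S.hl_mul (u * u) v, S.sym_mul_left h1 h2 h3 hu hu hv, mul_inv_cancel_right] at c1
  -- h u * h v = sym u v * sym u v * h v * h u
  have c2 := S.hl_mul (i := i) (j := j) u v
  have c3 := S.hl_mul (i := i) (j := j) v u
  rw [mul_comm v u, mul_assoc, c1] at c3
  rw [c2] at c3
  -- sym u v * h v * h u = sym v u * (sym u v * sym u v * h v * h u)
  have c4 : S.sym i j u v * (S.hl i j v * S.hl i j u) =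
      (S.sym i j v u * S.sym i j u v) * (S.sym i j u v * (S.hl i j v * S.hl i j u)) := by
    calc S.sym i j u v * (S.hl i j v * S.hl i j u) = S.sym i j u v * S.hl i j v * S.hl i j u := by
          group
      _ = S.sym i j v u * (S.sym i j u v * S.sym i j u v * S.hl i j v * S.hl i j u) := c3
      _ = _ := by group
  have c5 : S.sym i j v u * S.sym i j u v = 1 := by
    have := mul_right_cancel (b := S.sym i j u v * (S.hl i j v * S.hl i j u))
      ((one_mul _).trans c4)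
    exact this.symm
  rw [z1.sym h1, c5]

/-- Weyl elements of arguments with sum one. -/
lemma wl_mul_wl (h1 : i ≠ j) (h2 : j ≠ k) (h3 : i ≠ k) (hu : u ≠ 0) {v : K} (hv : v ≠ 0)
    (huv : u + v = 1) : S.wl i j u * S.wl i j v = S.wl i j (u / v) * S.wl i j 1 := by
  have e0 : S.x i j 1 = S.x j i 1 * S.wl i j 1 * S.x j i 1 := by
    rw [S.wl_symm h1 h2 h3 one_ne_zero]
    unfold wl
    rw [inv_one, inv_neg, inv_one, neg_neg, S.neg h1.symm]
    group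
  have a1 : S.x i j u * S.x i j v = S.x i j 1 := by rw [← S.add h1, huv]
  have a2 : S.x j i (-u⁻¹) * S.x j i 1 = S.x j i (-(u / v)⁻¹) := by
    rw [← S.add h1.symm]
    congr 1
    field_simp
    linear_combination huv
  have a3 : S.x j i 1 * S.x j i (-v⁻¹) = S.x j i (-(u / v)) := by
    rw [← S.add h1.symm]
    congr 1
    field_simp
    linear_combination huv
  have a4 : S.wl i j 1 * S.x j i (-(u / v)) = S.x i j (u / v) * S.wl i j 1 := by
    rw [cj_eq' (S.cj_wl_ji h1 h2 h3 one_ne_zero (-(u / v)))]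
    congr 2; ring
  have a5 : S.wl i j 1 * S.x i j v = S.x j i (-v) * S.wl i j 1 := by
    rw [cj_eq' (S.cj_wl_ij h1 h2 h3 one_ne_zero v)]
    congr 2; simp
  have a6 : S.x j i (-(u / v)⁻¹) * S.x i j (u / v) = S.x i j (-(u / v)) * S.wl i j (u / v) := by
    unfold wl
    rw [S.neg h1]; group
  have huv0 : u / v ≠ 0 := div_ne_zero hu hv
  have a7 : S.wl i j (u / v) * S.x j i (-v) = S.x i j (u ^ 2 / v) * S.wl i j (u / v) := by
    rw [cj_eq' (S.cj_wl_ji h1 h2 h3 huv0 (-v))]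
    congr 2
    field_simp
  have a8 : S.x i j u * S.x i j (-(u / v)) * S.x i j (u ^ 2 / v) = 1 := by
    rw [← S.add h1, ← S.add h1, ← S.zero h1]
    congr 1
    field_simp
    linear_combination u * huv
  calc S.wl i j u * S.wl i j v
      = S.x i j u * S.x j i (-u⁻¹) * (S.x i j u * S.x i j v) * S.x j i (-v⁻¹) * S.x i j v := by
        unfold wl; group
    _ = S.x i j u * (S.x j i (-u⁻¹) * S.x j i 1) * S.wl i j 1 * (S.x j i 1 * S.x j i (-v⁻¹)) *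
          S.x i j v := by rw [a1, e0]; group
    _ = S.x i j u * S.x j i (-(u / v)⁻¹) * (S.wl i j 1 * S.x j i (-(u / v))) * S.x i j v := by
        rw [a2, a3]; group
    _ = S.x i j u * (S.x j i (-(u / v)⁻¹) * S.x i j (u / v)) * (S.wl i j 1 * S.x i j v) := by
        rw [a4]; group
    _ = S.x i j u * S.x i j (-(u / v)) * (S.wl i j (u / v) * S.x j i (-v)) * S.wl i j 1 := by
        rw [a5, a6]; group
    _ = (S.x i j u * S.x i j (-(u / v)) * S.x i j (u ^ 2 / v)) * S.wl i j (u / v) *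
          S.wl i j 1 := by rw [a7]; group
    _ = _ := by rw [a8, one_mul]

/-- The Steinberg relation for symbols. -/
lemma sym_steinberg (h1 : i ≠ j) (h2 : j ≠ k) (h3 : i ≠ k) (hu : u ≠ 0) {v : K} (hv : v ≠ 0)
    (huv : u + v = 1) : S.sym i j u v = 1 := by
  have c1 := S.wl_mul_wl h1 h2 h3 hu hv huv
  have hv' : v⁻¹ ≠ 0 := inv_ne_zero hv
  have c2 : S.wl i j 1 * S.wl i j v = S.hl i j v⁻¹ * S.wl i j 1 * S.wl i j 1 := by
    have e1 := cj_eq' (S.cj_wl_wl' h1 h2 h3 one_ne_zero hv)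
    rw [one_mul, one_mul] at e1
    rw [e1, S.wl_eq h1 v⁻¹]
  have c3 : S.hl i j u * S.hl i j v⁻¹ = S.hl i j (u / v) := by
    have e1 : S.hl i j u * (S.wl i j 1 * S.wl i j v) = S.hl i j (u / v) * S.wl i j 1 * S.wl i j 1 := by
      rw [← mul_assoc, ← S.wl_eq h1, c1, S.wl_eq h1 (u / v)]
    rw [c2] at e1
    have e2 : S.hl i j u * S.hl i j v⁻¹ * (S.wl i j 1 * S.wl i j 1) =
        S.hl i j (u / v) * (S.wl i j 1 * S.wl i j 1) := by
      rw [mul_assoc (S.hl i j u), ← mul_assoc (S.hl i j v⁻¹), e1, mul_assoc]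
    exact mul_right_cancel e2
  have c4 : S.sym i j v⁻¹ u = 1 := by
    have := S.hl_mul (i := i) (j := j) v⁻¹ u
    rw [mul_assoc, c3, inv_mul_eq_div] at this
    exact (right_eq_mul.mp this)
  have c5 : S.sym i j v u = 1 := by
    have := S.sym_mul_left h1 h2 h3 hv' hv hu
    rw [c4, one_mul, inv_mul_cancel₀ hv] at this
    rw [← this]
    unfold sym
    rw [one_mul, S.hl_one h1, inv_one, mul_one, mul_inv_cancel]
  have := S.sym_skew h1 h2 h3 hu hv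
  rwa [c5, mul_one] at this

end StSys

end Pool.Agent.Helper92.Ch
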