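import Pool.Agent.Helper92.Ch.UField

/-!
Symbols of the Steinberg system in the quotient group are trivial.
-/

set_option autoImplicit false
set_option linter.unusedSectionVars false

namespace Pool.Agent.Helper92.Ch

open Filter

section system

variable (p : ℕ → ℕ) [hp : ∀ k, Fact (p k).Prime] (U : Ultrafilter ℕ)
variable (X : ℕ → Type) [∀ k, Fintype (X k)] (e : ℕ → ℝ) (he : ∀ k, 0 ≤ e k) {n : ℕ}
variable (φ : ∀ k, Fin n → Fin n → ZMod (p k) → Equiv.Perm (X k))
variable (hadd : ∀ k i j, i ≠ j → ∀ a b, φ k i j (a + b) = φ k i j a * φ k i j b)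
variable (hcomm : ∀ k i j i' j', i ≠ j → i' ≠ j' → j ≠ i' → i ≠ j' → ∀ a b,
  (dc (φ k i j a * φ k i' j' b) (φ k i' j' b * φ k i j a) : ℝ) ≤ e k)
variable (hcomm' : ∀ k i j l, i ≠ j → j ≠ l → i ≠ l → ∀ a b,
  (dc (φ k i j a * φ k j l b) (φ k i l (a * b) * φ k j l b * φ k i j a) : ℝ) ≤ e k)

/-- Symbols of sequences of units. -/
noncomputable def TT (i j : Fin n) (u v : ∀ k, (ZMod (p k))ˣ) : QG X U e :=
  (SQ p U X e φ hadd hcomm hcomm').sym i j (toK p U fun k => (u k : ZMod (p k)))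
    (toK p U fun k => (v k : ZMod (p k)))

lemma TT_eq (i j : Fin n) (u v : ∀ k, (ZMod (p k))ˣ) :
    TT p U X e φ hadd hcomm hcomm' i j u v =
      mkQ X U e (fun k => sk p X φ k i j (u k : ZMod (p k)) (v k : ZMod (p k))) :=
  (mk_sk p U X e φ hadd hcomm hcomm' i j _ _).symm

section
variable {i j m : Fin n} (h1 : i ≠ j) (h2 : j ≠ m) (h3 : i ≠ m)
include h1 h2 h3

lemma TT_mulL (u u' v : ∀ k, (ZMod (p k))ˣ) :
    TT p U X e φ hadd hcomm hcomm' i j (fun k => u k * u' k) v =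
      TT p U X e φ hadd hcomm hcomm' i j u v * TT p U X e φ hadd hcomm hcomm' i j u' v := by
  have e1 : (toK p U fun k => ((u k * u' k : (ZMod (p k))ˣ) : ZMod (p k))) =
      (toK p U fun k => (u k : ZMod (p k))) * (toK p U fun k => (u' k : ZMod (p k))) := by
    rw [← map_mul]; rfl
  unfold TT
  rw [e1]
  exact StSys.sym_mul_left _ h1 h2 h3 (toK_unit_ne p U u) (toK_unit_ne p U u') (toK_unit_ne p U v)

lemma TT_mulR (u v v' : ∀ k, (ZMod (p k))ˣ) :
    TT p U X e φ hadd hcomm hcomm' i j u (fun k => v k * v' k) =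
      TT p U X e φ hadd hcomm hcomm' i j u v * TT p U X e φ hadd hcomm hcomm' i j u v' := by
  have e1 : (toK p U fun k => ((v k * v' k : (ZMod (p k))ˣ) : ZMod (p k))) =
      (toK p U fun k => (v k : ZMod (p k))) * (toK p U fun k => (v' k : ZMod (p k))) := by
    rw [← map_mul]; rfl
  unfold TT
  rw [e1]
  exact StSys.sym_mul_right _ h1 h2 h3 (toK_unit_ne p U u) (toK_unit_ne p U v) (toK_unit_ne p U v')

lemma TT_skew (u v : ∀ k, (ZMod (p k))ˣ) :
    TT p U X e φ hadd hcomm hcomm' i j u v * TT p U X e φ hadd hcomm hcomm' i j v u = 1 :=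
  StSys.sym_skew _ h1 h2 h3 (toK_unit_ne p U u) (toK_unit_ne p U v)

include he in
/-- Rigidity in the second variable. -/
lemma TT_rigid (ζ : ∀ k, (ZMod (p k))ˣ) (hζ : ∀ k, ∀ g, g ∈ Subgroup.zpowers (ζ k))
    (u : ∀ k, (ZMod (p k))ˣ) (h : TT p U X e φ hadd hcomm hcomm' i j u ζ = 1)
    (v : ∀ k, (ZMod (p k))ˣ) : TT p U X e φ hadd hcomm hcomm' i j u v = 1 := by
  rw [TT_eq] at h ⊢
  refine cyclic_rigidity X U e he (Γ := fun k => (ZMod (p k))ˣ)
    (fun k v => sk p X φ k i j (u k : ZMod (p k)) (v : ZMod (p k))) ?_ ζ hζ h v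
  intro g g'
  have := TT_mulR p U X e φ hadd hcomm hcomm' h1 h2 h3 u g g'
  rw [TT_eq, TT_eq, TT_eq] at this
  exact this

include he in
/-- All symbols are trivial. -/
lemma TT_trivial (u v : ∀ k, (ZMod (p k))ˣ) : TT p U X e φ hadd hcomm hcomm' i j u v = 1 := by
  have hz : ∀ k, ∃ ζ : (ZMod (p k))ˣ, ∀ g, g ∈ Subgroup.zpowers ζ :=
    fun k => IsCyclic.exists_generator
  choose ζ hζ using hz
  have hskew : ∀ u v : ∀ k, (ZMod (p k))ˣ, TT p U X e φ hadd hcomm hcomm' i j u v = 1 →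
      TT p U X e φ hadd hcomm hcomm' i j v u = 1 := by
    intro u v h
    have := TT_skew p U X e φ hadd hcomm hcomm' h1 h2 h3 u v
    rwa [h, one_mul] at this
  have hrig : ∀ u v : ∀ k, (ZMod (p k))ˣ, TT p U X e φ hadd hcomm hcomm' i j u ζ = 1 →
      TT p U X e φ hadd hcomm hcomm' i j u v = 1 :=
    fun u v h => TT_rigid p U X e he φ hadd hcomm hcomm' h1 h2 h3 ζ hζ u h v
  -- squares
  have hsqζ : TT p U X e φ hadd hcomm hcomm' i j (fun k => ζ k * ζ k) ζ = 1 := by
    rw [TT_mulL p U X e φ hadd hcomm hcomm' h1 h2 h3]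
    exact TT_skew p U X e φ hadd hcomm hcomm' h1 h2 h3 ζ ζ
  have hsq : ∀ u : ∀ k, (ZMod (p k))ˣ,
      TT p U X e φ hadd hcomm hcomm' i j (fun k => u k * u k) ζ = 1 := by
    intro u
    rw [TT_eq] at hsqζ ⊢
    refine cyclic_rigidity X U e he (Γ := fun k => (ZMod (p k))ˣ)
      (fun k u => sk p X φ k i j ((u * u : (ZMod (p k))ˣ) : ZMod (p k)) (ζ k : ZMod (p k)))
      ?_ ζ hζ hsqζ u
    intro g g'
    have h4 := TT_mulL p U X e φ hadd hcomm hcomm' h1 h2 h3 (fun k => g k * g k)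
      (fun k => g' k * g' k) ζ
    have h5 : (fun k => g k * g k * (g' k * g' k)) = fun k => g k * g' k * (g k * g' k) := by
      funext k; exact mul_mul_mul_comm _ _ _ _
    rw [h5, TT_eq, TT_eq, TT_eq] at h4
    exact h4
  have hsq' : ∀ u v : ∀ k, (ZMod (p k))ˣ,
      TT p U X e φ hadd hcomm hcomm' i j (fun k => u k * u k) v = 1 := fun u v => hrig _ v (hsq u)
  -- the symbol of the generators
  have hζζ : TT p U X e φ hadd hcomm hcomm' i j ζ ζ = 1 := by
    rcases U.em (fun k => p k = 2) with h | h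
    · have e1 : (toK p U fun k => (ζ k : ZMod (p k))) = 1 := by
        rw [← map_one (toK p U), toK_eq]
        filter_upwards [h] with k hk
        have := ZMod.units_pow_card_sub_one_eq_one (p k) (ζ k)
        have hk' : p k - 1 = 1 := by omega
        rw [hk', pow_one] at this
        rw [this]; rfl
      unfold TT
      rw [e1]
      unfold StSys.sym
      rw [one_mul, StSys.hl_one _ h1]; group
    · have hex : ∀ k, ∃ r s : (ZMod (p k))ˣ, p k ≠ 2 →
          ((ζ k * r ^ 2 : (ZMod (p k))ˣ) : ZMod (p k)) +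
          ((ζ k * s ^ 2 : (ZMod (p k))ˣ) : ZMod (p k)) = 1 := by
        intro k
        by_cases hk : p k = 2
        · exact ⟨1, 1, fun h => absurd hk h⟩
        · obtain ⟨r, s, hrs⟩ := exists_nonsquares (p k) hk (ζ k) (hζ k)
          exact ⟨r, s, fun _ => hrs⟩
      choose r s hrs using hex
      have e1 : TT p U X e φ hadd hcomm hcomm' i j (fun k => ζ k * (r k * r k))
          (fun k => ζ k * (s k * s k)) = 1 := by
        apply StSys.sym_steinberg _ h1 h2 h3 (toK_unit_ne p U _) (toK_unit_ne p U _)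
        rw [← map_add, ← map_one (toK p U), toK_eq]
        filter_upwards [h] with k hk
        have := hrs k hk
        rw [pow_two, pow_two] at this
        exact this
      rw [TT_mulL p U X e φ hadd hcomm hcomm' h1 h2 h3 ζ (fun k => r k * r k), hsq', mul_one,
        TT_mulR p U X e φ hadd hcomm hcomm' h1 h2 h3 ζ ζ (fun k => s k * s k),
        hskew _ _ (hsq' s ζ), mul_one] at e1
      exact e1
  exact hrig u v (hskew _ _ (hrig ζ u hζζ))

end

include he in
/-- All symbols of the system are trivial. -/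
theorem sym_trivial (hn : ∀ i j : Fin n, ∃ k, k ≠ i ∧ k ≠ j) (i j : Fin n) (h1 : i ≠ j)
    (u v : UK p U) (hu : u ≠ 0) (hv : v ≠ 0) :
    (SQ p U X e φ hadd hcomm hcomm').sym i j u v = 1 := by
  obtain ⟨m, hmi, hmj⟩ := hn i j
  obtain ⟨u, rfl⟩ := exists_units p U hu
  obtain ⟨v, rfl⟩ := exists_units p U hv
  exact TT_trivial p U X e he φ hadd hcomm hcomm' h1 hmj.symm hmi.symm u v

end system

end Pool.Agent.Helper92.Ch
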