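import Pool.Agent.Helper92.Ch.SymTriv
import Pool.Agent.Helper34.Ch.BoundedGen

/-!
Approximate actions of the Steinberg presentation with uniformly small defects are close to
actions of the special linear group, with a linear rate independent of the prime.
-/

set_option autoImplicit false
set_option linter.unusedSectionVars false

namespace Pool.Agent.Helper92.Ch

open Filter Matrix

/-- Pairs of distinct indices. -/
abbrev Pr (n : ℕ) : Type := {q : Fin n × Fin n // q.1 ≠ q.2}

section lists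

variable {n : ℕ}

/-- Product of transvections over a commutative ring. -/
def tp {R : Type} [CommRing R] (A : List (Pr n × R)) : Matrix (Fin n) (Fin n) R :=
  (A.map fun z => Matrix.transvection z.1.1.1 z.1.1.2 z.2).prod

/-- Product of elementary matrices over a field. -/
def ep {K : Type} [Field K] (A : List (Pr n × K)) : SpecialLinearGroup (Fin n) K :=
  (A.map fun z => El z.1.1.1 z.1.1.2 z.2).prod

lemma toM_ep {K : Type} [Field K] (A : List (Pr n × K)) : toM (ep A) = tp A := by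
  unfold ep tp
  induction A with
  | nil => rfl
  | cons z A ih =>
    rw [List.map_cons, List.prod_cons, toM_mul, ih, List.map_cons, List.prod_cons, El_coe z.1.2]
    rfl

lemma map_tp {R R' : Type} [CommRing R] [CommRing R'] (f : R →+* R') (A : List (Pr n × R)) :
    f.mapMatrix (tp A) = tp (A.map fun z => (z.1, f z.2)) := by
  unfold tp
  rw [map_list_prod, List.map_map, List.map_map]
  congr 1
  apply List.map_congr_left
  intro z _
  simp only [Function.comp]
  unfold transvection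
  rw [map_add, map_one]
  congr 1
  ext i j
  simp only [RingHom.mapMatrix_apply, map_apply, single_apply]
  split_ifs <;> simp

lemma exists_internal (p : ℕ → ℕ) (L : List (Pr n)) :
    ∀ b : ∀ k, List (ZMod (p k)), (∀ k, (b k).length = L.length) →
    ∃ A : List (Pr n × PR p), ∀ k, A.map (fun z => (z.1, z.2 k)) = L.zip (b k) := by
  induction L with
  | nil => exact fun b _ => ⟨[], fun k => rfl⟩
  | cons q L ih =>
    intro b hb
    have h1 : ∀ k, ∃ c d, b k = c :: d ∧ d.length = L.length := by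
      intro k
      have := hb k
      match hbk : b k with
      | [] => rw [hbk] at this; simp at this
      | c :: d =>
        rw [hbk, List.length_cons, List.length_cons] at this
        exact ⟨c, d, rfl, by omega⟩
    choose c d hcd hd using h1
    obtain ⟨A, hA⟩ := ih d hd
    refine ⟨(q, c) :: A, fun k => ?_⟩
    rw [List.map_cons, hA k, hcd k]; rfl

end lists

section system

variable (p : ℕ → ℕ) [hp : ∀ k, Fact (p k).Prime] (U : Ultrafilter ℕ)
variable (X : ℕ → Type) [∀ k, Fintype (X k)] (e : ℕ → ℝ) (he : ∀ k, 0 ≤ e k) {n : ℕ}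
variable (φ : ∀ k, Fin n → Fin n → ZMod (p k) → Equiv.Perm (X k))
variable (hadd : ∀ k i j, i ≠ j → ∀ a b, φ k i j (a + b) = φ k i j a * φ k i j b)
variable (hcomm : ∀ k i j i' j', i ≠ j → i' ≠ j' → j ≠ i' → i ≠ j' → ∀ a b,
  (dc (φ k i j a * φ k i' j' b) (φ k i' j' b * φ k i j a) : ℝ) ≤ e k)
variable (hcomm' : ∀ k i j l, i ≠ j → j ≠ l → i ≠ l → ∀ a b,
  (dc (φ k i j a * φ k j l b) (φ k i l (a * b) * φ k j l b * φ k i j a) : ℝ) ≤ e k)

/-- The value of the system on a list. -/
def fl (k : ℕ) (A : List (Pr n × ZMod (p k))) : Equiv.Perm (X k) :=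
  (A.map fun z => φ k z.1.1.1 z.1.1.2 z.2).prod

lemma mk_fl (A : List (Pr n × PR p)) :
    mkQ X U e (fun k => fl p X φ k (A.map fun z => (z.1, z.2 k))) =
      ((A.map fun z => (z.1, toK p U z.2)).map fun z =>
        (SQ p U X e φ hadd hcomm hcomm').x z.1.1.1 z.1.1.2 z.2).prod := by
  induction A with
  | nil => rfl
  | cons z A ih =>
    rw [List.map_cons, List.map_cons, List.prod_cons, ← ih]
    show _ = xQ p U X e φ z.1.1.1 z.1.1.2 (toK p U z.2) * _
    rw [xQ_toK, ← mkQ_mul]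
    rfl

lemma ep_toK (A B : List (Pr n × PR p))
    (h : ∀ k, ep (A.map fun z => (z.1, z.2 k)) = ep (B.map fun z => (z.1, z.2 k))) :
    ep (A.map fun z => (z.1, toK p U z.2)) = ep (B.map fun z => (z.1, toK p U z.2)) := by
  apply toM_inj
  rw [toM_ep, toM_ep, ← map_tp, ← map_tp]
  congr 1
  ext i j k
  have h1 := congrArg toM (h k)
  rw [toM_ep, toM_ep] at h1
  have h2 := map_tp (Pi.evalRingHom (fun k => ZMod (p k)) k) A
  have h3 := map_tp (Pi.evalRingHom (fun k => ZMod (p k)) k) B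
  have h4 : (Pi.evalRingHom (fun k => ZMod (p k)) k).mapMatrix (tp A) =
      (Pi.evalRingHom (fun k => ZMod (p k)) k).mapMatrix (tp B) := by
    rw [h2, h3]; exact h1
  exact congrFun (congrFun h4 i) j

include he hadd hcomm hcomm' in
/-- Lists with equal matrices have equal values in the quotient group. -/
theorem fl_eq (hn : ∀ i j : Fin n, ∃ k, k ≠ i ∧ k ≠ j) (A B : List (Pr n × PR p))
    (h : ∀ k, ep (A.map fun z => (z.1, z.2 k)) = ep (B.map fun z => (z.1, z.2 k))) :
    mkQ X U e (fun k => fl p X φ k (A.map fun z => (z.1, z.2 k))) =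
      mkQ X U e (fun k => fl p X φ k (B.map fun z => (z.1, z.2 k))) := by
  rw [mk_fl p U X e φ hadd hcomm hcomm', mk_fl p U X e φ hadd hcomm hcomm']
  exact kernel_list (SQ p U X e φ hadd hcomm hcomm') hn
    (sym_trivial p U X e he φ hadd hcomm hcomm' hn) _ _ (ep_toK p U A B h)

end system

/-- Approximate actions with uniformly small defects. -/
structure Datum (n : ℕ) where
  p : ℕ
  hp : Fact p.Prime
  X : Type
  hX : Fintype X
  e : ℝ
  he : 0 ≤ e
  φ : Fin n → Fin n → ZMod p → Equiv.Perm X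
  hadd : ∀ i j, i ≠ j → ∀ a b, φ i j (a + b) = φ i j a * φ i j b
  hcomm : ∀ i j i' j', i ≠ j → i' ≠ j' → j ≠ i' → i ≠ j' → ∀ a b,
    (dc (φ i j a * φ i' j' b) (φ i' j' b * φ i j a) : ℝ) ≤ e
  hcomm' : ∀ i j l, i ≠ j → j ≠ l → i ≠ l → ∀ a b,
    (dc (φ i j a * φ j l b) (φ i l (a * b) * φ j l b * φ i j a) : ℝ) ≤ e

/-- The conclusion. -/
def Datum.Good {n : ℕ} (D : Datum n) (C : ℝ) : Prop :=
  letI := D.hp
  letI := D.hX
  ∃ (Y : Type) (_ : Fintype Y) (j : D.X ↪ Y)
    (Φ : SpecialLinearGroup (Fin n) (ZMod D.p) →* Equiv.Perm Y),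
    (Fintype.card Y : ℝ) ≤ Fintype.card D.X + C * D.e ∧
    ∀ i i', i ≠ i' → ∀ a, (ec j (Φ (El i i' a)) (D.φ i i' a) : ℝ) ≤ C * D.e

theorem thmB {n : ℕ} (hn : ∀ i j : Fin n, ∃ k, k ≠ i ∧ k ≠ j) :
    ∃ C : ℝ, 0 ≤ C ∧ ∀ D : Datum n, D.Good C := by
  classical
  by_contra hcon
  push Not at hcon
  choose D hD using fun k : ℕ => hcon k (Nat.cast_nonneg k)
  let p : ℕ → ℕ := fun k => (D k).p
  have hp : ∀ k, Fact (p k).Prime := fun k => (D k).hp
  let X : ℕ → Type := fun k => (D k).X
  let hX : ∀ k, Fintype (X k) := fun k => (D k).hX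
  let e : ℕ → ℝ := fun k => (D k).e
  have he : ∀ k, 0 ≤ e k := fun k => (D k).he
  let φ : ∀ k, Fin n → Fin n → ZMod (p k) → Equiv.Perm (X k) := fun k => (D k).φ
  have hadd : ∀ k i j, i ≠ j → ∀ a b, φ k i j (a + b) = φ k i j a * φ k i j b :=
    fun k => (D k).hadd
  have hcomm : ∀ k i j i' j', i ≠ j → i' ≠ j' → j ≠ i' → i ≠ j' → ∀ a b,
    (dc (φ k i j a * φ k i' j' b) (φ k i' j' b * φ k i j a) : ℝ) ≤ e k := fun k => (D k).hcomm
  have hcomm' : ∀ k i j l, i ≠ j → j ≠ l → i ≠ l → ∀ a b,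
    (dc (φ k i j a * φ k j l b) (φ k i l (a * b) * φ k j l b * φ k i j a) : ℝ) ≤ e k :=
    fun k => (D k).hcomm'
  let U : Ultrafilter ℕ := hyperfilter ℕ
  -- bounded generation
  obtain ⟨L, hL⟩ := Pool.Agent.Helper34.Ch.bounded_generation n
  have hL' : ∀ k, ∀ g : SpecialLinearGroup (Fin n) (ZMod (p k)), ∃ a : List (ZMod (p k)),
      a.length = L.length ∧ g = ep (L.zip a) := by
    intro k g
    obtain ⟨a, ha, hg⟩ := hL (ZMod (p k)) g
    refine ⟨a, ha, toM_inj ?_⟩
    rw [toM_ep]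
    exact hg
  choose a ha hga using hL'
  let f : ∀ k, SpecialLinearGroup (Fin n) (ZMod (p k)) → Equiv.Perm (X k) :=
    fun k g => fl p X φ k (L.zip (a k g))
  have hlist : ∀ g : ∀ k, SpecialLinearGroup (Fin n) (ZMod (p k)),
      ∃ A : List (Pr n × PR p), ∀ k, A.map (fun z => (z.1, z.2 k)) = L.zip (a k (g k)) :=
    fun g => exists_internal p L (fun k => a k (g k)) (fun k => ha k (g k))
  -- internal homomorphism
  have hf : ∀ g g' : ∀ k, SpecialLinearGroup (Fin n) (ZMod (p k)),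
      mkQ X U e (fun k => f k (g k * g' k)) =
      mkQ X U e (fun k => f k (g k)) * mkQ X U e (fun k => f k (g' k)) := by
    intro g g'
    obtain ⟨A, hA⟩ := hlist g
    obtain ⟨A', hA'⟩ := hlist g'
    obtain ⟨B, hB⟩ := hlist (fun k => g k * g' k)
    have h1 := fl_eq p U X e he φ hadd hcomm hcomm' hn B (A ++ A') (by
      intro k
      rw [List.map_append, hA, hA', hB]
      have : ep (L.zip (a k (g k)) ++ L.zip (a k (g' k))) =
          ep (L.zip (a k (g k))) * ep (L.zip (a k (g' k))) := by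
        unfold ep; rw [List.map_append, List.prod_append]
      rw [this, ← hga, ← hga, ← hga])
    have h2 : (fun k => f k (g k * g' k)) =
        fun k => fl p X φ k (B.map fun z => (z.1, z.2 k)) := by
      funext k; rw [hB]
    have h3 : (fun k => fl p X φ k ((A ++ A').map fun z => (z.1, z.2 k))) =
        fun k => f k (g k) * f k (g' k) := by
      funext k
      rw [List.map_append, hA, hA']
      show fl p X φ k (_ ++ _) = _
      unfold fl; rw [List.map_append, List.prod_append]; rfl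
    rw [h2, h1, h3, mkQ_mul]
  obtain ⟨C, hC, h1⟩ := internal_stability X U e he f hf
  -- generators
  have hgen : ∀ q : Pr n, ∃ C : ℝ, 0 ≤ C ∧ ∀ᶠ k in (U : Filter ℕ), ∀ c : ZMod (p k),
      (dc (f k (El q.1.1 q.1.2 c)) (φ k q.1.1 q.1.2 c) : ℝ) ≤ C * e k := by
    intro q
    apply uniformize X U e he (Γ := fun k => ZMod (p k))
    intro c
    obtain ⟨A, hA⟩ := hlist (fun k => El q.1.1 q.1.2 (c k))
    have h2 := fl_eq p U X e he φ hadd hcomm hcomm' hn A [(q, c)] (by
      intro k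
      rw [hA, ← hga]
      unfold ep
      simp)
    have h3 : (fun k => f k (El q.1.1 q.1.2 (c k))) =
        fun k => fl p X φ k (A.map fun z => (z.1, z.2 k)) := by
      funext k; rw [hA]
    have h4 : (fun k => fl p X φ k ([(q, c)].map fun z => (z.1, z.2 k))) =
        fun k => φ k q.1.1 q.1.2 (c k) := by
      funext k
      unfold fl
      simp
    rw [h3, h2, h4]
  choose Cq hCq hgen using hgen
  have hgen' : ∀ᶠ k in (U : Filter ℕ), ∀ q : Pr n, ∀ c : ZMod (p k),
      (dc (f k (El q.1.1 q.1.2 c)) (φ k q.1.1 q.1.2 c) : ℝ) ≤ Cq q * e k := by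
    rw [Filter.eventually_all]
    exact hgen
  set Ctot : ℝ := C + ∑ q, Cq q with hCtot
  have hlarge : ∀ᶠ k : ℕ in (U : Filter ℕ), Ctot ≤ (k : ℝ) := by
    obtain ⟨N, hN⟩ := exists_nat_ge Ctot
    have : ∀ᶠ k in (cofinite : Filter ℕ), N ≤ k := by
      rw [Nat.cofinite_eq_atTop]; exact eventually_ge_atTop N
    have h5 : ∀ᶠ k in (U : Filter ℕ), N ≤ k := hyperfilter_le_cofinite this
    filter_upwards [h5] with k hk
    exact le_trans hN (by exact_mod_cast hk)
  obtain ⟨k, hk1, hk2, hk3⟩ := (h1.and (hgen'.and hlarge)).exists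
  apply hD k
  obtain ⟨Y, hY, j, Φ, h6, h7⟩ := hk1
  have hek : 0 ≤ (D k).e := he k
  have hCq0 : 0 ≤ ∑ q, Cq q := Finset.sum_nonneg fun q _ => hCq q
  have hmono : Ctot * (D k).e ≤ k * (D k).e := mul_le_mul_of_nonneg_right hk3 hek
  have hC1 : C * (D k).e ≤ Ctot * (D k).e :=
    mul_le_mul_of_nonneg_right (by rw [hCtot]; linarith) hek
  refine ⟨Y, hY, j, Φ, ?_, ?_⟩
  · have : (Fintype.card Y : ℝ) ≤ Fintype.card (D k).X + C * (D k).e := h6
    linarith
  · intro i i' hii' c
    have h8 := ec_triangle j (Φ (El i i' c)) (f k (El i i' c)) (φ k i i' c)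
    have h9 : (ec j (Φ (El i i' c)) (φ k i i' c) : ℝ) ≤
        ec j (Φ (El i i' c)) (f k (El i i' c)) + dc (f k (El i i' c)) (φ k i i' c) := by
      exact_mod_cast h8
    have h10 := h7 (El i i' c)
    have h11 := hk2 ⟨(i, i'), hii'⟩ c
    have h12 : Cq ⟨(i, i'), hii'⟩ ≤ ∑ q, Cq q :=
      Finset.single_le_sum (fun q _ => hCq q) (Finset.mem_univ _)
    have h13 : Cq ⟨(i, i'), hii'⟩ * e k ≤ (∑ q, Cq q) * e k :=
      mul_le_mul_of_nonneg_right h12 hek
    have h14 : Ctot * e k = C * e k + (∑ q, Cq q) * e k := by rw [hCtot]; ring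
    have h15 : Ctot * e k ≤ k * e k := hmono
    show (ec j (Φ (El i i' c)) (φ k i i' c) : ℝ) ≤ k * e k
    simp only at h11
    linarith

end Pool.Agent.Helper92.Ch
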