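import Pool.Agent.Helper92.Ch.Quot
import Pool.Agent.Helper92.Ch.Kernel

/-!
Ultraproducts of prime fields and the Steinberg system in the quotient group.
-/

set_option autoImplicit false
set_option linter.unusedSectionVars false

namespace Pool.Agent.Helper92.Ch

open Filter

section field

variable (p : ℕ → ℕ) [hp : ∀ k, Fact (p k).Prime] (U : Ultrafilter ℕ)

/-- The product ring. -/
abbrev PR : Type := ∀ k, ZMod (p k)

/-- Sequences vanishing almost everywhere. -/
def mI : Ideal (PR p) where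
  carrier := {a | ∀ᶠ k in (U : Filter ℕ), a k = 0}
  zero_mem' := Eventually.of_forall fun _ => rfl
  add_mem' := by
    intro a b ha hb
    filter_upwards [ha, hb] with k h1 h2
    rw [Pi.add_apply, h1, h2, add_zero]
  smul_mem' := by
    intro c a ha
    filter_upwards [ha] with k h1
    rw [smul_eq_mul, Pi.mul_apply, h1, mul_zero]

lemma mem_mI {a : PR p} : a ∈ mI p U ↔ ∀ᶠ k in (U : Filter ℕ), a k = 0 := Iff.rfl

instance : (mI p U).IsMaximal := by
  rw [Ideal.isMaximal_iff]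
  constructor
  · intro h
    rw [mem_mI] at h
    obtain ⟨k, hk⟩ := h.exists
    exact one_ne_zero hk
  · intro J a hJ ha haJ
    rw [mem_mI, ← Ultrafilter.eventually_not] at ha
    have h1 : a * (fun k => (a k)⁻¹) ∈ J := J.mul_mem_right _ haJ
    have h2 : (1 - a * (fun k => (a k)⁻¹) : PR p) ∈ mI p U := by
      rw [mem_mI]
      filter_upwards [ha] with k hk
      simp only [Pi.sub_apply, Pi.one_apply, Pi.mul_apply]
      rw [mul_inv_cancel₀ hk, sub_self]
    have h3 := J.add_mem (hJ h2) h1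
    rwa [sub_add_cancel] at h3

/-- The ultraproduct. -/
def UK : Type := PR p ⧸ mI p U

noncomputable instance : Field (UK p U) := Ideal.Quotient.field (mI p U)

/-- The quotient map. -/
noncomputable def toK : PR p →+* UK p U := Ideal.Quotient.mk (mI p U)

lemma toK_surj : Function.Surjective (toK p U) := Ideal.Quotient.mk_surjective

lemma toK_eq {a b : PR p} : toK p U a = toK p U b ↔ ∀ᶠ k in (U : Filter ℕ), a k = b k := by
  have : toK p U a = toK p U b ↔ a - b ∈ mI p U := Ideal.Quotient.mk_eq_mk_iff_sub_mem a b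
  rw [this, mem_mI]
  simp only [Pi.sub_apply, sub_eq_zero]

lemma toK_ne_zero {a : PR p} : toK p U a ≠ 0 ↔ ∀ᶠ k in (U : Filter ℕ), a k ≠ 0 := by
  rw [← map_zero (toK p U), Ne, toK_eq, ← Ultrafilter.eventually_not]; rfl

lemma toK_inv (a : PR p) : (toK p U a)⁻¹ = toK p U (fun k => (a k)⁻¹) := by
  by_cases h : toK p U a = 0
  · rw [h, inv_zero, eq_comm, ← map_zero (toK p U), toK_eq]
    rw [← map_zero (toK p U), toK_eq] at h
    filter_upwards [h] with k hk
    rw [hk]; exact inv_zero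
  · apply inv_eq_of_mul_eq_one_right
    rw [← map_mul, ← map_one (toK p U), toK_eq]
    rw [← Ne, toK_ne_zero] at h
    filter_upwards [h] with k hk
    exact mul_inv_cancel₀ hk

/-- Nonzero elements are represented by sequences of units. -/
lemma exists_units {x : UK p U} (hx : x ≠ 0) :
    ∃ u : ∀ k, (ZMod (p k))ˣ, toK p U (fun k => (u k : ZMod (p k))) = x := by
  classical
  obtain ⟨a, rfl⟩ := toK_surj p U x
  rw [toK_ne_zero] at hx
  refine ⟨fun k => if h : a k ≠ 0 then Units.mk0 (a k) h else 1, ?_⟩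
  rw [toK_eq]
  filter_upwards [hx] with k hk
  rw [dif_pos hk]; rfl

lemma toK_unit_ne (u : ∀ k, (ZMod (p k))ˣ) : toK p U (fun k => (u k : ZMod (p k))) ≠ 0 := by
  rw [toK_ne_zero]
  exact Eventually.of_forall fun k => (u k).ne_zero

end field

/-- Sums of two nonsquares. -/
lemma exists_nonsquares (p : ℕ) [Fact p.Prime] (hp : p ≠ 2) (ζ : (ZMod p)ˣ)
    (hζ : ∀ x : (ZMod p)ˣ, x ∈ Subgroup.zpowers ζ) :
    ∃ r s : (ZMod p)ˣ, ((ζ * r ^ 2 : (ZMod p)ˣ) : ZMod p) + ((ζ * s ^ 2 : (ZMod p)ˣ) : ZMod p) = 1 := by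
  classical
  have hchar : ringChar (ZMod p) ≠ 2 := by
    rw [ZMod.ringChar_zmod_n]; exact hp
  obtain ⟨a, ha⟩ := FiniteField.exists_nonsquare hchar
  have hex : ∃ n : ℕ, ¬ IsSquare (n : ZMod p) := by
    refine ⟨a.val, ?_⟩
    rwa [ZMod.natCast_zmod_val]
  set n := Nat.find hex with hn
  have h1 : ¬ IsSquare (n : ZMod p) := Nat.find_spec hex
  have hn0 : n ≠ 0 := by
    intro h; rw [h] at h1; exact h1 (by simp)
  have h2 : IsSquare ((n - 1 : ℕ) : ZMod p) := by
    have := Nat.find_min hex (m := n - 1) (by omega)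
    push Not at this
    exact this
  have h3 : (n : ZMod p) = ((n - 1 : ℕ) : ZMod p) + 1 := by
    have : n = (n - 1) + 1 := by omega
    conv_lhs => rw [this]
    push_cast; ring
  obtain ⟨b, hb⟩ := h2
  have hb0 : b ≠ 0 := by
    rintro rfl
    rw [mul_zero] at hb
    rw [hb, zero_add] at h3
    exact h1 (h3 ▸ ⟨1, by ring⟩)
  have hn' : (n : ZMod p) ≠ 0 := by
    intro h; rw [h] at h1; exact h1 (by simp)
  -- the inverse of n is ζ r^2
  obtain ⟨m, hm⟩ := Subgroup.mem_zpowers_iff.mp (hζ (Units.mk0 (n : ZMod p) hn')⁻¹)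
  have hodd : Odd m := by
    by_contra hev
    rw [Int.not_odd_iff_even] at hev
    obtain ⟨l, hl⟩ := hev
    apply h1
    have : (Units.mk0 (n : ZMod p) hn') = (ζ ^ (-l)) * ζ ^ (-l) := by
      rw [← zpow_add, ← inv_inj, ← hm, ← zpow_neg]
      congr 1; omega
    have h5 := congrArg (fun u : (ZMod p)ˣ => (u : ZMod p)) this
    simp only [Units.val_mk0, Units.val_mul] at h5
    exact ⟨_, h5⟩
  obtain ⟨l, hl⟩ := hodd
  refine ⟨ζ ^ l, ζ ^ l * Units.mk0 b hb0, ?_⟩
  have e1 : ζ * (ζ ^ l) ^ 2 = (Units.mk0 (n : ZMod p) hn')⁻¹ := by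
    rw [← hm, hl, ← zpow_natCast, ← zpow_mul, ← zpow_one_add]
    congr 1; push_cast; ring
  have e2 : ζ * (ζ ^ l * Units.mk0 b hb0) ^ 2 = (Units.mk0 (n : ZMod p) hn')⁻¹ *
      (Units.mk0 b hb0) ^ 2 := by
    rw [← e1, mul_pow]; group
  rw [e1, e2]
  rw [Units.val_mul, Units.val_inv_eq_inv_val, Units.val_pow_eq_pow_val, Units.val_mk0,
    Units.val_mk0]
  field_simp
  rw [h3, hb]; ring

section system

variable (p : ℕ → ℕ) [hp : ∀ k, Fact (p k).Prime] (U : Ultrafilter ℕ)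
variable (X : ℕ → Type) [∀ k, Fintype (X k)] (e : ℕ → ℝ) (he : ∀ k, 0 ≤ e k) {n : ℕ}
variable (φ : ∀ k, Fin n → Fin n → ZMod (p k) → Equiv.Perm (X k))

/-- The elements of the system in the quotient group. -/
noncomputable def xQ (i j : Fin n) (a : UK p U) : QG X U e :=
  mkQ X U e (fun k => φ k i j (Function.surjInv (toK_surj p U) a k))

lemma xQ_toK (i j : Fin n) (a : PR p) :
    xQ p U X e φ i j (toK p U a) = mkQ X U e (fun k => φ k i j (a k)) := by
  unfold xQ
  apply mkQ_eq_of_eventually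
  have h := Function.surjInv_eq (toK_surj p U) (toK p U a)
  rw [toK_eq] at h
  filter_upwards [h] with k hk
  rw [hk]

variable (hadd : ∀ k i j, i ≠ j → ∀ a b, φ k i j (a + b) = φ k i j a * φ k i j b)
variable (hcomm : ∀ k i j i' j', i ≠ j → i' ≠ j' → j ≠ i' → i ≠ j' → ∀ a b,
  (dc (φ k i j a * φ k i' j' b) (φ k i' j' b * φ k i j a) : ℝ) ≤ e k)
variable (hcomm' : ∀ k i j l, i ≠ j → j ≠ l → i ≠ l → ∀ a b,
  (dc (φ k i j a * φ k j l b) (φ k i l (a * b) * φ k j l b * φ k i j a) : ℝ) ≤ e k)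

include hadd hcomm hcomm' in
/-- The Steinberg system in the quotient group. -/
noncomputable def SQ : StSys (Fin n) (UK p U) (QG X U e) where
  x := xQ p U X e φ
  add := by
    intro i j h a b
    obtain ⟨a, rfl⟩ := toK_surj p U a
    obtain ⟨b, rfl⟩ := toK_surj p U b
    rw [← map_add, xQ_toK, xQ_toK, xQ_toK, ← mkQ_mul]
    congr 1
    funext k
    exact hadd k i j h _ _
  comm := by
    intro i j i' j' h1 h2 h3 h4 a b
    obtain ⟨a, rfl⟩ := toK_surj p U a
    obtain ⟨b, rfl⟩ := toK_surj p U b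
    rw [xQ_toK, xQ_toK, ← mkQ_mul, ← mkQ_mul, mkQ_eq]
    exact ⟨1, zero_le_one, Eventually.of_forall fun k => by
      rw [one_mul]; exact hcomm k i j i' j' h1 h2 h3 h4 _ _⟩
  comm' := by
    intro i j l h1 h2 h3 a b
    obtain ⟨a, rfl⟩ := toK_surj p U a
    obtain ⟨b, rfl⟩ := toK_surj p U b
    rw [← map_mul, xQ_toK, xQ_toK, xQ_toK, ← mkQ_mul, ← mkQ_mul, ← mkQ_mul, mkQ_eq]
    exact ⟨1, zero_le_one, Eventually.of_forall fun k => by
      rw [one_mul]; exact hcomm' k i j l h1 h2 h3 _ _⟩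

/-- Weyl elements, internally. -/
def wk (k : ℕ) (i j : Fin n) (u : ZMod (p k)) : Equiv.Perm (X k) :=
  φ k i j u * φ k j i (-u⁻¹) * φ k i j u

/-- Diagonal elements, internally. -/
def hk (k : ℕ) (i j : Fin n) (u : ZMod (p k)) : Equiv.Perm (X k) :=
  wk p X φ k i j u * wk p X φ k i j (-1)

/-- Symbols, internally. -/
def sk (k : ℕ) (i j : Fin n) (u v : ZMod (p k)) : Equiv.Perm (X k) :=
  hk p X φ k i j (u * v) * (hk p X φ k i j u)⁻¹ * (hk p X φ k i j v)⁻¹

lemma mk_wk (i j : Fin n) (u : PR p) : mkQ X U e (fun k => wk p X φ k i j (u k)) =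
    (SQ p U X e φ hadd hcomm hcomm').wl i j (toK p U u) := by
  unfold StSys.wl
  show _ = xQ p U X e φ i j (toK p U u) * xQ p U X e φ j i (-(toK p U u)⁻¹) *
    xQ p U X e φ i j (toK p U u)
  rw [toK_inv, ← map_neg, xQ_toK, xQ_toK]
  rfl

lemma mk_hk (i j : Fin n) (u : PR p) : mkQ X U e (fun k => hk p X φ k i j (u k)) =
    (SQ p U X e φ hadd hcomm hcomm').hl i j (toK p U u) := by
  unfold StSys.hl
  have h1 : (-1 : UK p U) = toK p U (fun _ => -1) := by
    have : (fun _ => -1 : PR p) = -1 := rfl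
    rw [this, map_neg, map_one]
  rw [h1, ← mk_wk, ← mk_wk]
  rfl

lemma mk_sk (i j : Fin n) (u v : PR p) : mkQ X U e (fun k => sk p X φ k i j (u k) (v k)) =
    (SQ p U X e φ hadd hcomm hcomm').sym i j (toK p U u) (toK p U v) := by
  unfold StSys.sym
  rw [← map_mul, ← mk_hk, ← mk_hk, ← mk_hk]
  rfl

end system

end Pool.Agent.Helper92.Ch
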